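import Mathlib

/-!
Cayley's Omega process and the first fundamental theorem for `SL_r` acting on `m` vectors.
-/

namespace Pool.Agent.Helper49.SLnm

open Matrix MvPolynomial

section Omega

variable {r : ℕ}

theorem pderiv_hom {σ R : Type*} [CommRing R] {p : MvPolynomial σ R} {k : ℕ}
    (hp : p.IsHomogeneous (k + 1)) (i : σ) : (pderiv i p).IsHomogeneous k := by
  rw [IsHomogeneous, IsWeightedHomogeneous]
  intro d hd
  rw [coeff_pderiv] at hd
  have h1 : coeff (d + Finsupp.single i 1) p ≠ 0 := fun h => hd (by rw [h, zero_mul])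
  have h2 := hp h1
  rw [map_add] at h2
  have h3 : Finsupp.weight (1 : σ → ℕ) (Finsupp.single i 1) = 1 := by
    rw [Finsupp.weight_single]; simp
  rw [h3] at h2
  omega

/-- derivation as an endomorphism -/
noncomputable def pdE (R : Type*) [CommRing R] {σ : Type*} (s : σ) :
    Module.End R (MvPolynomial σ R) := (pderiv s : Derivation R (MvPolynomial σ R) _).toLinearMap

theorem pdE_apply {R : Type*} [CommRing R] {σ : Type*} (s : σ) (p : MvPolynomial σ R) :
    pdE R s p = pderiv s p := rfl

/-- The Omega operator `det(∂)`. -/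
noncomputable def Om (R : Type*) [CommRing R] (r : ℕ) :
    Module.End R (MvPolynomial (Fin r × Fin r) R) :=
  ∑ σ : Equiv.Perm (Fin r), ((Equiv.Perm.sign σ : ℤˣ) : ℤ) •
    (List.ofFn fun i => pdE R (i, σ i)).prod

/-- The generic determinant. -/
noncomputable def detX (R : Type*) [CommRing R] (r : ℕ) : MvPolynomial (Fin r × Fin r) R :=
  Matrix.det (Matrix.of fun j i : Fin r => (X (i, j) : MvPolynomial (Fin r × Fin r) R))

theorem detX_eq (R : Type*) [CommRing R] (r : ℕ) : detX R r =
    ∑ σ : Equiv.Perm (Fin r), ((Equiv.Perm.sign σ : ℤˣ) : ℤ) • (List.ofFn fun i => X (i, σ i)).prod := by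
  unfold detX
  rw [Matrix.det_apply]
  refine Finset.sum_congr rfl fun σ _ => ?_
  rw [List.prod_ofFn]
  rfl

theorem pdE_list_map {R S : Type*} [CommRing R] [CommRing S] (f : R →+* S) {σ : Type*} :
    ∀ (L : List σ) (p : MvPolynomial σ R),
    (L.map (pdE S)).prod (map f p) = map f ((L.map (pdE R)).prod p) := by
  intro L
  induction L with
  | nil => intro p; simp
  | cons s L ih =>
    intro p
    rw [List.map_cons, List.prod_cons, List.map_cons, List.prod_cons, Module.End.mul_apply,
      Module.End.mul_apply, ih, pdE_apply, pdE_apply, pderiv_map]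

theorem Om_map {R S : Type*} [CommRing R] [CommRing S] (f : R →+* S)
    (p : MvPolynomial (Fin r × Fin r) R) : Om S r (map f p) = map f (Om R r p) := by
  unfold Om
  rw [LinearMap.sum_apply, LinearMap.sum_apply, map_sum]
  refine Finset.sum_congr rfl fun σ _ => ?_
  rw [LinearMap.smul_apply, LinearMap.smul_apply, map_zsmul]
  congr 1
  have := pdE_list_map f (List.ofFn fun i : Fin r => (i, σ i)) p
  rw [List.map_ofFn, List.map_ofFn] at this
  exact this

theorem Om_pow_map {R S : Type*} [CommRing R] [CommRing S] (f : R →+* S) (k : ℕ)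
    (p : MvPolynomial (Fin r × Fin r) R) : (Om S r ^ k) (map f p) = map f ((Om R r ^ k) p) := by
  induction k generalizing p with
  | zero => simp
  | succ k ih =>
    rw [pow_succ, pow_succ, Module.End.mul_apply, Module.End.mul_apply, Om_map, ih]

theorem detX_map {R S : Type*} [CommRing R] [CommRing S] (f : R →+* S) :
    map f (detX R r) = detX S r := by
  unfold detX
  rw [RingHom.map_det]
  congr 1
  ext i j
  simp

theorem pdE_list_hom {R : Type*} [CommRing R] {σ : Type*} : ∀ (L : List σ) (k : ℕ)
    (p : MvPolynomial σ R), p.IsHomogeneous (L.length + k) →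
    ((L.map (pdE R)).prod p).IsHomogeneous k := by
  intro L
  induction L with
  | nil => intro k p hp; simpa using hp
  | cons s L ih =>
    intro k p hp
    rw [List.map_cons, List.prod_cons, Module.End.mul_apply, pdE_apply]
    apply pderiv_hom
    apply ih
    rw [List.length_cons] at hp
    convert hp using 1
    omega

theorem Om_hom {R : Type*} [CommRing R] {k : ℕ} {p : MvPolynomial (Fin r × Fin r) R}
    (hp : p.IsHomogeneous (r + k)) : (Om R r p).IsHomogeneous k := by
  unfold Om
  rw [LinearMap.sum_apply]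
  refine IsHomogeneous.sum _ _ _ fun σ _ => ?_
  rw [LinearMap.smul_apply, zsmul_eq_mul]
  have h1 := pdE_list_hom (List.ofFn fun i : Fin r => (i, σ i)) k p (by simpa using hp)
  rw [List.map_ofFn] at h1
  have h2 : (((Equiv.Perm.sign σ : ℤˣ) : ℤ) : MvPolynomial (Fin r × Fin r) R) =
      C (((Equiv.Perm.sign σ : ℤˣ) : ℤ) : R) := by simp
  rw [h2]
  have h3 := (isHomogeneous_C (Fin r × Fin r) ((((Equiv.Perm.sign σ : ℤˣ) : ℤ) : R))).mul h1
  rw [zero_add] at h3
  exact h3

theorem Om_pow_hom {R : Type*} [CommRing R] {k l : ℕ} {p : MvPolynomial (Fin r × Fin r) R}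
    (hp : p.IsHomogeneous (r * k + l)) : ((Om R r ^ k) p).IsHomogeneous l := by
  induction k generalizing p with
  | zero => simpa using hp
  | succ k ih =>
    rw [pow_succ, Module.End.mul_apply]
    apply ih
    apply Om_hom
    convert hp using 1
    ring

theorem detX_hom (R : Type*) [CommRing R] (r : ℕ) : (detX R r).IsHomogeneous r := by
  rw [detX_eq]
  refine IsHomogeneous.sum _ _ _ fun σ _ => ?_
  rw [zsmul_eq_mul]
  have h2 : (((Equiv.Perm.sign σ : ℤˣ) : ℤ) : MvPolynomial (Fin r × Fin r) R) =
      C (((Equiv.Perm.sign σ : ℤˣ) : ℤ) : R) := by simp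
  rw [h2, List.prod_ofFn]
  have h3 : (∏ i : Fin r, (X (i, σ i) : MvPolynomial (Fin r × Fin r) R)).IsHomogeneous r := by
    have := IsHomogeneous.prod (Finset.univ : Finset (Fin r))
      (fun i => (X (i, σ i) : MvPolynomial (Fin r × Fin r) R)) (fun _ => 1)
      (fun i _ => isHomogeneous_X _ _)
    simpa using this
  have h4 := (isHomogeneous_C (Fin r × Fin r) ((((Equiv.Perm.sign σ : ℤˣ) : ℤ) : R))).mul h3
  rw [zero_add] at h4
  exact h4

/-- factorial weight -/
noncomputable def fac {σ : Type*} (α : σ →₀ ℕ) : ℚ := α.prod fun _ k => (k.factorial : ℚ)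

/-- the apolar pairing over `ℚ` -/
noncomputable def pair {σ : Type*} (p q : MvPolynomial σ ℚ) : ℚ :=
  ∑ α ∈ p.support, coeff α p * (coeff α q * fac α)

theorem pair_of_subset {σ : Type*} (p q : MvPolynomial σ ℚ) (S : Finset (σ →₀ ℕ))
    (h : p.support ⊆ S) : pair p q = ∑ α ∈ S, coeff α p * (coeff α q * fac α) := by
  unfold pair
  apply Finset.sum_subset h
  intro α _ hα
  rw [notMem_support_iff.1 hα, zero_mul]

theorem pair_add {σ : Type*} (p p' q : MvPolynomial σ ℚ) :
    pair (p + p') q = pair p q + pair p' q := by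
  classical
  rw [pair_of_subset (p + p') q (p.support ∪ p'.support) support_add,
    pair_of_subset p q (p.support ∪ p'.support) Finset.subset_union_left,
    pair_of_subset p' q (p.support ∪ p'.support) Finset.subset_union_right,
    ← Finset.sum_add_distrib]
  refine Finset.sum_congr rfl fun α _ => ?_
  rw [coeff_add]; ring

theorem pair_monomial {σ : Type*} (α : σ →₀ ℕ) (c : ℚ) (q : MvPolynomial σ ℚ) :
    pair (monomial α c) q = c * (coeff α q * fac α) := by
  classical
  rw [pair_of_subset (monomial α c) q {α} support_monomial_subset]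
  simp

theorem pair_X_mul {σ : Type*} [DecidableEq σ] (s : σ) (p q : MvPolynomial σ ℚ) :
    pair (X s * p) q = pair p (pderiv s q) := by
  induction p using MvPolynomial.induction_on' with
  | monomial α c =>
    rw [X, monomial_mul, one_mul, pair_monomial, pair_monomial, coeff_pderiv,
      add_comm (Finsupp.single s 1) α]
    have h : fac (α + Finsupp.single s 1) = (α s + 1) * fac α := by
      unfold fac
      have e1 : (α + Finsupp.single s 1).prod (fun _ k => (k.factorial : ℚ)) =
          ∏ x ∈ insert s α.support, (((α + Finsupp.single s 1 : σ →₀ ℕ) x).factorial : ℚ) := by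
        apply Finsupp.prod_of_support_subset
        · intro x hx
          rw [Finset.mem_insert]
          by_cases hxs : x = s
          · exact Or.inl hxs
          · right
            simp [Ne.symm hxs] at hx ⊢
            exact hx
        · intro i _; simp
      have e2 : α.prod (fun _ k => (k.factorial : ℚ)) =
          ∏ x ∈ insert s α.support, ((α x).factorial : ℚ) := by
        apply Finsupp.prod_of_support_subset
        · exact Finset.subset_insert _ _
        · intro i _; simp
      rw [e1, e2, ← Finset.mul_prod_erase _ _ (Finset.mem_insert_self s _),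
        ← Finset.mul_prod_erase (insert s α.support) (fun x => ((α x).factorial : ℚ))
          (Finset.mem_insert_self s _)]
      have e3 : ∏ x ∈ (insert s α.support).erase s,
          (((α + Finsupp.single s 1 : σ →₀ ℕ) x).factorial : ℚ) =
          ∏ x ∈ (insert s α.support).erase s, ((α x).factorial : ℚ) := by
        refine Finset.prod_congr rfl fun x hx => ?_
        have : x ≠ s := (Finset.mem_erase.1 hx).1
        simp [Ne.symm this]
      rw [e3]
      simp only [Finsupp.add_apply, Finsupp.single_eq_same, Nat.factorial_succ]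
      push_cast
      ring
    rw [h]
    ring
  | add p p' hp hp' => rw [mul_add, pair_add, pair_add, hp, hp']

theorem pair_list {σ : Type*} [DecidableEq σ] : ∀ (L : List σ) (p q : MvPolynomial σ ℚ),
    pair ((L.map X).prod * p) q = pair p ((L.map (pdE ℚ)).prod q) := by
  intro L
  induction L with
  | nil => intro p q; simp
  | cons s L ih =>
    intro p q
    rw [List.map_cons, List.prod_cons, List.map_cons, List.prod_cons, Module.End.mul_apply,
      pdE_apply, ← pair_X_mul, ← ih]
    congr 1
    ring

theorem pair_sum {σ ι : Type*} (s : Finset ι) (p : ι → MvPolynomial σ ℚ)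
    (q : MvPolynomial σ ℚ) : pair (∑ i ∈ s, p i) q = ∑ i ∈ s, pair (p i) q := by
  classical
  induction s using Finset.induction_on with
  | empty => simp [pair]
  | insert a s ha ih => rw [Finset.sum_insert ha, Finset.sum_insert ha, pair_add, ih]

theorem pair_neg {σ : Type*} (p q : MvPolynomial σ ℚ) : pair (-p) q = - pair p q := by
  have h : pair (-p + p) q = pair (-p) q + pair p q := pair_add _ _ _
  rw [neg_add_cancel] at h
  have h0 : pair (0 : MvPolynomial σ ℚ) q = 0 := by simp [pair]
  linarith

theorem pair_add_right {σ : Type*} (p q q' : MvPolynomial σ ℚ) :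
    pair p (q + q') = pair p q + pair p q' := by
  unfold pair
  rw [← Finset.sum_add_distrib]
  refine Finset.sum_congr rfl fun α _ => ?_
  rw [coeff_add]; ring

theorem pair_sum_right {σ ι : Type*} (s : Finset ι) (p : MvPolynomial σ ℚ)
    (q : ι → MvPolynomial σ ℚ) : pair p (∑ i ∈ s, q i) = ∑ i ∈ s, pair p (q i) := by
  classical
  induction s using Finset.induction_on with
  | empty => simp [pair]
  | insert a s ha ih => rw [Finset.sum_insert ha, Finset.sum_insert ha, pair_add_right, ih]

theorem pair_neg_right {σ : Type*} (p q : MvPolynomial σ ℚ) : pair p (-q) = - pair p q := by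
  have h : pair p (-q + q) = pair p (-q) + pair p q := pair_add_right _ _ _
  rw [neg_add_cancel] at h
  have h0 : pair p (0 : MvPolynomial σ ℚ) = 0 := by simp [pair]
  linarith

theorem pair_detX (p q : MvPolynomial (Fin r × Fin r) ℚ) :
    pair (detX ℚ r * p) q = pair p (Om ℚ r q) := by
  rw [detX_eq, Finset.sum_mul, pair_sum, Om, LinearMap.sum_apply, pair_sum_right]
  refine Finset.sum_congr rfl fun σ _ => ?_
  have h1 := pair_list (List.ofFn fun i : Fin r => (i, σ i)) p q
  rw [List.map_ofFn, List.map_ofFn] at h1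
  rw [LinearMap.smul_apply]
  rcases Int.units_eq_one_or (Equiv.Perm.sign σ) with h | h
  · rw [h, Units.val_one, one_smul, one_smul]
    exact h1
  · rw [h, Units.val_neg, Units.val_one, neg_smul, one_smul, neg_smul, one_smul, neg_mul,
      pair_neg, pair_neg_right]
    congr 1

theorem pair_detX_pow (k : ℕ) (p q : MvPolynomial (Fin r × Fin r) ℚ) :
    pair (detX ℚ r ^ k * p) q = pair p ((Om ℚ r ^ k) q) := by
  induction k generalizing p q with
  | zero => simp
  | succ k ih =>
    rw [pow_succ, pow_succ', mul_assoc, ih, pair_detX, ← Module.End.mul_apply]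

theorem pair_self_pos {σ : Type*} {p : MvPolynomial σ ℚ} (hp : p ≠ 0) : 0 < pair p p := by
  unfold pair
  apply Finset.sum_pos
  · intro α hα
    have h1 : coeff α p ≠ 0 := by
      exact mem_support_iff.1 hα
    have h2 : (0 : ℚ) < fac α := by
      unfold fac
      apply Finset.prod_pos
      intro i _
      have := Nat.factorial_pos (α i)
      simp only
      exact_mod_cast this
    have h4 : 0 < coeff α p * coeff α p := mul_self_pos.2 h1
    nlinarith [mul_pos h4 h2]
  · rw [Finset.nonempty_iff_ne_empty, ne_eq, support_eq_empty]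
    exact hp

theorem detX_ne_zero (R : Type*) [CommRing R] [Nontrivial R] (r : ℕ) : detX R r ≠ 0 := by
  intro h
  have h1 := congrArg (eval fun s : Fin r × Fin r => if s.1 = s.2 then (1 : R) else 0) h
  unfold detX at h1
  rw [map_zero, RingHom.map_det] at h1
  have h2 : (RingHom.mapMatrix (eval fun s : Fin r × Fin r => if s.1 = s.2 then (1 : R) else 0))
      (Matrix.of fun j i : Fin r => (X (i, j) : MvPolynomial (Fin r × Fin r) R)) = 1 := by
    ext i j
    simp [Matrix.one_apply, eq_comm]
  rw [h2, Matrix.det_one] at h1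
  exact one_ne_zero h1

theorem Om_pow_detX_rat (k : ℕ) : ∃ c : ℚ, c ≠ 0 ∧ (Om ℚ r ^ k) (detX ℚ r ^ k) = C c := by
  have h1 : ((Om ℚ r ^ k) (detX ℚ r ^ k)).IsHomogeneous 0 := by
    apply Om_pow_hom
    have := (detX_hom ℚ r).pow k
    simpa using this
  refine ⟨coeff 0 ((Om ℚ r ^ k) (detX ℚ r ^ k)), ?_, ?_⟩
  · have h2 := pair_detX_pow k 1 (detX ℚ r ^ k)
    rw [mul_one] at h2
    have h3 := pair_self_pos (pow_ne_zero k (detX_ne_zero ℚ r))
    rw [h2] at h3
    have h4 : pair 1 ((Om ℚ r ^ k) (detX ℚ r ^ k)) =
        coeff 0 ((Om ℚ r ^ k) (detX ℚ r ^ k)) := by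
      have : (1 : MvPolynomial (Fin r × Fin r) ℚ) = monomial 0 1 := rfl
      rw [this, pair_monomial]
      simp [fac]
    rw [h4] at h3
    exact h3.ne'
  · exact (totalDegree_eq_zero_iff_eq_C).1 (by
      by_cases h0 : (Om ℚ r ^ k) (detX ℚ r ^ k) = 0
      · rw [h0]; simp
      · exact h1.totalDegree h0)

theorem Om_pow_detX (R : Type*) [CommRing R] [Algebra ℚ R] (k : ℕ) :
    ∃ c : ℚ, c ≠ 0 ∧ (Om R r ^ k) (detX R r ^ k) = C (algebraMap ℚ R c) := by
  obtain ⟨c, hc, h⟩ := Om_pow_detX_rat (r := r) k
  refine ⟨c, hc, ?_⟩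
  have h1 := congrArg (map (algebraMap ℚ R)) h
  rw [← Om_pow_map, map_pow, detX_map, map_C] at h1
  exact h1

end Omega

end Pool.Agent.Helper49.SLnm
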