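import Mathlib
import Pool.Agent.Helper49.SLnm.Omega

namespace Pool.Agent.Helper49.SLnm

open Matrix MvPolynomial

section Fft

variable {r m : ℕ}

/-- polynomial functions on `r × m` matrices -/
abbrev Rm (r m : ℕ) := MvPolynomial (Fin r × Fin m) ℂ

/-- substitution of `g y` -/
noncomputable def hat (r m : ℕ) : Rm r m →ₐ[ℂ] MvPolynomial (Fin r × Fin r) (Rm r m) :=
  aeval (fun s : Fin r × Fin m => ∑ j, X (s.1, j) * C (X (j, s.2)))

theorem hat_X (s : Fin r × Fin m) : hat r m (X s) = ∑ j, X (s.1, j) * C (X (j, s.2)) := by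
  simp [hat]

theorem hat_C (a : ℂ) : hat r m (C a) = C (C a) := by
  unfold hat
  rw [aeval_C]
  rfl

theorem hat_pderiv (i j : Fin r) (p : Rm r m) : pderiv (i, j) (hat r m p) =
    ∑ l, (X (j, l) : Rm r m) • hat r m (pderiv (i, l) p) := by
  induction p using MvPolynomial.induction_on with
  | C a => simp [hat_C]
  | add p q hp hq => simp [hp, hq, smul_add, Finset.sum_add_distrib]
  | mul_X p s hp =>
    obtain ⟨i', l'⟩ := s
    rw [map_mul, pderiv_mul, hp]
    have h1 : pderiv (i, j) (hat r m (X (i', l'))) =
        if i = i' then C (X (j, l')) else 0 := by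
      rw [hat_X, map_sum]
      have : ∀ j', pderiv (i, j) (X (i', j') * C (X (j', l')) :
          MvPolynomial (Fin r × Fin r) (Rm r m)) =
          if (i, j) = (i', j') then C (X (j', l')) else 0 := by
        intro j'
        rw [pderiv_mul, pderiv_C, mul_zero, add_zero, pderiv_X, Pi.single_apply]
        by_cases h : (i, j) = (i', j')
        · simp [h]
        · have h' : ¬ (i', j') = (i, j) := fun h' => h h'.symm
          rw [if_neg h, if_neg h', zero_mul]
      rw [Finset.sum_congr rfl fun j' _ => this j']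
      by_cases h : i = i'
      · subst h
        simp
      · simp [h]
    rw [h1]
    have h2 : ∀ l, hat r m (pderiv (i, l) (p * X (i', l'))) =
        hat r m (pderiv (i, l) p) * hat r m (X (i', l')) +
          if (i, l) = (i', l') then hat r m p else 0 := by
      intro l
      rw [pderiv_mul, map_add, map_mul, map_mul, pderiv_X, Pi.single_apply]
      congr 1
      by_cases h : (i, l) = (i', l')
      · simp [h]
      · have h' : ¬ (i', l') = (i, l) := fun h' => h h'.symm
        rw [if_neg h, if_neg h', map_zero, mul_zero]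
    simp only [h2, smul_add, Finset.sum_add_distrib, Finset.sum_mul, smul_mul_assoc]
    congr 1
    by_cases h : i = i'
    · subst h
      simp only [if_true, Prod.mk.injEq, true_and, smul_ite, smul_zero, Finset.sum_ite_eq',
        Finset.mem_univ]
      rw [MvPolynomial.smul_eq_C_mul, mul_comm]
    · simp [h]

theorem hat_pd_list : ∀ (N : ℕ) (ρ a : Fin N → Fin r) (p : Rm r m),
    (List.ofFn fun k => pdE (Rm r m) (ρ k, a k)).prod (hat r m p) =
      ∑ l : Fin N → Fin m, (∏ k, (X (a k, l k) : Rm r m)) •
        hat r m ((List.ofFn fun k => pdE ℂ (ρ k, l k)).prod p) := by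
  intro N
  induction N with
  | zero => intro ρ a p; simp
  | succ N ih =>
    intro ρ a p
    rw [List.ofFn_succ, List.prod_cons, Module.End.mul_apply,
      ih (fun k => ρ k.succ) (fun k => a k.succ) p, map_sum]
    rw [← (Fin.consEquiv fun _ : Fin (N + 1) => Fin m).sum_comp, Fintype.sum_prod_type,
      Finset.sum_comm]
    refine Finset.sum_congr rfl fun l _ => ?_
    rw [LinearMap.map_smul, pdE_apply, hat_pderiv, Finset.smul_sum]
    refine Finset.sum_congr rfl fun l0 _ => ?_
    rw [smul_smul]
    simp only [Fin.consEquiv, Equiv.coe_fn_mk]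
    rw [Fin.prod_univ_succ, List.ofFn_succ, List.prod_cons, Module.End.mul_apply, pdE_apply]
    simp only [Fin.cons_zero, Fin.cons_succ]
    rw [mul_comm]

/-- the `r × r` minors of the generic `r × m` matrix -/
noncomputable def minor (l : Fin r → Fin m) : Rm r m :=
  Matrix.det (Matrix.of fun j i : Fin r => (X (j, l i) : Rm r m))

theorem Om_hat (p : Rm r m) : Om (Rm r m) r (hat r m p) =
    ∑ l : Fin r → Fin m, minor l • hat r m ((List.ofFn fun k => pdE ℂ (k, l k)).prod p) := by
  unfold Om
  rw [LinearMap.sum_apply]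
  have h1 : ∀ σ : Equiv.Perm (Fin r), (((Equiv.Perm.sign σ : ℤˣ) : ℤ) •
      (List.ofFn fun i => pdE (Rm r m) (i, σ i)).prod) (hat r m p) =
      ∑ l : Fin r → Fin m, (((Equiv.Perm.sign σ : ℤˣ) : ℤ) • ∏ k, (X (σ k, l k) : Rm r m)) •
        hat r m ((List.ofFn fun k => pdE ℂ (k, l k)).prod p) := by
    intro σ
    rw [LinearMap.smul_apply, hat_pd_list r (fun k => k) (fun k => σ k) p, Finset.smul_sum]
    refine Finset.sum_congr rfl fun l _ => ?_
    rw [smul_assoc]
  rw [Finset.sum_congr rfl fun σ _ => h1 σ, Finset.sum_comm]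
  refine Finset.sum_congr rfl fun l _ => ?_
  rw [← Finset.sum_smul]
  congr 1
  unfold minor
  rw [Matrix.det_apply]
  rfl

/-- the algebra generated by the maximal minors -/
noncomputable def MM (r m : ℕ) : Subalgebra ℂ (Rm r m) :=
  Algebra.adjoin ℂ (Set.range fun l : Fin r → Fin m => minor l)

theorem Om_pow_hat (k : ℕ) : ∀ p : Rm r m, p.IsHomogeneous (r * k) →
    ∃ a ∈ MM r m, (Om (Rm r m) r ^ k) (hat r m p) = C a := by
  induction k with
  | zero =>
    intro p hp
    have h1 : p = C (coeff 0 p) := (totalDegree_eq_zero_iff_eq_C).1 (by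
      by_cases h0 : p = 0
      · rw [h0]; simp
      · exact hp.totalDegree h0)
    refine ⟨C (coeff 0 p), ?_, ?_⟩
    · exact (MM r m).algebraMap_mem _
    · rw [pow_zero, Module.End.one_apply]
      conv_lhs => rw [h1]
      rw [hat_C]
  | succ k ih =>
    intro p hp
    rw [pow_succ, Module.End.mul_apply, Om_hat, map_sum]
    have h1 : ∀ l : Fin r → Fin m, ∃ a ∈ MM r m, (Om (Rm r m) r ^ k)
        (hat r m ((List.ofFn fun k => pdE ℂ (k, l k)).prod p)) = C a := by
      intro l
      apply ih
      have := pdE_list_hom (List.ofFn fun i : Fin r => (i, l i)) (r * k) p (by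
        rw [List.length_ofFn]
        have h0 : r + r * k = r * (k + 1) := by ring
        rw [h0]
        exact hp)
      rw [List.map_ofFn] at this
      exact this
    choose a ha ha' using h1
    refine ⟨∑ l, minor l * a l, ?_, ?_⟩
    · exact Subalgebra.sum_mem _ fun l _ => Subalgebra.mul_mem _
        (Algebra.subset_adjoin ⟨l, rfl⟩) (ha l)
    · rw [map_sum]
      refine Finset.sum_congr rfl fun l _ => ?_
      rw [LinearMap.map_smul, ha', MvPolynomial.smul_eq_C_mul, ← C_mul]

/-- two-step funext -/
theorem funext2 {σ τ : Type*} {s1 s2 : MvPolynomial σ (MvPolynomial τ ℂ)}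
    (h : ∀ (x : σ → ℂ) (y : τ → ℂ), eval x (map (eval y) s1) = eval x (map (eval y) s2)) :
    s1 = s2 := by
  ext α
  congr 1
  apply MvPolynomial.funext
  intro y
  have h1 : map (eval y) s1 = map (eval y) s2 := MvPolynomial.funext fun x => h x y
  have h2 := congrArg (coeff α) h1
  rwa [coeff_map, coeff_map] at h2

theorem eval_hat (x : Fin r × Fin r → ℂ) (y : Fin r × Fin m → ℂ) (p : Rm r m) :
    eval x (map (eval y) (hat r m p)) = eval (fun s => ∑ j, x (s.1, j) * y (j, s.2)) p := by
  induction p using MvPolynomial.induction_on with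
  | C a => simp [hat_C]
  | add p q hp hq => simp [hp, hq]
  | mul_X p s hp => rw [map_mul, map_mul, map_mul, hp, hat_X, map_mul]; simp

theorem eval_detX (x : Fin r × Fin r → ℂ) (y : Fin r × Fin m → ℂ) :
    eval x (map (eval y) (detX (Rm r m) r)) = Matrix.det (Matrix.of fun i j => x (i, j)) := by
  unfold detX
  rw [RingHom.map_det, RingHom.map_det, ← Matrix.det_transpose]
  congr 1
  ext i j
  simp

/-- value of a polynomial at a matrix -/
noncomputable def evM {a b : Type*} (v : Matrix a b ℂ) (p : MvPolynomial (a × b) ℂ) : ℂ :=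
  eval (fun s => v s.1 s.2) p

theorem eval_smul_hom' {σ : Type*} {d : ℕ} {q : MvPolynomial σ ℂ} (h : q.IsHomogeneous d)
    (x : σ → ℂ) (t : ℂ) : eval (fun s => t * x s) q = t ^ d * eval x q := by
  rw [eval_eq, eval_eq, Finset.mul_sum]
  refine Finset.sum_congr rfl fun α hα => ?_
  have h1 : α.sum (fun _ k => k) = d := by
    have := h (mem_support_iff.1 hα)
    rw [Finsupp.weight_apply] at this
    simpa using this
  simp only [mul_pow]
  rw [Finset.prod_mul_distrib, Finset.prod_pow_eq_pow_sum]
  have h2 : ∑ i ∈ α.support, α i = d := h1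
  rw [h2]
  ring

/-- scaling formula -/
theorem eval_smul_eq {σ : Type*} (p : MvPolynomial σ ℂ) (x : σ → ℂ) (t : ℂ) :
    eval (fun s => t * x s) p = ∑ d ∈ Finset.range (p.totalDegree + 1),
      t ^ d * eval x (homogeneousComponent d p) := by
  conv_lhs => rw [← sum_homogeneousComponent p]
  rw [map_sum]
  refine Finset.sum_congr rfl fun d _ => ?_
  exact eval_smul_hom' (homogeneousComponent_isHomogeneous d p) x t

/-- comparison of coefficients -/
theorem coeffs_eq {N : ℕ} {a b : ℕ → ℂ}
    (h : ∀ t : ℂ, ∑ d ∈ Finset.range N, t ^ d * a d = ∑ d ∈ Finset.range N, t ^ d * b d) :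
    ∀ d < N, a d = b d := by
  have h1 : (∑ d ∈ Finset.range N, Polynomial.C (a d) * Polynomial.X ^ d) =
      ∑ d ∈ Finset.range N, Polynomial.C (b d) * Polynomial.X ^ d := by
    apply Polynomial.funext
    intro t
    simp only [Polynomial.eval_finsetSum, Polynomial.eval_mul, Polynomial.eval_C,
      Polynomial.eval_pow, Polynomial.eval_X]
    rw [Finset.sum_congr rfl fun d _ => mul_comm (a d) (t ^ d), h t]
    exact Finset.sum_congr rfl fun d _ => mul_comm _ _
  intro d hd
  have h2 := congrArg (fun p => Polynomial.coeff p d) h1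
  simp only [Polynomial.finsetSum_coeff, Polynomial.coeff_C_mul, Polynomial.coeff_X_pow] at h2
  simpa [hd] using h2

/-- homogeneous semi-invariants -/
theorem fft_hom (hr : 0 < r) {d : ℕ} {p : Rm r m} (hp : p.IsHomogeneous d)
    (hinv : ∀ g : Matrix (Fin r) (Fin r) ℂ, g.det = 1 → ∀ v : Matrix (Fin r) (Fin m) ℂ,
      evM (g * v) p = evM v p) : p ∈ MM r m := by
  by_cases hd : r ∣ d
  · obtain ⟨k, rfl⟩ := hd
    -- the key identity
    have key : hat r m p = C p * detX (Rm r m) r ^ k := by
      have h1 : detX (Rm r m) r * (hat r m p - C p * detX (Rm r m) r ^ k) = 0 := by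
        apply funext2
        intro x y
        rw [map_mul, map_mul, map_sub, map_sub, map_mul, map_mul, map_pow, map_pow, eval_hat,
          eval_detX, map_C, eval_C, map_zero, map_zero]
        set g : Matrix (Fin r) (Fin r) ℂ := Matrix.of fun i j => x (i, j) with hg
        set v : Matrix (Fin r) (Fin m) ℂ := Matrix.of fun i j => y (i, j) with hv
        have e1 : eval (fun s : Fin r × Fin m => ∑ j, x (s.1, j) * y (j, s.2)) p =
            evM (g * v) p := rfl
        have e2 : eval y p = evM v p := rfl
        rw [e1, e2]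
        by_cases hdet : g.det = 0
        · rw [hdet, zero_mul]
        · obtain ⟨c, hc⟩ := IsAlgClosed.exists_pow_nat_eq g.det hr
          have hc0 : c ≠ 0 := by
            intro h0
            rw [h0, zero_pow hr.ne'] at hc
            exact hdet hc.symm
          have h2 : (c⁻¹ • g).det = 1 := by
            rw [Matrix.det_smul, Fintype.card_fin, inv_pow, hc, inv_mul_cancel₀ hdet]
          have h3 := hinv (c⁻¹ • g) h2 v
          have h4 : evM (g * v) p = c ^ (r * k) * evM ((c⁻¹ • g) * v) p := by
            unfold evM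
            rw [← eval_smul_hom' hp]
            congr 2
            funext s
            rw [Matrix.smul_mul, Matrix.smul_apply, smul_eq_mul, ← mul_assoc,
              mul_inv_cancel₀ hc0, one_mul]
          rw [h4, h3, pow_mul, hc]
          ring
      have h2 := mul_eq_zero.1 h1
      rcases h2 with h2 | h2
      · exact absurd h2 (detX_ne_zero _ _)
      · exact sub_eq_zero.1 h2
    obtain ⟨a, ha, h1⟩ := Om_pow_hat k p hp
    obtain ⟨c, hc, h2⟩ := Om_pow_detX (r := r) (Rm r m) k
    rw [key, ← MvPolynomial.smul_eq_C_mul, LinearMap.map_smul, h2, MvPolynomial.smul_eq_C_mul,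
      ← C_mul] at h1
    have h3 : p * (algebraMap ℚ (Rm r m)) c = a := C_injective _ _ h1
    have h4 : p = (algebraMap ℂ (Rm r m) ((c : ℂ)⁻¹)) * a := by
      rw [← h3]
      have : (algebraMap ℚ (Rm r m)) c = algebraMap ℂ (Rm r m) (c : ℂ) := by
        rw [IsScalarTower.algebraMap_apply ℚ ℂ (Rm r m)]
        rfl
      rw [this, mul_comm p, ← mul_assoc, ← map_mul, inv_mul_cancel₀ (by exact_mod_cast hc),
        map_one, one_mul]
    rw [h4]
    exact Subalgebra.mul_mem _ ((MM r m).algebraMap_mem _) ha
  · have h0 : p = 0 := by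
      apply MvPolynomial.funext
      intro y
      rw [map_zero]
      set v : Matrix (Fin r) (Fin m) ℂ := Matrix.of fun i j => y (i, j) with hv
      have hζ := Complex.isPrimitiveRoot_exp r hr.ne'
      set ζ := Complex.exp (2 * Real.pi * Complex.I / r) with hζdef
      have h1 : (ζ • (1 : Matrix (Fin r) (Fin r) ℂ)).det = 1 := by
        rw [Matrix.det_smul, Matrix.det_one, mul_one, Fintype.card_fin]
        exact hζ.pow_eq_one
      have h2 := hinv _ h1 v
      have h3 : evM ((ζ • (1 : Matrix (Fin r) (Fin r) ℂ)) * v) p = ζ ^ d * evM v p := by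
        unfold evM
        rw [← eval_smul_hom' hp]
        congr 2
        funext s
        rw [Matrix.smul_mul, Matrix.one_mul, Matrix.smul_apply, smul_eq_mul]
      rw [h3] at h2
      have h4 : ζ ^ d ≠ 1 := fun h => hd ((hζ.pow_eq_one_iff_dvd d).1 h)
      have h5 : (ζ ^ d - 1) * evM v p = 0 := by rw [sub_mul, h2]; ring
      rcases mul_eq_zero.1 h5 with h6 | h6
      · exact absurd (sub_eq_zero.1 h6) h4
      · exact h6
    rw [h0]
    exact Subalgebra.zero_mem _

/-- First fundamental theorem for `SL_r` and `m` vectors. -/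
theorem fft (hr : 0 < r) {p : Rm r m}
    (hinv : ∀ g : Matrix (Fin r) (Fin r) ℂ, g.det = 1 → ∀ v : Matrix (Fin r) (Fin m) ℂ,
      evM (g * v) p = evM v p) : p ∈ MM r m := by
  rw [← sum_homogeneousComponent p]
  refine Subalgebra.sum_mem _ fun d hd => ?_
  apply fft_hom hr (homogeneousComponent_isHomogeneous d p)
  intro g hg v
  apply coeffs_eq (N := p.totalDegree + 1) (a := fun d => evM (g * v) (homogeneousComponent d p))
    (b := fun d => evM v (homogeneousComponent d p)) _ d (Finset.mem_range.1 hd)
  intro t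
  have h1 := hinv g hg (t • v)
  unfold evM at h1 ⊢
  rw [← eval_smul_eq, ← eval_smul_eq]
  rw [Matrix.mul_smul] at h1
  exact h1

end Fft

end Pool.Agent.Helper49.SLnm
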