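import Mathlib
import Pool.Agent.Helper49.SLnm.Fft

/-!
Krylov determinants `det [v, A v, ..., A^{q-1} v, A^q v_J]`.
-/

namespace Pool.Agent.Helper49.SLnm

open Matrix MvPolynomial

section Kry

variable {r m : ℕ}

/-- column index of a Krylov matrix -/
abbrev Kx (q r m : ℕ) := (Fin q × Fin m) ⊕ Fin r

variable {α β : Type} [Fintype α] [DecidableEq α] [Fintype β] [DecidableEq β]
variable {R : Type*} [CommRing R]

/-- The Krylov matrix with columns `A^s v_l`, `s < q`, and `A^q v_{J i}`. -/
def Kry (q : ℕ) (J : Fin r → Fin m) (A : Matrix α α R) (v : Matrix α (Fin m) R) :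
    Matrix α (Kx q r m) R :=
  Matrix.of fun a c => Sum.elim (fun sl : Fin q × Fin m => (A ^ (sl.1 : ℕ) * v) a sl.2)
    (fun i : Fin r => (A ^ q * v) a (J i)) c

/-- The Krylov determinant. -/
def PJ (q : ℕ) (e : Kx q r m ≃ α) (J : Fin r → Fin m) (A : Matrix α α R)
    (v : Matrix α (Fin m) R) : R :=
  ((Kry q J A v).submatrix e id).det

theorem Kry_map {S : Type*} [CommRing S] (f : R →+* S) (q : ℕ) (J : Fin r → Fin m)
    (A : Matrix α α R) (v : Matrix α (Fin m) R) :
    (Kry q J A v).map f = Kry q J (A.map f) (v.map f) := by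
  have h : ∀ s : ℕ, (A ^ s * v).map f = (A.map f) ^ s * v.map f := by
    intro s
    rw [Matrix.map_mul]
    congr 1
    induction s with
    | zero => simp
    | succ s ih => rw [pow_succ, pow_succ, Matrix.map_mul, ih]
  ext a c
  rcases c with ⟨s, l⟩ | i
  · exact congrFun (congrFun (h s) a) l
  · exact congrFun (congrFun (h q) a) (J i)

theorem PJ_map {S : Type*} [CommRing S] (f : R →+* S) (q : ℕ) (e : Kx q r m ≃ α)
    (J : Fin r → Fin m) (A : Matrix α α R) (v : Matrix α (Fin m) R) :
    f (PJ q e J A v) = PJ q e J (A.map f) (v.map f) := by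
  unfold PJ
  rw [RingHom.map_det, ← Kry_map]
  rfl

theorem PJ_reindex (q : ℕ) (e : Kx q r m ≃ α) (f : β ≃ α) (J : Fin r → Fin m)
    (A : Matrix β β R) (v : Matrix β (Fin m) R) :
    PJ q e J (A.submatrix f.symm f.symm) (v.submatrix f.symm id) =
      PJ q (e.trans f.symm) J A v := by
  have h : ∀ s : ℕ, (A.submatrix f.symm f.symm) ^ s * v.submatrix f.symm id =
      (A ^ s * v).submatrix f.symm id := by
    intro s
    induction s with
    | zero => simp
    | succ s ih =>
      rw [pow_succ', Matrix.mul_assoc, ih, Matrix.submatrix_mul_equiv, pow_succ',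
        Matrix.mul_assoc]
  unfold PJ
  congr 1
  ext a c
  rcases c with ⟨s, l⟩ | i
  · exact congrFun (congrFun (h s) (e a)) l
  · exact congrFun (congrFun (h q) (e a)) (J i)

/-- `P_J` transforms by the determinant under conjugation. -/
theorem PJ_conj (q : ℕ) (e : Kx q r m ≃ α) (J : Fin r → Fin m) (g : Matrix α α R)
    (hg : IsUnit g.det) (A : Matrix α α R) (v : Matrix α (Fin m) R) :
    PJ q e J (g * A * g⁻¹) (g * v) = g.det * PJ q e J A v := by
  have h : ∀ s : ℕ, (g * A * g⁻¹) ^ s * (g * v) = g * (A ^ s * v) := by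
    intro s
    induction s with
    | zero => simp
    | succ s ih =>
      rw [pow_succ', Matrix.mul_assoc, ih, pow_succ', Matrix.mul_assoc, Matrix.mul_assoc,
        ← Matrix.mul_assoc g⁻¹ g, Matrix.nonsing_inv_mul _ hg, Matrix.one_mul, Matrix.mul_assoc]
  have h2 : Kry q J (g * A * g⁻¹) (g * v) = g * Kry q J A v := by
    ext a c
    rcases c with ⟨s, l⟩ | i
    · have := congrFun (congrFun (h s) a) l
      simp only [Kry, Matrix.of_apply, Sum.elim_inl, Matrix.mul_apply] at this ⊢
      exact this
    · have := congrFun (congrFun (h q) a) (J i)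
      simp only [Kry, Matrix.of_apply, Sum.elim_inr, Matrix.mul_apply] at this ⊢
      exact this
  unfold PJ
  rw [h2]
  have h3 : (g * Kry q J A v).submatrix e id =
      g.submatrix e e * (Kry q J A v).submatrix e id := by
    rw [Matrix.submatrix_mul_equiv]
  rw [h3, Matrix.det_mul, Matrix.det_submatrix_equiv_self]

/-- coefficients of the column operations -/
def cc (A : Matrix α α R) (v : Matrix α (Fin m) R) (w : Matrix (Fin m) α R) (s t : ℕ) :
    Matrix (Fin m) (Fin m) R :=
  if t = s then 1 else if t < s then w * (A + v * w) ^ (s - 1 - t) * v else 0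

theorem pow_add_expand (A : Matrix α α R) (v : Matrix α (Fin m) R) (w : Matrix (Fin m) α R)
    (s : ℕ) : (A + v * w) ^ s * v = A ^ s * v +
      ∑ t ∈ Finset.range s, A ^ t * v * (w * (A + v * w) ^ (s - 1 - t) * v) := by
  induction s with
  | zero => simp
  | succ s ih =>
    rw [pow_succ', Matrix.mul_assoc]
    have h1 : (A + v * w) * ((A + v * w) ^ s * v) =
        A * ((A + v * w) ^ s * v) + v * (w * (A + v * w) ^ s * v) := by
      rw [Matrix.add_mul, Matrix.mul_assoc v w, Matrix.mul_assoc w]
    rw [h1]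
    conv_lhs => rw [ih]
    rw [Matrix.mul_add, Matrix.mul_sum, Finset.sum_range_succ', add_assoc]
    congr 1
    · rw [pow_succ', Matrix.mul_assoc]
    · congr 1
      · refine Finset.sum_congr rfl fun t ht => ?_
        have e1 : s + 1 - 1 - (t + 1) = s - 1 - t := by omega
        rw [e1, pow_succ', Matrix.mul_assoc A, ← Matrix.mul_assoc]
      · simp

/-- the column operation matrix -/
def TM (q : ℕ) (J : Fin r → Fin m) (A : Matrix α α R) (v : Matrix α (Fin m) R)
    (w : Matrix (Fin m) α R) : Matrix (Kx q r m) (Kx q r m) R :=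
  Matrix.fromBlocks
    (Matrix.of fun c c' : Fin q × Fin m => cc A v w c'.1 c.1 c.2 c'.2)
    (Matrix.of fun (c : Fin q × Fin m) (i : Fin r) => cc A v w q c.1 c.2 (J i)) 0 1

theorem Kry_transl (q : ℕ) (J : Fin r → Fin m) (A : Matrix α α R) (v : Matrix α (Fin m) R)
    (w : Matrix (Fin m) α R) : Kry q J (A + v * w) v = Kry q J A v * TM q J A v w := by
  -- the general expansion
  have key : ∀ (s : ℕ) (a : α) (l : Fin m), s ≤ q → ((A + v * w) ^ s * v) a l =
      (if s < q then 0 else (A ^ s * v) a l) +
      ∑ c : Fin q × Fin m, (A ^ (c.1 : ℕ) * v) a c.2 * cc A v w s c.1 c.2 l := by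
    intro s a l hs
    have h1 : ∑ c : Fin q × Fin m, (A ^ (c.1 : ℕ) * v) a c.2 * cc A v w s c.1 c.2 l =
        ∑ t ∈ Finset.range q, (A ^ t * v * cc A v w s t) a l := by
      rw [Fintype.sum_prod_type, Finset.sum_range]
      refine Finset.sum_congr rfl fun t _ => ?_
      rw [Matrix.mul_apply]
    rw [h1, pow_add_expand, Matrix.add_apply]
    have h2 : ∀ t ∈ Finset.range q, t ∉ Finset.range (s + 1) →
        (A ^ t * v * cc A v w s t) a l = 0 := by
      intro t _ ht
      rw [Finset.mem_range] at ht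
      have : cc A v w s t = 0 := by
        unfold cc
        rw [if_neg (by omega), if_neg (by omega)]
      rw [this, Matrix.mul_zero, Matrix.zero_apply]
    have h3 : (∑ t ∈ Finset.range s, A ^ t * v * (w * (A + v * w) ^ (s - 1 - t) * v)) a l =
        ∑ t ∈ Finset.range s, (A ^ t * v * cc A v w s t) a l := by
      rw [Matrix.sum_apply]
      refine Finset.sum_congr rfl fun t ht => ?_
      rw [Finset.mem_range] at ht
      have : cc A v w s t = w * (A + v * w) ^ (s - 1 - t) * v := by
        unfold cc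
        rw [if_neg (by omega), if_pos ht]
      rw [this]
    rw [h3]
    by_cases hsq : s < q
    · have h4 : ∑ t ∈ Finset.range q, (A ^ t * v * cc A v w s t) a l =
          ∑ t ∈ Finset.range (s + 1), (A ^ t * v * cc A v w s t) a l := by
        symm
        apply Finset.sum_subset
        · intro t ht
          rw [Finset.mem_range] at ht ⊢
          omega
        · exact h2
      rw [h4, Finset.sum_range_succ, if_pos hsq, zero_add, add_comm]
      congr 1
      have : cc A v w s s = 1 := by
        unfold cc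
        rw [if_pos rfl]
      rw [this, Matrix.mul_one]
    · have hsq' : s = q := by omega
      subst hsq'
      rw [if_neg hsq]
  ext a c
  rw [Matrix.mul_apply, Fintype.sum_sum_type]
  rcases c with ⟨s, l⟩ | i
  · simp only [Kry, TM, Matrix.of_apply, Sum.elim_inl, Sum.elim_inr, Matrix.fromBlocks_apply₁₁,
      Matrix.fromBlocks_apply₂₁, Matrix.zero_apply, mul_zero, Finset.sum_const_zero, add_zero]
    rw [key s a l s.2.le, if_pos s.2, zero_add]
  · simp only [Kry, TM, Matrix.of_apply, Sum.elim_inl, Sum.elim_inr, Matrix.fromBlocks_apply₁₂,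
      Matrix.fromBlocks_apply₂₂]
    rw [key q a (J i) le_rfl, if_neg (lt_irrefl q), add_comm]
    congr 1
    simp [Matrix.one_apply]

theorem det_TM (q : ℕ) (J : Fin r → Fin m) (A : Matrix α α R) (v : Matrix α (Fin m) R)
    (w : Matrix (Fin m) α R) : (TM q J A v w).det = 1 := by
  unfold TM
  rw [Matrix.det_fromBlocks_zero₂₁, Matrix.det_one, mul_one]
  have hbt : (Matrix.of fun c c' : Fin q × Fin m => cc A v w c'.1 c.1 c.2 c'.2).BlockTriangular
      Prod.fst := by
    intro c c' h
    have h' : (c'.1 : ℕ) < c.1 := h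
    simp only [Matrix.of_apply, cc]
    rw [if_neg (by omega), if_neg (by omega), Matrix.zero_apply]
  rw [hbt.det_fintype]
  apply Finset.prod_eq_one
  intro k _
  have : (Matrix.of fun c c' : Fin q × Fin m => cc A v w c'.1 c.1 c.2 c'.2).toSquareBlock
      Prod.fst k = 1 := by
    ext ⟨⟨c1, c2⟩, hc⟩ ⟨⟨c1', c2'⟩, hc'⟩
    simp only at hc hc'
    subst hc hc'
    simp only [Matrix.toSquareBlock_def, Matrix.of_apply, cc, if_true, Matrix.one_apply,
      Subtype.mk.injEq, Prod.mk.injEq, true_and]
  rw [this, Matrix.det_one]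

theorem PJ_transl (q : ℕ) (e : Kx q r m ≃ α) (J : Fin r → Fin m) (A : Matrix α α R)
    (v : Matrix α (Fin m) R) (w : Matrix (Fin m) α R) :
    PJ q e J (A + v * w) v = PJ q e J A v := by
  unfold PJ
  rw [Kry_transl]
  have h3 : (Kry q J A v * TM q J A v w).submatrix e id =
      (Kry q J A v).submatrix e id * TM q J A v w := by
    ext i j
    simp [Matrix.mul_apply]
  rw [h3, Matrix.det_mul, det_TM, mul_one]

/-- the shift equivalence -/
def sft (q r m : ℕ) : Kx (q + 1) r m ≃ Fin m ⊕ Kx q r m where
  toFun c := match c with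
    | .inl (s, l) => Fin.cases (Sum.inl l) (fun s => Sum.inr (Sum.inl (s, l))) s
    | .inr i => Sum.inr (Sum.inr i)
  invFun c := match c with
    | .inl l => .inl (0, l)
    | .inr (.inl (s, l)) => .inl (s.succ, l)
    | .inr (.inr i) => .inr i
  left_inv c := by
    rcases c with ⟨s, l⟩ | i
    · refine Fin.cases ?_ (fun s => ?_) s <;> simp
    · rfl
  right_inv c := by
    rcases c with l | ⟨s, l⟩ | i <;> simp

/-- the slice matrices -/
def SA (B : Matrix β (Fin m) R) (C : Matrix β β R) : Matrix (Fin m ⊕ β) (Fin m ⊕ β) R :=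
  Matrix.fromBlocks 0 0 B C

/-- the slice matrices -/
def Sv (R : Type*) [CommRing R] (β : Type) (m : ℕ) : Matrix (Fin m ⊕ β) (Fin m) R :=
  Matrix.fromRows 1 0

theorem slice_pow (B : Matrix β (Fin m) R) (C : Matrix β β R) (s : ℕ) :
    (SA B C) ^ (s + 1) * Sv R β m =
      (Matrix.fromRows 0 (C ^ s * B) : Matrix (Fin m ⊕ β) (Fin m) R) := by
  induction s with
  | zero =>
    rw [zero_add, pow_one, pow_zero, Matrix.one_mul, SA, Sv, Matrix.fromBlocks_mul_fromRows]
    simp
  | succ s ih =>
    rw [pow_succ', Matrix.mul_assoc, ih, SA, Matrix.fromBlocks_mul_fromRows, pow_succ',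
      Matrix.mul_assoc]
    simp

/-- Krylov determinants restricted to the slice. -/
theorem PJ_slice (q : ℕ) (J : Fin r → Fin m) (B : Matrix (Kx q r m) (Fin m) R)
    (C : Matrix (Kx q r m) (Kx q r m) R) :
    PJ (q + 1) (sft q r m) J (SA B C) (Sv R _ m) = PJ q (Equiv.refl _) J C B := by
  unfold PJ
  rw [← Matrix.det_submatrix_equiv_self (sft q r m).symm]
  have h : (((Kry (q + 1) J (SA B C) (Sv R _ m)).submatrix
      (sft q r m) id).submatrix (sft q r m).symm (sft q r m).symm) =
      Matrix.fromBlocks (1 : Matrix (Fin m) (Fin m) R) 0 0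
        ((Kry q J C B).submatrix (Equiv.refl _) id) := by
    ext a c
    rw [Matrix.submatrix_apply, Matrix.submatrix_apply, Equiv.apply_symm_apply]
    rcases c with l | ⟨s, l⟩ | i
    · have h0 : (sft q r m).symm (Sum.inl l) = Sum.inl (0, l) := rfl
      rw [h0]
      simp only [Kry, Matrix.of_apply, id, Sum.elim_inl, Fin.val_zero, pow_zero, Matrix.one_mul]
      rcases a with a | a <;> simp [Sv]
    · have h0 : (sft q r m).symm (Sum.inr (Sum.inl (s, l))) = Sum.inl (s.succ, l) := rfl
      rw [h0]
      simp only [Kry, Matrix.of_apply, id, Sum.elim_inl, Fin.val_succ]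
      rw [slice_pow]
      rcases a with a | a <;> simp
    · have h0 : (sft q r m).symm (Sum.inr (Sum.inr i)) = Sum.inr i := rfl
      rw [h0]
      simp only [Kry, Matrix.of_apply, id, Sum.elim_inr]
      rw [slice_pow]
      rcases a with a | a <;> simp
  rw [h, Matrix.det_fromBlocks_zero₂₁, Matrix.det_one, one_mul]

end Kry

end Pool.Agent.Helper49.SLnm
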