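import Mathlib
import Pool.Agent.Helper49.SLnm.Kry

/-!
Invariants: polynomial functions `F(A, v)` invariant under `A ↦ A + v w` and under `SL` are
polynomials in the Krylov determinants.
-/

namespace Pool.Agent.Helper49.SLnm

open Matrix MvPolynomial

section Thm

variable {r m : ℕ} {α β : Type} [Fintype α] [DecidableEq α] [Fintype β] [DecidableEq β]

/-- coordinates -/
def coord {α : Type} {m : ℕ} (A : Matrix α α ℂ) (v : Matrix α (Fin m) ℂ) :
    (α × α) ⊕ (α × Fin m) → ℂ :=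
  Sum.elim (fun s => A s.1 s.2) (fun s => v s.1 s.2)

/-- polynomial functions -/
def IsPoly (F : Matrix α α ℂ → Matrix α (Fin m) ℂ → ℂ) : Prop :=
  ∃ p : MvPolynomial ((α × α) ⊕ (α × Fin m)) ℂ, ∀ A v, F A v = eval (coord A v) p

/-- invariance -/
def IsInv (F : Matrix α α ℂ → Matrix α (Fin m) ℂ → ℂ) : Prop :=
  (∀ (A : Matrix α α ℂ) (v : Matrix α (Fin m) ℂ) (w : Matrix (Fin m) α ℂ),
    F (A + v * w) v = F A v) ∧
  (∀ g : Matrix α α ℂ, g.det = 1 → ∀ (A : Matrix α α ℂ) (v : Matrix α (Fin m) ℂ),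
    F (g * A * g⁻¹) (g * v) = F A v)

/-- the generic matrices -/
noncomputable def GA (α : Type) (m : ℕ) : Matrix α α (MvPolynomial ((α × α) ⊕ (α × Fin m)) ℂ) :=
  Matrix.of fun i j => X (Sum.inl (i, j))

/-- the generic matrices -/
noncomputable def Gv (α : Type) (m : ℕ) :
    Matrix α (Fin m) (MvPolynomial ((α × α) ⊕ (α × Fin m)) ℂ) :=
  Matrix.of fun i j => X (Sum.inr (i, j))

omit [Fintype α] [DecidableEq α] in
theorem GA_map (A : Matrix α α ℂ) (v : Matrix α (Fin m) ℂ) :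
    (GA α m).map (eval (coord A v)) = A := by
  ext i j; simp [GA, coord]

omit [Fintype α] [DecidableEq α] in
theorem Gv_map (A : Matrix α α ℂ) (v : Matrix α (Fin m) ℂ) :
    (Gv α m).map (eval (coord A v)) = v := by
  ext i j; simp [Gv, coord]

/-- the Krylov determinants of the generic pair -/
noncomputable def PJp (q : ℕ) (e : Kx q r m ≃ α) (J : Fin r → Fin m) :
    MvPolynomial ((α × α) ⊕ (α × Fin m)) ℂ := PJ q e J (GA α m) (Gv α m)

theorem eval_PJp (q : ℕ) (e : Kx q r m ≃ α) (J : Fin r → Fin m) (A : Matrix α α ℂ)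
    (v : Matrix α (Fin m) ℂ) : eval (coord A v) (PJp q e J) = PJ q e J A v := by
  unfold PJp
  rw [PJ_map, GA_map, Gv_map]

/-- evaluating a polynomial at the Krylov determinants -/
noncomputable def evQ (q : ℕ) (e : Kx q r m ≃ α) (Q : MvPolynomial (Fin r ↪o Fin m) ℂ)
    (A : Matrix α α ℂ) (v : Matrix α (Fin m) ℂ) : ℂ :=
  eval (fun J : Fin r ↪o Fin m => PJ q e J A v) Q

theorem evQ_poly (q : ℕ) (e : Kx q r m ≃ α) (Q : MvPolynomial (Fin r ↪o Fin m) ℂ) :
    IsPoly (evQ q e Q) := by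
  refine ⟨aeval (fun J : Fin r ↪o Fin m => PJp q e J) Q, fun A v => ?_⟩
  unfold evQ
  induction Q using MvPolynomial.induction_on with
  | C a => simp
  | add p q hp hq => rw [map_add, hp, hq, map_add, map_add]
  | mul_X p J hp => rw [map_mul, hp, map_mul, map_mul, eval_X, aeval_X, eval_PJp]

theorem evQ_inv (q : ℕ) (e : Kx q r m ≃ α) (Q : MvPolynomial (Fin r ↪o Fin m) ℂ) :
    IsInv (evQ q e Q) := by
  constructor
  · intro A v w
    unfold evQ
    congr 2
    funext J
    exact PJ_transl q e J A v w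
  · intro g hg A v
    unfold evQ
    congr 2
    funext J
    rw [PJ_conj q e J g (by rw [hg]; exact isUnit_one), hg, one_mul]

theorem IsPoly.sub {F F' : Matrix α α ℂ → Matrix α (Fin m) ℂ → ℂ} (h : IsPoly F)
    (h' : IsPoly F') : IsPoly (fun A v => F A v - F' A v) := by
  obtain ⟨p, hp⟩ := h
  obtain ⟨p', hp'⟩ := h'
  exact ⟨p - p', fun A v => by simp only [map_sub, hp, hp']⟩

theorem IsInv.sub {F F' : Matrix α α ℂ → Matrix α (Fin m) ℂ → ℂ} (h : IsInv F)
    (h' : IsInv F') : IsInv (fun A v => F A v - F' A v) := by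
  refine ⟨fun A v w => ?_, fun g hg A v => ?_⟩
  · simp only [h.1, h'.1]
  · simp only [h.2 g hg, h'.2 g hg]

/-- the restriction to the slice -/
noncomputable def sl (F : Matrix (Fin m ⊕ β) (Fin m ⊕ β) ℂ → Matrix (Fin m ⊕ β) (Fin m) ℂ → ℂ) :
    Matrix β β ℂ → Matrix β (Fin m) ℂ → ℂ := fun C B => F (SA B C) (Sv ℂ β m)

theorem sl_poly {F : Matrix (Fin m ⊕ β) (Fin m ⊕ β) ℂ → Matrix (Fin m ⊕ β) (Fin m) ℂ → ℂ}
    (h : IsPoly F) : IsPoly (sl F) := by
  obtain ⟨p, hp⟩ := h
  let f : ((Fin m ⊕ β) × (Fin m ⊕ β)) ⊕ ((Fin m ⊕ β) × Fin m) →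
      MvPolynomial ((β × β) ⊕ (β × Fin m)) ℂ := fun s => match s with
    | .inl (.inl _, _) => 0
    | .inl (.inr b, .inl i) => X (.inr (b, i))
    | .inl (.inr b, .inr b') => X (.inl (b, b'))
    | .inr (.inl i, j) => if i = j then 1 else 0
    | .inr (.inr _, _) => 0
  refine ⟨aeval f p, fun C B => ?_⟩
  unfold sl
  rw [hp]
  have h1 : ∀ p, eval (coord C B) (aeval f p) = eval (fun s => eval (coord C B) (f s)) p := by
    intro p
    induction p using MvPolynomial.induction_on with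
    | C a => simp
    | add p q hp hq => rw [map_add, map_add, map_add, hp, hq]
    | mul_X p s hp => rw [map_mul, map_mul, map_mul, hp, aeval_X, eval_X]
  rw [h1]
  congr 2
  funext s
  rcases s with ⟨i | b, j | b'⟩ | ⟨i | b, j⟩
  · simp [coord, SA, f]
  · simp [coord, SA, f]
  · simp [coord, SA, f]
  · simp [coord, SA, f]
  · by_cases hij : i = j
    · simp [coord, Sv, f, hij]
    · simp [coord, Sv, f, hij]
  · simp [coord, Sv, f]

theorem sl_inv {F : Matrix (Fin m ⊕ β) (Fin m ⊕ β) ℂ → Matrix (Fin m ⊕ β) (Fin m) ℂ → ℂ}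
    (h : IsInv F) : IsInv (sl F) := by
  constructor
  · intro C B w
    unfold sl
    set g : Matrix (Fin m ⊕ β) (Fin m ⊕ β) ℂ := Matrix.fromBlocks 1 (-w) 0 1 with hg
    have hginv : g⁻¹ = Matrix.fromBlocks 1 w 0 1 := by
      apply Matrix.inv_eq_right_inv
      rw [hg, Matrix.fromBlocks_multiply]
      simp [Matrix.fromBlocks_one]
    have hdet : g.det = 1 := by rw [hg, Matrix.det_fromBlocks_zero₂₁]; simp
    have h1 := h.2 g hdet (SA B C) (Sv ℂ β m)
    have h2 : g * Sv ℂ β m = Sv ℂ β m := by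
      rw [hg, Sv, Matrix.fromBlocks_mul_fromRows]
      simp
    have h3 : g * SA B C * g⁻¹ = Matrix.fromBlocks (-w * B) (-w * (B * w + C)) B (B * w + C) := by
      rw [hg, hginv, SA, Matrix.fromBlocks_multiply, Matrix.fromBlocks_multiply]
      simp [Matrix.mul_add, Matrix.mul_assoc]
    have h4 := h.1 (g * SA B C * g⁻¹) (Sv ℂ β m) (Matrix.fromCols (w * B) (w * (B * w + C)))
    have h5 : g * SA B C * g⁻¹ + Sv ℂ β m * Matrix.fromCols (w * B) (w * (B * w + C)) =
        SA B (C + B * w) := by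
      rw [h3, Sv, Matrix.fromRows_mul_fromCols, Matrix.fromBlocks_add, SA]
      simp [add_comm]
    rw [h5] at h4
    rw [h2] at h1
    rw [h4, h1]
  · intro g' hg' C B
    unfold sl
    set g : Matrix (Fin m ⊕ β) (Fin m ⊕ β) ℂ := Matrix.fromBlocks 1 0 0 g' with hg
    have hu : IsUnit g'.det := by rw [hg']; exact isUnit_one
    have hginv : g⁻¹ = Matrix.fromBlocks 1 0 0 g'⁻¹ := by
      apply Matrix.inv_eq_right_inv
      rw [hg, Matrix.fromBlocks_multiply]
      simp [Matrix.fromBlocks_one, Matrix.mul_nonsing_inv _ hu]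
    have hdet : g.det = 1 := by rw [hg, Matrix.det_fromBlocks_zero₂₁, hg']; simp
    have h1 := h.2 g hdet (SA B C) (Sv ℂ β m)
    have h2 : g * Sv ℂ β m = Sv ℂ β m := by
      rw [hg, Sv, Matrix.fromBlocks_mul_fromRows]
      simp
    have h3 : g * SA B C * g⁻¹ = SA (g' * B) (g' * C * g'⁻¹) := by
      rw [hg, hginv, SA, SA, Matrix.fromBlocks_multiply, Matrix.fromBlocks_multiply]
      simp
    rw [h2, h3] at h1
    exact h1

/-- An invariant polynomial function vanishing on the slice vanishes. -/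
theorem vanish [Nonempty β]
    {F : Matrix (Fin m ⊕ β) (Fin m ⊕ β) ℂ → Matrix (Fin m ⊕ β) (Fin m) ℂ → ℂ}
    (hp : IsPoly F) (hi : IsInv F) (h0 : ∀ C B, sl F C B = 0) : ∀ A v, F A v = 0 := by
  -- the generic case
  have h1 : ∀ (A : Matrix (Fin m ⊕ β) (Fin m ⊕ β) ℂ) (v : Matrix (Fin m ⊕ β) (Fin m) ℂ),
      v.toRows₁.det ≠ 0 → F A v = 0 := by
    intro A v hv
    set v1 := v.toRows₁ with hv1
    set v2 := v.toRows₂ with hv2
    have hvv : v = Matrix.fromRows v1 v2 := (Matrix.fromRows_toRows v).symm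
    obtain ⟨b0⟩ := (inferInstance : Nonempty β)
    have hu : IsUnit v1.det := isUnit_iff_ne_zero.2 hv
    set D : Matrix β β ℂ := Matrix.diagonal (Function.update 1 b0 v1.det) with hD
    have hDdet : D.det = v1.det := by
      rw [hD, Matrix.det_diagonal, Finset.prod_update_of_mem (Finset.mem_univ b0)]
      simp
    set g : Matrix (Fin m ⊕ β) (Fin m ⊕ β) ℂ :=
      Matrix.fromBlocks v1⁻¹ 0 (-(D * v2 * v1⁻¹)) D with hg
    have hgdet : g.det = 1 := by
      rw [hg, Matrix.det_fromBlocks_zero₁₂, hDdet, Matrix.det_nonsing_inv,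
        Ring.inverse_mul_cancel _ hu]
    have hgv : g * v = Sv ℂ β m := by
      rw [hvv, hg, Matrix.fromBlocks_mul_fromRows, Sv]
      congr 1
      · rw [Matrix.zero_mul, add_zero, Matrix.nonsing_inv_mul _ hu]
      · rw [Matrix.neg_mul, Matrix.mul_assoc (D * v2), Matrix.nonsing_inv_mul _ hu,
          Matrix.mul_one, neg_add_cancel]
    have e1 := hi.2 g hgdet A v
    rw [hgv] at e1
    rw [← e1]
    set A' := g * A * g⁻¹ with hA'
    have e2 := hi.1 A' (Sv ℂ β m) (-Matrix.fromCols A'.toBlocks₁₁ A'.toBlocks₁₂)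
    have e3 : A' + Sv ℂ β m * -Matrix.fromCols A'.toBlocks₁₁ A'.toBlocks₁₂ =
        SA A'.toBlocks₂₁ A'.toBlocks₂₂ := by
      conv_lhs => rw [← Matrix.fromBlocks_toBlocks A']
      rw [Matrix.mul_neg, Sv, Matrix.fromRows_mul_fromCols, SA, ← sub_eq_add_neg]
      simp only [Matrix.one_mul, Matrix.zero_mul]
      ext i j
      rcases i with i | i <;> rcases j with j | j <;> simp
    rw [e3] at e2
    rw [← e2]
    exact h0 _ _
  obtain ⟨p, hp⟩ := hp
  set dt : MvPolynomial (((Fin m ⊕ β) × (Fin m ⊕ β)) ⊕ ((Fin m ⊕ β) × Fin m)) ℂ :=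
    (Gv (Fin m ⊕ β) m).toRows₁.det with hdt
  have hdt' : ∀ A v, eval (coord A v) dt = v.toRows₁.det := by
    intro A v
    rw [hdt, RingHom.map_det]
    congr 1
    ext i j
    simp [Gv, coord, Matrix.toRows₁]
  have h2 : p * dt = 0 := by
    apply MvPolynomial.funext
    intro x
    have hx : x = coord (Matrix.of fun i j => x (Sum.inl (i, j)))
        (Matrix.of fun i j => x (Sum.inr (i, j))) := by
      funext s
      rcases s with s | s <;> rfl
    rw [hx, map_mul, ← hp, hdt', map_zero]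
    by_cases hv : (Matrix.of fun i j => x (Sum.inr (i, j)) :
        Matrix (Fin m ⊕ β) (Fin m) ℂ).toRows₁.det = 0
    · rw [hv, mul_zero]
    · rw [h1 _ _ hv, zero_mul]
  have h3 : dt ≠ 0 := by
    intro h
    have := hdt' 0 (Sv ℂ β m)
    rw [h, map_zero, Sv, Matrix.toRows₁_fromRows, Matrix.det_one] at this
    exact zero_ne_one this
  have h4 : p = 0 := (mul_eq_zero.1 h2).resolve_right h3
  intro A v
  rw [hp, h4, map_zero]

/-- conclusion of the theorem on invariants -/
def Concl (q : ℕ) (e : Kx q r m ≃ α) : Prop :=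
  ∀ F : Matrix α α ℂ → Matrix α (Fin m) ℂ → ℂ, IsPoly F → IsInv F →
    ∃ Q : MvPolynomial (Fin r ↪o Fin m) ℂ, ∀ A v, F A v = evQ q e Q A v

theorem Concl.step (q : ℕ) (hr : 0 < r) (h : Concl q (Equiv.refl (Kx q r m))) :
    Concl (q + 1) (sft q r m) := by
  intro F hF hF'
  have : Nonempty (Kx q r m) := ⟨Sum.inr ⟨0, hr⟩⟩
  obtain ⟨Q, hQ⟩ := h (sl F) (sl_poly hF) (sl_inv hF')
  refine ⟨Q, fun A v => ?_⟩
  have h1 := vanish (hF.sub (evQ_poly (q + 1) (sft q r m) Q))
    (hF'.sub (evQ_inv (q + 1) (sft q r m) Q)) (fun C B => ?_) A v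
  · exact sub_eq_zero.1 h1
  · have h2 := hQ C B
    unfold sl at h2 ⊢
    simp only
    rw [h2, sub_eq_zero]
    unfold evQ
    congr 2
    funext J
    rw [PJ_slice]

/-- transport along an equivalence of index types -/
theorem Concl.transport {q : ℕ} {e : Kx q r m ≃ α} (f : β ≃ α) (h : Concl q (e.trans f.symm)) :
    Concl q e := by
  intro F hF hF'
  have hpoly : IsPoly (fun (A : Matrix β β ℂ) (v : Matrix β (Fin m) ℂ) =>
      F (A.submatrix f.symm f.symm) (v.submatrix f.symm id)) := by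
    obtain ⟨p, hp⟩ := hF
    refine ⟨rename (Sum.map (Prod.map f.symm f.symm) (Prod.map f.symm id)) p, fun A v => ?_⟩
    simp only
    rw [hp, eval_rename]
    congr 2
    funext s
    rcases s with ⟨i, j⟩ | ⟨i, j⟩ <;> rfl
  have hinv : IsInv (fun (A : Matrix β β ℂ) (v : Matrix β (Fin m) ℂ) =>
      F (A.submatrix f.symm f.symm) (v.submatrix f.symm id)) := by
    constructor
    · intro A v w
      have := hF'.1 (A.submatrix f.symm f.symm) (v.submatrix f.symm id) (w.submatrix id f.symm)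
      simp only
      rw [← this]
      congr 1
    · intro g hg A v
      have := hF'.2 (g.submatrix f.symm f.symm) (by rw [Matrix.det_submatrix_equiv_self, hg])
        (A.submatrix f.symm f.symm) (v.submatrix f.symm id)
      simp only
      rw [← this]
      congr 1
      · rw [Matrix.inv_submatrix_equiv, Matrix.submatrix_mul_equiv, Matrix.submatrix_mul_equiv]
      · rw [Matrix.submatrix_mul_equiv]
  obtain ⟨Q, hQ⟩ := h _ hpoly hinv
  refine ⟨Q, fun A v => ?_⟩
  have h1 := hQ (A.submatrix f f) (v.submatrix f id)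
  simp only [Matrix.submatrix_submatrix, Equiv.self_comp_symm, Matrix.submatrix_id_id,
    CompTriple.comp_eq] at h1
  rw [h1]
  unfold evQ
  congr 2
  funext J
  rw [← PJ_reindex]
  simp

end Thm

end Pool.Agent.Helper49.SLnm
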