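import Mathlib
import Pool.Agent.Helper49.SLnm.Thm

namespace Pool.Agent.Helper49.SLnm

open Matrix MvPolynomial

section Base

variable {r m : ℕ}

/-- the equivalence for `q = 0` -/
def e0x (r m : ℕ) : Kx 0 r m ≃ Fin r := Equiv.emptySum (Fin 0 × Fin m) (Fin r)

theorem PJ_zero {R : Type*} [CommRing R] (J : Fin r → Fin m) (A : Matrix (Fin r) (Fin r) R)
    (v : Matrix (Fin r) (Fin m) R) :
    PJ 0 (e0x r m) J A v = (v.submatrix id J).det := by
  unfold PJ
  rw [← Matrix.det_submatrix_equiv_self (e0x r m).symm]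
  congr 1
  ext i j
  rw [Matrix.submatrix_apply, Matrix.submatrix_apply, Equiv.apply_symm_apply]
  have : (e0x r m).symm j = Sum.inr j := rfl
  rw [this]
  simp [Kry]

theorem evM_minor (v : Matrix (Fin r) (Fin m) ℂ) (l : Fin r → Fin m) :
    evM v (minor l) = (v.submatrix id l).det := by
  unfold evM minor
  rw [RingHom.map_det]
  congr 1
  ext i j
  simp

/-- value of a polynomial at the minors of a matrix -/
noncomputable def evMin (Q : MvPolynomial (Fin r ↪o Fin m) ℂ) (v : Matrix (Fin r) (Fin m) ℂ) : ℂ :=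
  eval (fun J : Fin r ↪o Fin m => (v.submatrix id J).det) Q

theorem MM_exists (p : Rm r m) (hp : p ∈ MM r m) :
    ∃ Q : MvPolynomial (Fin r ↪o Fin m) ℂ, ∀ v, evM v p = evMin Q v := by
  unfold MM at hp
  induction hp using Algebra.adjoin_induction with
  | mem p hp =>
    obtain ⟨l, rfl⟩ := hp
    by_cases hl : Function.Injective l
    · set σ := Tuple.sort l with hσ
      have hmono : StrictMono (l ∘ σ) :=
        (Tuple.monotone_sort l).strictMono_of_injective (hl.comp σ.injective)
      refine ⟨C (((Equiv.Perm.sign σ : ℤˣ) : ℤ) : ℂ) * X (OrderEmbedding.ofStrictMono _ hmono),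
        fun v => ?_⟩
      rw [evM_minor]
      unfold evMin
      rw [map_mul, eval_C, eval_X]
      have h1 := Matrix.det_permute' σ (v.submatrix id l)
      have h2 : (v.submatrix id l).submatrix id σ =
          v.submatrix id (OrderEmbedding.ofStrictMono _ hmono) := by
        ext i j; rfl
      rw [h2] at h1
      rw [h1, ← mul_assoc, ← Int.cast_mul, ← Units.val_mul, Int.units_mul_self]
      simp
    · refine ⟨0, fun v => ?_⟩
      rw [evM_minor]
      unfold evMin
      rw [map_zero]
      rw [Function.Injective] at hl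
      push Not at hl
      obtain ⟨i, j, hij, hne⟩ := hl
      exact Matrix.det_zero_of_column_eq hne (fun k => by simp [hij])
  | algebraMap a => exact ⟨C a, fun v => by simp [evM, evMin]⟩
  | add p q _ _ hp hq =>
    obtain ⟨P, hP⟩ := hp
    obtain ⟨Q, hQ⟩ := hq
    refine ⟨P + Q, fun v => ?_⟩
    unfold evM evMin at *
    rw [map_add, map_add, hP, hQ]
  | mul p q _ _ hp hq =>
    obtain ⟨P, hP⟩ := hp
    obtain ⟨Q, hQ⟩ := hq
    refine ⟨P * Q, fun v => ?_⟩
    unfold evM evMin at *
    rw [map_mul, map_mul, hP, hQ]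

theorem concl_base (hr : 0 < r) (hrm : r ≤ m) : Concl 0 (e0x r m) := by
  rintro F ⟨p, hp⟩ hF
  -- independence of A
  set J0 : Fin r → Fin m := Fin.castLE hrm with hJ0
  have h1 : ∀ (A : Matrix (Fin r) (Fin r) ℂ) (v : Matrix (Fin r) (Fin m) ℂ),
      (v.submatrix id J0).det ≠ 0 → F A v = F 0 v := by
    intro A v hv
    set w : Matrix (Fin m) (Fin r) ℂ :=
      (1 : Matrix (Fin m) (Fin m) ℂ).submatrix id J0 * (v.submatrix id J0)⁻¹ with hw
    have hvw : v * w = 1 := by
      rw [hw, ← Matrix.mul_assoc]
      have : v * (1 : Matrix (Fin m) (Fin m) ℂ).submatrix id J0 = v.submatrix id J0 := by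
        ext i j
        simp [Matrix.mul_apply, Matrix.one_apply]
      rw [this, Matrix.mul_nonsing_inv _ (isUnit_iff_ne_zero.2 hv)]
    have := hF.1 0 v (w * A)
    rw [← Matrix.mul_assoc, hvw, Matrix.one_mul, zero_add] at this
    exact this
  set p0 : MvPolynomial ((Fin r × Fin r) ⊕ (Fin r × Fin m)) ℂ :=
    aeval (Sum.elim (fun _ => 0) (fun s => X (Sum.inr s))) p with hp0
  have hp0' : ∀ A v, eval (coord A v) p0 = F 0 v := by
    intro A v
    rw [hp, hp0]
    have : ∀ q : MvPolynomial ((Fin r × Fin r) ⊕ (Fin r × Fin m)) ℂ, eval (coord A v)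
        (aeval (Sum.elim (fun _ => 0) (fun s => X (Sum.inr s)) :
          _ → MvPolynomial ((Fin r × Fin r) ⊕ (Fin r × Fin m)) ℂ) q) = eval (coord 0 v) q := by
      intro q
      induction q using MvPolynomial.induction_on with
      | C a => simp
      | add p q hp hq => rw [map_add, map_add, map_add, hp, hq]
      | mul_X p s hp =>
        rw [map_mul, map_mul, map_mul, hp, aeval_X, eval_X]
        congr 1
        rcases s with s | s <;> simp [coord]
    exact this p
  set dt : MvPolynomial ((Fin r × Fin r) ⊕ (Fin r × Fin m)) ℂ :=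
    ((Gv (Fin r) m).submatrix id J0).det with hdt
  have hdt' : ∀ A v, eval (coord A v) dt = (v.submatrix id J0).det := by
    intro A v
    rw [hdt, RingHom.map_det]
    congr 1
    ext i j
    simp [Gv, coord]
  have h2 : (p - p0) * dt = 0 := by
    apply MvPolynomial.funext
    intro x
    have hx : x = coord (Matrix.of fun i j => x (Sum.inl (i, j)))
        (Matrix.of fun i j => x (Sum.inr (i, j))) := by
      funext s
      rcases s with s | s <;> rfl
    rw [hx, map_mul, map_sub, ← hp, hp0', hdt', map_zero]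
    by_cases hv : ((Matrix.of fun i j => x (Sum.inr (i, j)) :
        Matrix (Fin r) (Fin m) ℂ).submatrix id J0).det = 0
    · rw [hv, mul_zero]
    · rw [h1 _ _ hv, sub_self, zero_mul]
  have h3 : dt ≠ 0 := by
    intro h
    have := hdt' 0 (((1 : Matrix (Fin m) (Fin m) ℂ)).submatrix J0 id)
    rw [h, map_zero, Matrix.submatrix_submatrix] at this
    have h1' : (1 : Matrix (Fin m) (Fin m) ℂ).submatrix (J0 ∘ id) (id ∘ J0) = 1 := by
      ext i j
      simp [Matrix.one_apply, hJ0]
    rw [h1', Matrix.det_one] at this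
    exact zero_ne_one this
  have h4 : p = p0 := sub_eq_zero.1 ((mul_eq_zero.1 h2).resolve_right h3)
  have h5 : ∀ A v, F A v = F 0 v := by
    intro A v
    rw [hp, h4, hp0']
  -- the polynomial in v
  set f : Rm r m := aeval (Sum.elim (fun _ => 0) (fun s => X s)) p with hf
  have hf' : ∀ v, evM v f = F 0 v := by
    intro v
    rw [hp, hf]
    unfold evM
    have : ∀ q : MvPolynomial ((Fin r × Fin r) ⊕ (Fin r × Fin m)) ℂ,
        eval (fun s : Fin r × Fin m => v s.1 s.2)
        (aeval (Sum.elim (fun _ => 0) (fun s => X s) : _ → Rm r m) q) = eval (coord 0 v) q := by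
      intro q
      induction q using MvPolynomial.induction_on with
      | C a => simp
      | add p q hp hq => rw [map_add, map_add, map_add, hp, hq]
      | mul_X p s hp =>
        rw [map_mul, map_mul, map_mul, hp, aeval_X, eval_X]
        congr 1
        rcases s with s | s <;> simp [coord]
    exact this p
  have hfM : f ∈ MM r m := by
    apply fft hr
    intro g hg v
    rw [hf', hf']
    have := hF.2 g hg 0 v
    rw [Matrix.mul_zero, Matrix.zero_mul] at this
    exact this
  obtain ⟨Q, hQ⟩ := MM_exists f hfM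
  refine ⟨Q, fun A v => ?_⟩
  rw [h5, ← hf', hQ]
  unfold evMin evQ
  congr 2
  funext J
  rw [PJ_zero]

theorem concl_refl (hr : 0 < r) (hrm : r ≤ m) : ∀ q, Concl q (Equiv.refl (Kx q r m)) := by
  intro q
  induction q with
  | zero =>
    apply Concl.transport (e0x r m).symm
    exact concl_base hr hrm
  | succ q ih =>
    apply Concl.transport (sft q r m).symm
    exact ih.step q hr

theorem concl (hr : 0 < r) (hrm : r ≤ m) {α : Type} [Fintype α] [DecidableEq α] (q : ℕ)
    (e : Kx q r m ≃ α) : Concl q e := by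
  apply Concl.transport e
  rw [Equiv.self_trans_symm]
  exact concl_refl hr hrm q

theorem evQ_reindex {α β : Type} [Fintype α] [DecidableEq α] [Fintype β] [DecidableEq β] (q : ℕ)
    (e : Kx q r m ≃ α) (f : β ≃ α) (Q : MvPolynomial (Fin r ↪o Fin m) ℂ)
    (A : Matrix β β ℂ) (v : Matrix β (Fin m) ℂ) :
    evQ q e Q (A.submatrix f.symm f.symm) (v.submatrix f.symm id) =
      evQ q (e.trans f.symm) Q A v := by
  unfold evQ
  congr 2
  funext J
  exact PJ_reindex q e f J A v

theorem evQ_forall_reindex {α β : Type} [Fintype α] [DecidableEq α] [Fintype β] [DecidableEq β]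
    (q : ℕ) (e : Kx q r m ≃ α) (f : β ≃ α) (Q : MvPolynomial (Fin r ↪o Fin m) ℂ) :
    (∀ A v, evQ q e Q A v = 0) ↔ (∀ A v, evQ q (e.trans f.symm) Q A v = 0) := by
  constructor
  · intro h A v
    rw [← evQ_reindex]
    exact h _ _
  · intro h A v
    have h1 := evQ_reindex q e f Q (A.submatrix f f) (v.submatrix f id)
    rw [h] at h1
    simpa using h1

/-- The relations among the Krylov determinants are those among the minors. -/
theorem ker_iff (hr : 0 < r) (Q : MvPolynomial (Fin r ↪o Fin m) ℂ) : ∀ q,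
    (∀ A v, evQ q (Equiv.refl (Kx q r m)) Q A v = 0) ↔ ∀ y, evMin Q y = 0 := by
  intro q
  induction q with
  | zero =>
    rw [evQ_forall_reindex 0 (Equiv.refl (Kx 0 r m)) (e0x r m).symm]
    have h : ∀ (A : Matrix (Fin r) (Fin r) ℂ) v, evQ 0 ((Equiv.refl (Kx 0 r m)).trans
        (e0x r m).symm.symm) Q A v = evMin Q v := by
      intro A v
      unfold evQ evMin
      congr 2
      funext J
      exact PJ_zero J A v
    simp only [h]
    exact ⟨fun h v => h 0 v, fun h _ v => h v⟩
  | succ q ih =>
    rw [← ih, evQ_forall_reindex (q + 1) (Equiv.refl (Kx (q + 1) r m)) (sft q r m).symm]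
    have he : (Equiv.refl (Kx (q + 1) r m)).trans (sft q r m).symm.symm = sft q r m := rfl
    rw [he]
    have hs : ∀ B C, evQ (q + 1) (sft q r m) Q (SA B C) (Sv ℂ _ m) =
        evQ q (Equiv.refl (Kx q r m)) Q C B := by
      intro B C
      unfold evQ
      congr 2
      funext J
      exact PJ_slice q J B C
    constructor
    · intro h C B
      rw [← hs]
      exact h _ _
    · intro h
      have : Nonempty (Kx q r m) := ⟨Sum.inr ⟨0, hr⟩⟩
      apply vanish (evQ_poly _ _ _) (evQ_inv _ _ _)
      intro C B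
      unfold sl
      rw [hs, h]

theorem ker_iff' (hr : 0 < r) {α : Type} [Fintype α] [DecidableEq α] (q : ℕ)
    (e : Kx q r m ≃ α) (Q : MvPolynomial (Fin r ↪o Fin m) ℂ) :
    (∀ A v, evQ q e Q A v = 0) ↔ ∀ y, evMin Q y = 0 := by
  rw [evQ_forall_reindex q e e, Equiv.self_trans_symm]
  exact ker_iff hr Q q

end Base

end Pool.Agent.Helper49.SLnm
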