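import Mathlib

/-!
Definitions for MP_470bac_al: the Lie algebra `sl(n,C) ⋉ C^(m,n)`, its universal enveloping
algebra, and the explicit central elements.
-/

namespace Pool.Agent.Helper49.SLnm

open Matrix

/-- The Lie algebra `g = sl(n,C) ⋉ C^(m,n)`: pairs `(X, v)` with `X` a traceless `n × n` matrix
and `v` an `m × n` matrix. -/
def G (n m : ℕ) : Type :=
  (LieAlgebra.SpecialLinear.sl (Fin n) ℂ) × Matrix (Fin m) (Fin n) ℂ

noncomputable instance (n m : ℕ) : AddCommGroup (G n m) :=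
  inferInstanceAs (AddCommGroup ((LieAlgebra.SpecialLinear.sl (Fin n) ℂ) × _))

noncomputable instance (n m : ℕ) : Module ℂ (G n m) :=
  inferInstanceAs (Module ℂ ((LieAlgebra.SpecialLinear.sl (Fin n) ℂ) × _))

/-- The bracket `[(X, v), (Y, w)] = ([X, Y], w Xᵀ - v Yᵀ)`. -/
noncomputable instance (n m : ℕ) : Bracket (G n m) (G n m) where
  bracket x y := (⁅x.1, y.1⁆, y.2 * (x.1 : Matrix (Fin n) (Fin n) ℂ)ᵀ -
    x.2 * (y.1 : Matrix (Fin n) (Fin n) ℂ)ᵀ)

theorem G.lie_def {n m : ℕ} (x y : G n m) : ⁅x, y⁆ =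
    ((⁅x.1, y.1⁆, y.2 * (x.1 : Matrix (Fin n) (Fin n) ℂ)ᵀ -
      x.2 * (y.1 : Matrix (Fin n) (Fin n) ℂ)ᵀ) : G n m) := rfl

@[simp] theorem G.lie_fst {n m : ℕ} (x y : G n m) : (⁅x, y⁆).1 = ⁅x.1, y.1⁆ := rfl
@[simp] theorem G.lie_snd {n m : ℕ} (x y : G n m) :
    (⁅x, y⁆).2 = y.2 * (x.1 : Matrix (Fin n) (Fin n) ℂ)ᵀ -
      x.2 * (y.1 : Matrix (Fin n) (Fin n) ℂ)ᵀ := rfl
@[simp] theorem G.add_fst {n m : ℕ} (x y : G n m) : (x + y).1 = x.1 + y.1 := rfl
@[simp] theorem G.add_snd {n m : ℕ} (x y : G n m) : (x + y).2 = x.2 + y.2 := rfl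
@[simp] theorem G.smul_fst {n m : ℕ} (c : ℂ) (x : G n m) : (c • x).1 = c • x.1 := rfl
@[simp] theorem G.smul_snd {n m : ℕ} (c : ℂ) (x : G n m) : (c • x).2 = c • x.2 := rfl
@[simp] theorem G.sub_fst {n m : ℕ} (x y : G n m) : (x - y).1 = x.1 - y.1 := rfl
@[simp] theorem G.sub_snd {n m : ℕ} (x y : G n m) : (x - y).2 = x.2 - y.2 := rfl
@[simp] theorem G.zero_fst {n m : ℕ} : (0 : G n m).1 = 0 := rfl
@[simp] theorem G.zero_snd {n m : ℕ} : (0 : G n m).2 = 0 := rfl

theorem G.ext' {n m : ℕ} {x y : G n m} (h1 : x.1 = y.1) (h2 : x.2 = y.2) : x = y :=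
  Prod.ext h1 h2

noncomputable instance (n m : ℕ) : LieRing (G n m) where
  add_lie x y z := by
    apply G.ext'
    · simp
    · simp [Matrix.add_mul, Matrix.mul_add]; abel
  lie_add x y z := by
    apply G.ext'
    · simp
    · simp [Matrix.add_mul, Matrix.mul_add]; abel
  lie_self x := by
    apply G.ext'
    · simp
    · simp
  leibniz_lie x y z := by
    apply G.ext'
    · simp
    · simp only [G.lie_snd, G.lie_fst, G.add_snd, LieSubalgebra.coe_bracket,
        Ring.lie_def, Matrix.transpose_sub, Matrix.transpose_mul, Matrix.sub_mul, Matrix.mul_sub,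
        Matrix.mul_assoc]
      abel

noncomputable instance (n m : ℕ) : LieAlgebra ℂ (G n m) where
  lie_smul c x y := by
    apply G.ext'
    · simp
    · simp [smul_sub]

/-- The element `(X, 0)` of `g`. -/
def gX {n m : ℕ} (X : LieAlgebra.SpecialLinear.sl (Fin n) ℂ) : G n m := (X, 0)

/-- The element `(0, w)` of `g`. -/
def gw {n m : ℕ} (w : Matrix (Fin m) (Fin n) ℂ) : G n m := (0, w)

/-- The universal enveloping algebra `U(g)`. -/
abbrev U (n m : ℕ) : Type := UniversalEnvelopingAlgebra ℂ (G n m)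

/-- The traceless matrix `E_ab - (δ_ab / n) 1`, an element of `sl(n,C)`. -/
noncomputable def e0 (n : ℕ) (a b : Fin n) : LieAlgebra.SpecialLinear.sl (Fin n) ℂ :=
  ⟨Matrix.single a b (1 : ℂ) -
      (if a = b then (1 / n : ℂ) else 0) • (1 : Matrix (Fin n) (Fin n) ℂ), by
    have hn : (n : ℂ) ≠ 0 := by
      have := a.pos
      exact_mod_cast this.ne'
    change Matrix.trace (Matrix.single a b (1 : ℂ) -
      (if a = b then (1 / n : ℂ) else 0) • (1 : Matrix (Fin n) (Fin n) ℂ)) = 0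
    by_cases h : a = b
    · subst h
      simp [Matrix.trace_sub, Matrix.trace_smul, Matrix.trace_one]
      field_simp
      simp
    · simp [h, Matrix.trace_single_eq_of_ne _ _ _ h]⟩

/-- The `n × n` matrix over `U(g)` whose `(a,b)` entry is the image of
`E_ab - (δ_ab / n) 1 ∈ sl(n,C)`. -/
noncomputable def E (n m : ℕ) : Matrix (Fin n) (Fin n) (U n m) :=
  fun a b => UniversalEnvelopingAlgebra.ι ℂ (gX (e0 n a b))

/-- The `j`-th vector over `U(g)`: its `c`-th entry is the image of the matrix unit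
`e_{jc} ∈ C^(m,n)`. -/
noncomputable def V (n m : ℕ) (j : Fin m) : Fin n → U n m :=
  fun c => UniversalEnvelopingAlgebra.ι ℂ (gw (Matrix.single j c 1))

/-- The column determinant of a list of `n` vectors over a (noncommutative) ring: the `k`-th
factor of each product is an entry of the `k`-th column. -/
noncomputable def colDet {n : ℕ} {R : Type*} [Ring R] (y : Fin n → Fin n → R) : R :=
  ∑ σ : Equiv.Perm (Fin n), ((Equiv.Perm.sign σ : ℤˣ) : ℤ) • (List.ofFn fun k => y k (σ k)).prod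

/-- The `k`-th letter of `z_J`: it is `(s, l)`, standing for the vector `E^s V_l`. The letters are
`(0,0), …, (0,m-1), (1,0), …, (q-1,m-1), (q, J 0), …, (q, J (r-1))`, in this order. -/
def letter {m q r : ℕ} (J : Fin r → Fin m) : Fin (q * m + r) → ℕ × Fin m :=
  Fin.addCases (fun k : Fin (q * m) => ((k.divNat : ℕ), k.modNat)) (fun i : Fin r => (q, J i))

/-- The element `z_J` of `U(g)`, `n = q m + r`: the column determinant of the `n × n` matrix with
columns `V_0, …, V_{m-1}, E V_0, …, E V_{m-1}, …, E^{q-1} V_{m-1}, E^q V_{J 0}, …, E^q V_{J (r-1)}`. -/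
noncomputable def z {m q r : ℕ} (J : Fin r → Fin m) : U (q * m + r) m :=
  colDet fun k => (E (q * m + r) m ^ (letter J k).1) *ᵥ V (q * m + r) m (letter J k).2

end Pool.Agent.Helper49.SLnm
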