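import Mathlib
import Pool.Agent.Helper49.SLnm.Defs

namespace Pool.Agent.Helper49.SLnm

open Matrix TensorProduct

section Central

variable {n m : ℕ} {R : Type*} [Ring R] [Algebra ℂ R]

/-- The commutation relations of the generators of `U(g)`. -/
structure VRel (κ : ℂ) (E : Matrix (Fin n) (Fin n) R) (v : Fin m → Fin n → R) : Prop where
  ee : ∀ a b c d, E a b * E c d - E c d * E a b =
    (if b = c then E a d else 0) - (if a = d then E c b else 0)
  ev : ∀ a b j c, E a b * v j c - v j c * E a b =
    (if b = c then v j a else 0) - κ • (if a = b then v j c else 0)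
  vv : ∀ i a j b, v i a * v j b = v j b * v i a

/-- The vector `E^s v_j`. -/
def lett (E : Matrix (Fin n) (Fin n) R) (v : Fin m → Fin n → R) (p : ℕ × Fin m) : Fin n → R :=
  (E ^ p.1) *ᵥ (v p.2)

variable {κ : ℂ} {E : Matrix (Fin n) (Fin n) R} {v : Fin m → Fin n → R}

omit [Algebra ℂ R] in
theorem lett_zero (j : Fin m) : lett E v (0, j) = v j := by
  simp [lett]

omit [Algebra ℂ R] in
theorem lett_succ (s : ℕ) (j : Fin m) (a : Fin n) :
    lett E v (s + 1, j) a = ∑ c, E a c * lett E v (s, j) c := by
  unfold lett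
  simp only
  rw [pow_succ', ← Matrix.mulVec_mulVec]
  rfl

theorem lett_vec (h : VRel κ E v) (s : ℕ) (j : Fin m) (a b c : Fin n) :
    E a b * lett E v (s, j) c - lett E v (s, j) c * E a b =
      (if b = c then lett E v (s, j) a else 0) - κ • (if a = b then lett E v (s, j) c else 0) := by
  induction s generalizing c with
  | zero => simpa [lett_zero] using h.ev a b j c
  | succ s ih =>
    simp only [lett_succ]
    rw [Finset.mul_sum, Finset.sum_mul, ← Finset.sum_sub_distrib]
    have key : ∀ d, E a b * (E c d * lett E v (s, j) d) - E c d * lett E v (s, j) d * E a b =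
        ((if b = c then E a d else 0) - (if a = d then E c b else 0)) * lett E v (s, j) d +
        E c d * ((if b = d then lett E v (s, j) a else 0) -
          κ • (if a = b then lett E v (s, j) d else 0)) := by
      intro d
      rw [← h.ee, ← ih d]
      noncomm_ring
    rw [Finset.sum_congr rfl fun d _ => key d]
    simp only [sub_mul, mul_sub, Finset.sum_add_distrib, Finset.sum_sub_distrib, ite_mul, zero_mul,
      mul_ite, mul_zero, mul_smul_comm, Finset.sum_ite_eq, Finset.mem_univ, if_true]
    have hsm : ∑ x, κ • (if a = b then E c x * lett E v (s, j) x else 0) =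
        κ • (if a = b then ∑ x, E c x * lett E v (s, j) x else 0) := by
      split_ifs
      · rw [Finset.smul_sum]
      · simp
    have hsm2 : ∑ x, (if b = c then E a x * lett E v (s, j) x else 0) =
        (if b = c then ∑ x, E a x * lett E v (s, j) x else 0) := by
      split_ifs <;> simp
    rw [hsm, hsm2]
    abel

/-- Span of the two-index tensors `y_a z_b` with `y, z` letters of total degree `< d`. -/
def Cl (E : Matrix (Fin n) (Fin n) R) (v : Fin m → Fin n → R) (d : ℕ) :
    Submodule ℂ (Fin n → Fin n → R) :=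
  Submodule.span ℂ {f | ∃ p p' : ℕ × Fin m, p.1 + p'.1 < d ∧
    f = fun a b => lett E v p a * lett E v p' b}

theorem Cl_mono {d d' : ℕ} (h : d ≤ d') : Cl E v d ≤ Cl E v d' := by
  apply Submodule.span_mono
  rintro f ⟨p, p', hp, rfl⟩
  exact ⟨p, p', by omega, rfl⟩

theorem mem_Cl {d : ℕ} (p p' : ℕ × Fin m) (h : p.1 + p'.1 < d) :
    (fun a b => lett E v p a * lett E v p' b) ∈ Cl E v d :=
  Submodule.subset_span ⟨p, p', h, rfl⟩

/-- commutator tensor -/
def comm2 (E : Matrix (Fin n) (Fin n) R) (v : Fin m → Fin n → R) (p t : ℕ × Fin m) :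
    Fin n → Fin n → R :=
  fun a b => lett E v p a * lett E v t b - lett E v t b * lett E v p a

theorem comm2_succ (h : VRel κ E v) (s : ℕ) (j : Fin m) (t : ℕ × Fin m) :
    comm2 E v (s + 1, j) t = (fun a b => ∑ c, E a c * comm2 E v (s, j) t c b) +
      (fun a b => lett E v t a * lett E v (s, j) b) -
      κ • ((fun a b => lett E v (s, j) a * lett E v t b) - comm2 E v (s, j) t) := by
  funext a b
  obtain ⟨t1, t2⟩ := t
  simp only [Pi.add_apply, Pi.sub_apply, Pi.smul_apply, comm2, lett_succ, Finset.sum_mul,
    Finset.mul_sum, sub_sub_cancel]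
  rw [← Finset.sum_sub_distrib]
  have key : ∀ c, E a c * lett E v (s, j) c * lett E v (t1, t2) b -
      lett E v (t1, t2) b * (E a c * lett E v (s, j) c) =
      E a c * (lett E v (s, j) c * lett E v (t1, t2) b -
        lett E v (t1, t2) b * lett E v (s, j) c) +
      ((if c = b then lett E v (t1, t2) a else 0) -
        κ • (if a = c then lett E v (t1, t2) b else 0)) * lett E v (s, j) c := by
    intro c
    rw [← lett_vec h]
    noncomm_ring
  rw [Finset.sum_congr rfl fun c _ => key c]
  simp only [sub_mul, Finset.sum_add_distrib, Finset.sum_sub_distrib, ite_mul, zero_mul,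
    smul_mul_assoc, Finset.sum_ite_eq, Finset.sum_ite_eq', Finset.mem_univ, if_true,
    ← Finset.smul_sum]
  abel

/-- left multiplication by `E` in the first index -/
theorem Cl_E {d : ℕ} {f : Fin n → Fin n → R} (hf : f ∈ Cl E v d) :
    (fun a b => ∑ c, E a c * f c b) ∈ Cl E v (d + 1) := by
  induction hf using Submodule.span_induction with
  | mem f hf =>
    obtain ⟨p, p', hp, rfl⟩ := hf
    have : (fun a b => ∑ c, E a c * (lett E v p c * lett E v p' b)) =
        fun a b => lett E v (p.1 + 1, p.2) a * lett E v p' b := by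
      funext a b
      rw [lett_succ, Finset.sum_mul]
      exact Finset.sum_congr rfl fun c _ => (mul_assoc _ _ _).symm
    rw [this]
    exact mem_Cl _ _ (by simpa using by omega)
  | zero =>
    simp only [Pi.zero_apply, mul_zero, Finset.sum_const_zero]
    exact Submodule.zero_mem _
  | add f g _ _ hf hg =>
    have : (fun a b => ∑ c, E a c * (f + g) c b) =
        (fun a b => ∑ c, E a c * f c b) + (fun a b => ∑ c, E a c * g c b) := by
      funext a b
      simp [mul_add, Finset.sum_add_distrib]
    rw [this]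
    exact Submodule.add_mem _ hf hg
  | smul x f _ hf =>
    have : (fun a b => ∑ c, E a c * (x • f) c b) =
        x • (fun a b => ∑ c, E a c * f c b) := by
      funext a b
      simp [Finset.smul_sum]
    rw [this]
    exact Submodule.smul_mem _ _ hf

theorem comm2_mem (h : VRel κ E v) : ∀ (N : ℕ) (p t : ℕ × Fin m), p.1 + t.1 = N →
    comm2 E v p t ∈ Cl E v N := by
  intro N
  induction N using Nat.strong_induction_on with
  | _ N ih =>
    -- first the case of positive first degree
    have h1 : ∀ (s : ℕ) (j : Fin m) (t : ℕ × Fin m), s + 1 + t.1 = N →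
        comm2 E v (s + 1, j) t ∈ Cl E v N := by
      intro s j t hN
      rw [comm2_succ h]
      have h0 : comm2 E v (s, j) t ∈ Cl E v (s + t.1) := ih (s + t.1) (by omega) (s, j) t rfl
      refine Submodule.sub_mem _ (Submodule.add_mem _ ?_ ?_) (Submodule.smul_mem _ _ ?_)
      · exact Cl_mono (by omega) (Cl_E h0)
      · exact mem_Cl _ _ (by simp only; omega)
      · refine Submodule.sub_mem _ (mem_Cl _ _ (by simp only; omega)) (Cl_mono (by omega) h0)
    -- transposition
    have h2 : ∀ f ∈ Cl E v N, (fun a b => f b a) ∈ Cl E v N := by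
      intro f hf
      induction hf using Submodule.span_induction with
      | mem f hf =>
        obtain ⟨p, p', hp, rfl⟩ := hf
        have : (fun a b => lett E v p b * lett E v p' a) =
            (fun a b => lett E v p' a * lett E v p b) - comm2 E v p' p := by
          funext a b
          simp [comm2]
        rw [this]
        refine Submodule.sub_mem _ (mem_Cl _ _ (by omega)) ?_
        exact Cl_mono (by omega) (ih (p'.1 + p.1) (by omega) p' p rfl)
      | zero => exact Submodule.zero_mem _
      | add f g _ _ hf hg => exact Submodule.add_mem _ hf hg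
      | smul x f _ hf => exact Submodule.smul_mem _ _ hf
    rintro ⟨p1, p2⟩ ⟨t1, t2⟩ hN
    simp only at hN
    rcases p1 with _ | s
    · rcases t1 with _ | s
      · have : comm2 E v (0, p2) (0, t2) = 0 := by
          funext a b
          simp only [comm2, lett_zero, Pi.zero_apply]
          rw [h.vv, sub_self]
        rw [this]
        exact Submodule.zero_mem _
      · have : comm2 E v (0, p2) (s + 1, t2) = - (fun a b => comm2 E v (s + 1, t2) (0, p2) b a) := by
          funext a b
          simp [comm2]
        rw [this]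
        exact Submodule.neg_mem _ (h2 _ (h1 s t2 (0, p2) (by simp only; omega)))
    · exact h1 s p2 (t1, t2) (by simpa using hN)

/-- basis vector in the exterior algebra -/
noncomputable def eb (a : Fin n) : ExteriorAlgebra ℂ (Fin n → ℂ) :=
  ExteriorAlgebra.ι ℂ (Pi.single a (1 : ℂ))

theorem eb_swap (a b : Fin n) : eb b * eb a = - (eb a * eb b) := by
  have := ExteriorAlgebra.ι_add_mul_swap (R := ℂ) (Pi.single a (1 : ℂ) : Fin n → ℂ)
    (Pi.single b (1 : ℂ))
  unfold eb
  rw [eq_neg_iff_add_eq_zero, add_comm]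
  exact this

/-- A vector over `R` as an odd element. -/
noncomputable def Yv (y : Fin n → R) : R ⊗[ℂ] ExteriorAlgebra ℂ (Fin n → ℂ) :=
  ∑ a, y a ⊗ₜ eb a

/-- a tensor as an even element -/
noncomputable def Psi : (Fin n → Fin n → R) →ₗ[ℂ] R ⊗[ℂ] ExteriorAlgebra ℂ (Fin n → ℂ) where
  toFun f := ∑ a, ∑ b, f a b ⊗ₜ (eb a * eb b)
  map_add' f g := by simp [TensorProduct.add_tmul, Finset.sum_add_distrib]
  map_smul' c f := by simp [TensorProduct.smul_tmul', Finset.smul_sum]

theorem Yv_mul (y z : Fin n → R) : Yv y * Yv z = Psi (fun a b => y a * z b) := by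
  simp [Yv, Psi, Finset.sum_mul, Finset.mul_sum, Algebra.TensorProduct.tmul_mul_tmul]
  rw [Finset.sum_comm]

theorem Yv_anti (y z : Fin n → R) :
    Yv y * Yv z + Yv z * Yv y = Psi (fun a b => y a * z b - z b * y a) := by
  have h1 : Yv z * Yv y = Psi (fun a b => - (z b * y a)) := by
    rw [Yv_mul]
    simp only [Psi, LinearMap.coe_mk, AddHom.coe_mk]
    rw [Finset.sum_comm]
    refine Finset.sum_congr rfl fun a _ => Finset.sum_congr rfl fun b _ => ?_
    rw [eb_swap, TensorProduct.tmul_neg, TensorProduct.neg_tmul]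
  rw [h1, Yv_mul, ← map_add]
  congr 1
  funext a b
  simp [sub_eq_add_neg]

/-- A word in the letters `E^s v_j`. -/
noncomputable def word (E : Matrix (Fin n) (Fin n) R) (v : Fin m → Fin n → R)
    (L : List (ℕ × Fin m)) : R ⊗[ℂ] ExteriorAlgebra ℂ (Fin n → ℂ) :=
  (L.map fun p => Yv (lett E v p)).prod

/-- total degree -/
def deg (L : List (ℕ × Fin m)) : ℕ := (L.map Prod.fst).sum

/-- span of words of length `N` and degree `< D` -/
noncomputable def W0 (E : Matrix (Fin n) (Fin n) R) (v : Fin m → Fin n → R) (N D : ℕ) :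
    Submodule ℂ (R ⊗[ℂ] ExteriorAlgebra ℂ (Fin n → ℂ)) :=
  Submodule.span ℂ {x | ∃ L : List (ℕ × Fin m), L.length = N ∧ deg L < D ∧ x = word E v L}

theorem word_nil : word E v [] = 1 := by simp [word]
theorem word_cons (p : ℕ × Fin m) (L : List (ℕ × Fin m)) :
    word E v (p :: L) = Yv (lett E v p) * word E v L := by simp [word]
theorem word_append (L L' : List (ℕ × Fin m)) :
    word E v (L ++ L') = word E v L * word E v L' := by simp [word]
theorem deg_nil : deg ([] : List (ℕ × Fin m)) = 0 := by simp [deg]
theorem deg_cons (p : ℕ × Fin m) (L : List (ℕ × Fin m)) :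
    deg (p :: L) = p.1 + deg L := by simp [deg]

theorem W0_cons {N D : ℕ} (p : ℕ × Fin m) {x} (hx : x ∈ W0 E v N D) :
    Yv (lett E v p) * x ∈ W0 E v (N + 1) (p.1 + D) := by
  induction hx using Submodule.span_induction with
  | mem x hx =>
    obtain ⟨L, hL, hD, rfl⟩ := hx
    exact Submodule.subset_span ⟨p :: L, by simp [hL], by rw [deg_cons]; omega, (word_cons _ _).symm⟩
  | zero => rw [mul_zero]; exact Submodule.zero_mem _
  | add x y _ _ hx hy => rw [mul_add]; exact Submodule.add_mem _ hx hy
  | smul c x _ hx => rw [mul_smul_comm]; exact Submodule.smul_mem _ _ hx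

theorem W0_mul_word {N D : ℕ} (L : List (ℕ × Fin m)) {x} (hx : x ∈ W0 E v N D) :
    x * word E v L ∈ W0 E v (N + L.length) (D + deg L) := by
  induction hx using Submodule.span_induction with
  | mem x hx =>
    obtain ⟨L', hL, hD, rfl⟩ := hx
    refine Submodule.subset_span ⟨L' ++ L, by simp [hL], ?_, (word_append _ _).symm⟩
    simp only [deg, List.map_append, List.sum_append] at hD ⊢
    omega
  | zero => rw [zero_mul]; exact Submodule.zero_mem _
  | add x y _ _ hx hy => rw [add_mul]; exact Submodule.add_mem _ hx hy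
  | smul c x _ hx => rw [smul_mul_assoc]; exact Submodule.smul_mem _ _ hx

theorem Psi_Cl {d : ℕ} {f : Fin n → Fin n → R} (hf : f ∈ Cl E v d) : Psi f ∈ W0 E v 2 d := by
  induction hf using Submodule.span_induction with
  | mem f hf =>
    obtain ⟨p, p', hp, rfl⟩ := hf
    refine Submodule.subset_span ⟨[p, p'], rfl, by simpa [deg] using hp, ?_⟩
    rw [← Yv_mul]
    simp [word]
  | zero => rw [map_zero]; exact Submodule.zero_mem _
  | add x y _ _ hx hy => rw [map_add]; exact Submodule.add_mem _ hx hy
  | smul c x _ hx => rw [map_smul]; exact Submodule.smul_mem _ _ hx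

theorem Y_anti (h : VRel κ E v) (p t : ℕ × Fin m) :
    Yv (lett E v p) * Yv (lett E v t) + Yv (lett E v t) * Yv (lett E v p) ∈
      W0 E v 2 (p.1 + t.1) := by
  rw [Yv_anti]
  exact Psi_Cl (comm2_mem h _ p t rfl)

theorem word_perm (h : VRel κ E v) {L L' : List (ℕ × Fin m)} (hL : L.Perm L') :
    ∃ ε : ℤˣ, word E v L - (ε : ℤ) • word E v L' ∈ W0 E v L.length (deg L) := by
  induction hL with
  | nil => exact ⟨1, by simp⟩
  | @cons x l₁ l₂ _ ih =>
    obtain ⟨ε, hε⟩ := ih
    refine ⟨ε, ?_⟩
    rw [word_cons, word_cons, List.length_cons, deg_cons]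
    have := W0_cons x hε
    rwa [mul_sub, mul_smul_comm] at this
  | swap x y l =>
    refine ⟨-1, ?_⟩
    rw [word_cons, word_cons, word_cons, word_cons, List.length_cons, List.length_cons, deg_cons,
      deg_cons]
    have := W0_mul_word l (Y_anti h y x)
    have e1 : Yv (lett E v y) * (Yv (lett E v x) * word E v l) -
        (((-1 : ℤˣ) : ℤˣ) : ℤ) • (Yv (lett E v x) * (Yv (lett E v y) * word E v l)) =
        (Yv (lett E v y) * Yv (lett E v x) + Yv (lett E v x) * Yv (lett E v y)) * word E v l := by
      simp only [Units.val_neg, Units.val_one, neg_smul, one_smul, sub_neg_eq_add]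
      noncomm_ring
    rw [e1]
    convert this using 2
    · omega
    · omega
  | @trans l₁ l₂ l₃ h12 _ ih1 ih2 =>
    obtain ⟨ε, hε⟩ := ih1
    obtain ⟨δ, hδ⟩ := ih2
    refine ⟨ε * δ, ?_⟩
    have hd : deg l₁ = deg l₂ := (h12.map Prod.fst).sum_eq
    have hl : l₁.length = l₂.length := h12.length_eq
    have : word E v l₁ - ((ε * δ : ℤˣ) : ℤ) • word E v l₃ =
        (word E v l₁ - (ε : ℤ) • word E v l₂) +
        (ε : ℤ) • (word E v l₂ - (δ : ℤ) • word E v l₃) := by
      rw [smul_sub, smul_smul, Units.val_mul]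
      abel
    rw [this]
    refine Submodule.add_mem _ hε ?_
    rw [hd, hl]
    exact zsmul_mem hδ _

/-- The smallest possible degree of a word of `N` distinct letters. -/
def Dmin (m N : ℕ) : ℕ := ∑ k ∈ Finset.range N, k / m

theorem Dmin_succ (m N : ℕ) : Dmin m (N + 1) = Dmin m N + N / m := by
  simp [Dmin, Finset.sum_range_succ]

theorem Dmin_le_sum (m : ℕ) : ∀ (N : ℕ) (S : Finset (ℕ × Fin m)), S.card = N →
    Dmin m N ≤ ∑ p ∈ S, p.1 := by
  intro N
  induction N with
  | zero => intro S _; simp [Dmin]
  | succ N ih =>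
    intro S hS
    have hne : S.Nonempty := by
      rw [← Finset.card_pos]; omega
    obtain ⟨p, hp, hmax⟩ := S.exists_max_image (fun p => p.1) hne
    have hm : 0 < m := p.2.pos
    have hcard : S.card ≤ (p.1 + 1) * m := by
      have hsub : S ⊆ (Finset.range (p.1 + 1)) ×ˢ (Finset.univ : Finset (Fin m)) := by
        intro x hx
        simp only [Finset.mem_product, Finset.mem_range, Finset.mem_univ, and_true]
        exact Nat.lt_succ_of_le (hmax x hx)
      calc S.card ≤ _ := Finset.card_le_card hsub
        _ = (p.1 + 1) * m := by simp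
    have hdiv : N / m ≤ p.1 := by
      have : N / m < p.1 + 1 := by
        rw [Nat.div_lt_iff_lt_mul hm]; omega
      omega
    have herase := ih (S.erase p) (by rw [Finset.card_erase_of_mem hp, hS]; rfl)
    rw [Dmin_succ, ← Finset.add_sum_erase S _ hp]
    omega

theorem Dmin_le_deg {L : List (ℕ × Fin m)} (hL : L.Nodup) : Dmin m L.length ≤ deg L := by
  have h1 := Dmin_le_sum m L.length L.toFinset (List.toFinset_card_of_nodup hL)
  rwa [List.sum_toFinset _ hL] at h1

theorem exists_perm_dup {α : Type*} {L : List α} (hL : ¬ L.Nodup) :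
    ∃ a L', L.Perm (a :: a :: L') := by
  classical
  rw [List.nodup_iff_sublist] at hL
  push Not at hL
  obtain ⟨a, ha⟩ := hL
  refine ⟨a, L.diff [a, a], ?_⟩
  have := (List.subperm_append_diff_self_of_count_le (l₁ := [a, a]) (l₂ := L) ?_)
  · exact this.symm
  · intro x hx
    exact ha.count_le x

/-- Words of degree smaller than the minimal one vanish. -/
theorem word_eq_zero (h : VRel κ E v) : ∀ (D : ℕ) (L : List (ℕ × Fin m)), deg L = D →
    D < Dmin m L.length → word E v L = 0 := by
  intro D
  induction D using Nat.strong_induction_on with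
  | _ D ih =>
    intro L hD hlt
    have hW : ∀ x ∈ W0 E v L.length (deg L), x = 0 := by
      intro x hx
      induction hx using Submodule.span_induction with
      | mem x hx =>
        obtain ⟨L', hL', hD', rfl⟩ := hx
        exact ih (deg L') (by omega) L' rfl (by rw [hL']; omega)
      | zero => rfl
      | add x y _ _ hx hy => rw [hx, hy, add_zero]
      | smul c x _ hx => rw [hx, smul_zero]
    have hnd : ¬ L.Nodup := by
      intro hnd
      have := Dmin_le_deg hnd
      omega
    obtain ⟨a, L', hperm⟩ := exists_perm_dup hnd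
    obtain ⟨ε, hε⟩ := word_perm h hperm
    have h1 := hW _ hε
    have h2 : word E v (a :: a :: L') = 0 := by
      have h3 := W0_mul_word L' (Y_anti h a a)
      have h4 : (2 : ℂ) • word E v (a :: a :: L') = (Yv (lett E v a) * Yv (lett E v a) +
          Yv (lett E v a) * Yv (lett E v a)) * word E v L' := by
        rw [word_cons, word_cons, two_smul, add_mul, mul_assoc]
      have h5 : (2 : ℂ) • word E v (a :: a :: L') = 0 := by
        apply hW
        rw [h4]
        have e1 : L.length = 2 + L'.length := by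
          rw [hperm.length_eq]; simp; omega
        have e2 : deg L = a.1 + a.1 + deg L' := by
          have : deg L = deg (a :: a :: L') := (hperm.map Prod.fst).sum_eq
          rw [this, deg_cons, deg_cons]; omega
        rw [e1, e2]
        exact h3
      have h6 := congrArg (fun x => (1 / 2 : ℂ) • x) h5
      simpa [smul_smul] using h6
    rw [h2, smul_zero, sub_zero] at h1
    exact h1

/-- span of words of length `N` times entries with index `b`, total degree `< D` -/
noncomputable def VV (E : Matrix (Fin n) (Fin n) R) (v : Fin m → Fin n → R) (b : Fin n)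
    (N D : ℕ) : Submodule ℂ (R ⊗[ℂ] ExteriorAlgebra ℂ (Fin n → ℂ)) :=
  Submodule.span ℂ {x | ∃ (L : List (ℕ × Fin m)) (t : ℕ × Fin m), L.length = N ∧
    deg L + t.1 < D ∧ x = word E v L * (lett E v t b ⊗ₜ 1)}

theorem VV_mono {b : Fin n} {N D D' : ℕ} (h : D ≤ D') : VV E v b N D ≤ VV E v b N D' := by
  apply Submodule.span_mono
  rintro f ⟨L, t, hL, hD, rfl⟩
  exact ⟨L, t, hL, by omega, rfl⟩

theorem VV_cons {b : Fin n} {N D : ℕ} (p : ℕ × Fin m) {x} (hx : x ∈ VV E v b N D) :
    Yv (lett E v p) * x ∈ VV E v b (N + 1) (p.1 + D) := by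
  induction hx using Submodule.span_induction with
  | mem x hx =>
    obtain ⟨L, t, hL, hD, rfl⟩ := hx
    exact Submodule.subset_span ⟨p :: L, t, by simp [hL], by rw [deg_cons]; omega,
      by rw [word_cons, mul_assoc]⟩
  | zero => rw [mul_zero]; exact Submodule.zero_mem _
  | add x y _ _ hx hy => rw [mul_add]; exact Submodule.add_mem _ hx hy
  | smul c x _ hx => rw [mul_smul_comm]; exact Submodule.smul_mem _ _ hx

theorem scalar_Y (h : VRel κ E v) (b : Fin n) (t p : ℕ × Fin m) :
    (lett E v t b ⊗ₜ[ℂ] (1 : ExteriorAlgebra ℂ (Fin n → ℂ))) * Yv (lett E v p) -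
      Yv (lett E v p) * (lett E v t b ⊗ₜ 1) ∈ VV E v b 1 (p.1 + t.1) := by
  have h1 : (lett E v t b ⊗ₜ[ℂ] (1 : ExteriorAlgebra ℂ (Fin n → ℂ))) * Yv (lett E v p) -
      Yv (lett E v p) * (lett E v t b ⊗ₜ 1) =
      - ∑ a, (comm2 E v p t a b) ⊗ₜ eb a := by
    simp only [Yv, Finset.mul_sum, Finset.sum_mul, Algebra.TensorProduct.tmul_mul_tmul, one_mul,
      mul_one, comm2]
    rw [← Finset.sum_sub_distrib, ← Finset.sum_neg_distrib]
    refine Finset.sum_congr rfl fun a _ => ?_
    rw [← TensorProduct.sub_tmul, ← TensorProduct.neg_tmul, neg_sub]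
  rw [h1]
  have h2 : ∀ (d : ℕ) (f : Fin n → Fin n → R), f ∈ Cl E v d →
      (∑ a, (f a b) ⊗ₜ[ℂ] (eb a : ExteriorAlgebra ℂ (Fin n → ℂ))) ∈ VV E v b 1 d := by
    intro d f hf
    induction hf using Submodule.span_induction with
    | mem f hf =>
      obtain ⟨p, p', hp, rfl⟩ := hf
      refine Submodule.subset_span ⟨[p], p', rfl, by simpa [deg] using hp, ?_⟩
      simp [word, Yv, Finset.sum_mul, Algebra.TensorProduct.tmul_mul_tmul]
    | zero => simp
    | add f g _ _ hf hg =>
      simp only [Pi.add_apply, TensorProduct.add_tmul, Finset.sum_add_distrib]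
      exact Submodule.add_mem _ hf hg
    | smul c f _ hf =>
      simp only [Pi.smul_apply, ← TensorProduct.smul_tmul', ← Finset.smul_sum]
      exact Submodule.smul_mem _ _ hf
  exact Submodule.neg_mem _ (h2 _ _ (comm2_mem h _ p t rfl))

theorem scalar_word (h : VRel κ E v) (b : Fin n) : ∀ (L : List (ℕ × Fin m)) (t : ℕ × Fin m),
    (lett E v t b ⊗ₜ[ℂ] (1 : ExteriorAlgebra ℂ (Fin n → ℂ))) * word E v L -
      word E v L * (lett E v t b ⊗ₜ 1) ∈ VV E v b L.length (deg L + t.1) := by
  intro L
  induction L with
  | nil => intro t; simp [word_nil]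
  | cons p L ih =>
    intro t
    rw [word_cons, List.length_cons, deg_cons]
    have e1 : (lett E v t b ⊗ₜ[ℂ] (1 : ExteriorAlgebra ℂ (Fin n → ℂ))) *
        (Yv (lett E v p) * word E v L) - Yv (lett E v p) * word E v L * (lett E v t b ⊗ₜ 1) =
        ((lett E v t b ⊗ₜ[ℂ] (1 : ExteriorAlgebra ℂ (Fin n → ℂ))) * Yv (lett E v p) -
          Yv (lett E v p) * (lett E v t b ⊗ₜ 1)) * word E v L +
        Yv (lett E v p) * ((lett E v t b ⊗ₜ[ℂ] (1 : ExteriorAlgebra ℂ (Fin n → ℂ))) *
          word E v L - word E v L * (lett E v t b ⊗ₜ 1)) := by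
      noncomm_ring
    rw [e1]
    refine Submodule.add_mem _ ?_ ?_
    · have h2 : ∀ x ∈ VV E v b 1 (p.1 + t.1), x * word E v L ∈
          VV E v b (L.length + 1) (p.1 + deg L + t.1) := by
        intro x hx
        induction hx using Submodule.span_induction with
        | mem x hx =>
          obtain ⟨L1, t', hL1, hD, rfl⟩ := hx
          obtain ⟨p', rfl⟩ := List.length_eq_one_iff.1 hL1
          have e2 : word E v [p'] * (lett E v t' b ⊗ₜ[ℂ] 1) * word E v L =
              Yv (lett E v p') * (((lett E v t' b ⊗ₜ[ℂ]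
                (1 : ExteriorAlgebra ℂ (Fin n → ℂ))) * word E v L -
                word E v L * (lett E v t' b ⊗ₜ 1))) +
              word E v (p' :: L) * (lett E v t' b ⊗ₜ 1) := by
            rw [word_cons p' L, word_cons p' [], word_nil]
            noncomm_ring
          rw [e2]
          simp only [deg, List.map_cons, List.map_nil, List.sum_cons, List.sum_nil] at hD
          refine Submodule.add_mem _ ?_ ?_
          · exact VV_mono (by omega) (VV_cons p' (ih t'))
          · exact Submodule.subset_span ⟨p' :: L, t', by simp, by rw [deg_cons]; omega, rfl⟩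
        | zero => rw [zero_mul]; exact Submodule.zero_mem _
        | add x y _ _ hx hy => rw [add_mul]; exact Submodule.add_mem _ hx hy
        | smul c x _ hx => rw [smul_mul_assoc]; exact Submodule.smul_mem _ _ hx
      exact h2 _ (scalar_Y h b t p)
    · exact VV_mono (by omega) (VV_cons p (ih t))

/-- Words of minimal degree commute with the `v`'s. -/
theorem v_word_comm (h : VRel κ E v) {L : List (ℕ × Fin m)} (hL : deg L = Dmin m L.length)
    (j : Fin m) (b : Fin n) :
    (v j b ⊗ₜ[ℂ] (1 : ExteriorAlgebra ℂ (Fin n → ℂ))) * word E v L =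
      word E v L * (v j b ⊗ₜ 1) := by
  have h1 := scalar_word h b L (0, j)
  have h2 : ∀ x ∈ VV E v b L.length (deg L + 0), x = 0 := by
    intro x hx
    induction hx using Submodule.span_induction with
    | mem x hx =>
      obtain ⟨L', t, hL', hD', rfl⟩ := hx
      rw [word_eq_zero h (deg L') L' rfl (by rw [hL']; omega), zero_mul]
    | zero => rfl
    | add x y _ _ hx hy => rw [hx, hy, add_zero]
    | smul c x _ hx => rw [hx, smul_zero]
  have h3 := h2 _ h1
  rw [lett_zero] at h3
  exact sub_eq_zero.1 h3

end Central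

end Pool.Agent.Helper49.SLnm
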