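import Mathlib
import Pool.Agent.Helper49.SLnm.Central

namespace Pool.Agent.Helper49.SLnm

open Matrix TensorProduct

section Central2

variable {n m : ℕ} {R : Type*} [Ring R] [Algebra ℂ R]

/-- the multilinear map `x ↦ ∏_k (∑_a x_k(a) y_k(a))`. -/
noncomputable def TT (y : Fin n → Fin n → R) :
    MultilinearMap ℂ (fun _ : Fin n => (Fin n → ℂ)) R :=
  (MultilinearMap.mkPiAlgebraFin ℂ n R).compLinearMap
    (fun k => ∑ a, (LinearMap.proj a : (Fin n → ℂ) →ₗ[ℂ] ℂ).smulRight (y k a))

theorem TT_apply (y : Fin n → Fin n → R) (x : Fin n → (Fin n → ℂ)) :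
    TT y x = (List.ofFn fun k => ∑ a, x k a • y k a).prod := by
  simp [TT, MultilinearMap.compLinearMap_apply, MultilinearMap.mkPiAlgebraFin_apply]

/-- standard basis -/
def ee (n : ℕ) (k : Fin n) : Fin n → ℂ := Pi.single k 1

theorem TT_basis (y : Fin n → Fin n → R) (a : Fin n → Fin n) :
    TT y (fun k => ee n (a k)) = (List.ofFn fun k => y k (a k)).prod := by
  rw [TT_apply]
  congr 2
  funext k
  simp [ee, Pi.single_apply, ite_smul]

theorem colDet_eq (y : Fin n → Fin n → R) :
    colDet y = MultilinearMap.alternatization (TT y) (ee n) := by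
  rw [MultilinearMap.alternatization_apply]
  unfold colDet
  refine Finset.sum_congr rfl fun σ _ => ?_
  rw [MultilinearMap.domDomCongr_apply, ← TT_basis]
  rfl

omit [Algebra ℂ R] in
theorem prod_comm_sum : ∀ (N : ℕ) (X : R) (a : Fin N → R),
    X * (List.ofFn a).prod - (List.ofFn a).prod * X =
      ∑ k, (List.ofFn (Function.update a k (X * a k - a k * X))).prod := by
  intro N
  induction N with
  | zero => intro X a; simp
  | succ N ih =>
    intro X a
    rw [Fin.sum_univ_succ]
    have h0 : (List.ofFn (Function.update a 0 (X * a 0 - a 0 * X))).prod =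
        (X * a 0 - a 0 * X) * (List.ofFn fun i : Fin N => a i.succ).prod := by
      rw [List.ofFn_succ, List.prod_cons, Function.update_self]
      congr 3
    have h1 : ∀ k : Fin N, (List.ofFn (Function.update a k.succ
        (X * a k.succ - a k.succ * X))).prod = a 0 * (List.ofFn (Function.update
          (fun i : Fin N => a i.succ) k (X * a k.succ - a k.succ * X))).prod := by
      intro k
      rw [List.ofFn_succ, List.prod_cons, Function.update_of_ne (Fin.succ_ne_zero k).symm]
      congr 3
      funext i
      simp [Function.update_apply]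
    rw [h0, Finset.sum_congr rfl fun k _ => h1 k, ← Finset.mul_sum, ← ih X fun i => a i.succ,
      List.ofFn_succ, List.prod_cons]
    noncomm_ring

/-- The `sl_n`-invariance of the column determinant of vectors transforming as the standard
representation. -/
theorem colDet_inv {κ : ℂ} (hκ : (n : ℂ) * κ = 1) (y : Fin n → Fin n → R) (X : R) (c d : Fin n)
    (hX : ∀ k a, X * y k a - y k a * X =
      (if d = a then y k c else 0) - κ • (if c = d then y k a else 0)) :
    X * colDet y = colDet y * X := by
  set f : (Fin n → ℂ) → (Fin n → ℂ) := fun x => x d • ee n c with hf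
  set δ : ℂ := if c = d then κ else 0 with hδ
  -- commutator on T
  have h1 : ∀ x : Fin n → (Fin n → ℂ), X * TT y x - TT y x * X =
      ∑ k, (TT y (Function.update x k (f (x k))) - δ • TT y x) := by
    intro x
    conv_lhs => rw [TT_apply, prod_comm_sum]
    refine Finset.sum_congr rfl fun k _ => ?_
    have h2 : X * (∑ a, x k a • y k a) - (∑ a, x k a • y k a) * X =
        (∑ a, (f (x k)) a • y k a) - δ • (∑ a, x k a • y k a) := by
      rw [Finset.mul_sum, Finset.sum_mul, ← Finset.sum_sub_distrib]
      have h3 : ∀ a, X * (x k a • y k a) - (x k a • y k a) * X =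
          x k a • (if d = a then y k c else 0) - x k a • κ • (if c = d then y k a else 0) := by
        intro a
        rw [mul_smul_comm, smul_mul_assoc, ← smul_sub, hX, smul_sub]
      rw [Finset.sum_congr rfl fun a _ => h3 a, Finset.sum_sub_distrib]
      congr 1
      · simp [hf, ee, Pi.single_apply]
      · rw [Finset.smul_sum]
        refine Finset.sum_congr rfl fun a _ => ?_
        rw [hδ]
        split_ifs with h
        · rw [smul_comm]
        · simp
    have h4 : δ • TT y x = TT y (Function.update x k (δ • x k)) := by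
      rw [MultilinearMap.map_update_smul, Function.update_eq_self]
    rw [h4, ← MultilinearMap.map_update_sub, TT_apply]
    congr 2
    funext i
    by_cases hi : i = k
    · subst hi
      rw [Function.update_self, Function.update_self, h2]
      simp only [Pi.sub_apply, Pi.smul_apply, sub_smul, Finset.sum_sub_distrib, Finset.smul_sum,
        smul_eq_mul, mul_smul]
    · rw [Function.update_of_ne hi, Function.update_of_ne hi]
  rw [← sub_eq_zero, colDet_eq]
  rw [MultilinearMap.alternatization_apply, Finset.mul_sum, Finset.sum_mul,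
    ← Finset.sum_sub_distrib]
  have h5 : ∀ σ : Equiv.Perm (Fin n),
      X * (Equiv.Perm.sign σ • (TT y).domDomCongr σ (ee n)) -
        (Equiv.Perm.sign σ • (TT y).domDomCongr σ (ee n)) * X =
      (∑ j, Equiv.Perm.sign σ • (TT y).domDomCongr σ (Function.update (ee n) j (f (ee n j)))) -
        ((n : ℂ) * δ) • (Equiv.Perm.sign σ • (TT y).domDomCongr σ (ee n)) := by
    intro σ
    have e1 := h1 (fun k => ee n (σ k))
    rw [Finset.sum_sub_distrib] at e1
    simp only [Finset.sum_const, Finset.card_univ, Fintype.card_fin] at e1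
    have e2 : ∑ k, TT y (Function.update (fun k => ee n (σ k)) k (f (ee n (σ k)))) =
        ∑ j, (TT y).domDomCongr σ (Function.update (ee n) j (f (ee n j))) := by
      rw [← Equiv.sum_comp σ (fun j => (TT y).domDomCongr σ
        (Function.update (ee n) j (f (ee n j))))]
      refine Finset.sum_congr rfl fun k _ => ?_
      rw [MultilinearMap.domDomCongr_apply]
      congr 1
      funext i
      by_cases hi : i = k
      · subst hi; simp
      · have : σ i ≠ σ k := fun h => hi (σ.injective h)
        rw [Function.update_of_ne hi, Function.update_of_ne this]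
    rw [e2] at e1
    have e3 : (TT y).domDomCongr σ (ee n) = TT y (fun k => ee n (σ k)) := by
      rw [MultilinearMap.domDomCongr_apply]
    rw [e3, mul_smul_comm, smul_mul_assoc, ← smul_sub, e1, smul_sub, ← Finset.smul_sum]
    congr 1
    rw [smul_comm, ← Nat.cast_smul_eq_nsmul ℂ, smul_comm (Equiv.Perm.sign σ) δ, smul_smul]
  rw [Finset.sum_congr rfl fun σ _ => h5 σ, Finset.sum_sub_distrib, Finset.sum_comm,
    ← Finset.smul_sum]
  have h6 : ∀ x : Fin n → (Fin n → ℂ), ∑ σ : Equiv.Perm (Fin n), Equiv.Perm.sign σ •
      (TT y).domDomCongr σ x = MultilinearMap.alternatization (TT y) x := by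
    intro x
    rw [MultilinearMap.alternatization_apply]
  simp only [h6]
  have h7 : ∀ j, j ≠ d → MultilinearMap.alternatization (TT y)
      (Function.update (ee n) j (f (ee n j))) = 0 := by
    intro j hj
    have : f (ee n j) = 0 := by
      simp [hf, ee, hj.symm]
    rw [this]
    exact AlternatingMap.map_update_zero _ _ _
  rw [Finset.sum_eq_single d (fun j _ hj => h7 j hj) (by simp)]
  have h8 : f (ee n d) = ee n c := by simp [hf, ee]
  rw [h8]
  by_cases hcd : c = d
  · subst hcd
    rw [Function.update_eq_self, hδ, if_pos rfl, hκ, one_smul, sub_self]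
  · rw [AlternatingMap.map_update_self _ _ (Ne.symm hcd), hδ, if_neg hcd]
    simp

/-- extraction of the top exterior coefficient -/
noncomputable def topc (n : ℕ) : ExteriorAlgebra ℂ (Fin n → ℂ) →ₗ[ℂ] ℂ :=
  ExteriorAlgebra.liftAlternating (Pi.single n (Matrix.detRowAlternating (n := Fin n) (R := ℂ)))

theorem topc_multi (x : Fin n → (Fin n → ℂ)) :
    topc n (ExteriorAlgebra.ιMulti ℂ n x) = Matrix.det (Matrix.of x) := by
  unfold topc
  rw [ExteriorAlgebra.liftAlternating_apply_ιMulti, Pi.single_eq_same]
  rfl

/-- extraction with coefficients -/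
noncomputable def evR : R ⊗[ℂ] ExteriorAlgebra ℂ (Fin n → ℂ) →ₗ[ℂ] R :=
  (TensorProduct.rid ℂ R).toLinearMap ∘ₗ (LinearMap.lTensor R (topc n))

theorem evR_tmul (r : R) (x : ExteriorAlgebra ℂ (Fin n → ℂ)) :
    evR (r ⊗ₜ[ℂ] x) = topc n x • r := by
  simp [evR]

theorem evR_left (u : R) (x : R ⊗[ℂ] ExteriorAlgebra ℂ (Fin n → ℂ)) :
    evR ((u ⊗ₜ[ℂ] 1) * x) = u * evR x := by
  induction x using TensorProduct.induction_on with
  | zero => simp
  | tmul r y => rw [Algebra.TensorProduct.tmul_mul_tmul, evR_tmul, evR_tmul, one_mul,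
      mul_smul_comm]
  | add x y hx hy => rw [mul_add, map_add, map_add, hx, hy, mul_add]

theorem evR_right (u : R) (x : R ⊗[ℂ] ExteriorAlgebra ℂ (Fin n → ℂ)) :
    evR (x * (u ⊗ₜ[ℂ] 1)) = evR x * u := by
  induction x using TensorProduct.induction_on with
  | zero => simp
  | tmul r y => rw [Algebra.TensorProduct.tmul_mul_tmul, evR_tmul, evR_tmul, mul_one,
      smul_mul_assoc]
  | add x y hx hy => rw [add_mul, map_add, map_add, hx, hy, add_mul]

theorem prod_ofFn_tmul : ∀ (N : ℕ) (r : Fin N → R) (x : Fin N → ExteriorAlgebra ℂ (Fin n → ℂ)),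
    (List.ofFn fun k => r k ⊗ₜ[ℂ] x k).prod = (List.ofFn r).prod ⊗ₜ[ℂ] (List.ofFn x).prod := by
  intro N
  induction N with
  | zero => intro r x; simp [Algebra.TensorProduct.one_def]
  | succ N ih =>
    intro r x
    rw [List.ofFn_succ, List.ofFn_succ, List.ofFn_succ, List.prod_cons, List.prod_cons,
      List.prod_cons, ih, Algebra.TensorProduct.tmul_mul_tmul]

theorem sum_fun_eq_sum_perm {A : Type*} [AddCommMonoid A] (g : (Fin n → Fin n) → A)
    (hg : ∀ a, ¬ Function.Injective a → g a = 0) :
    ∑ a, g a = ∑ σ : Equiv.Perm (Fin n), g σ := by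
  classical
  rw [← Finset.sum_subset (Finset.subset_univ (Finset.univ.filter Function.Bijective))]
  · refine Finset.sum_bij (fun p h => Equiv.ofBijective p (Finset.mem_filter.1 h).2) ?_ ?_ ?_ ?_
    · intro a _; exact Finset.mem_univ _
    · intro a ha b hb hab
      have := congrArg (fun e : Equiv.Perm (Fin n) => (e : Fin n → Fin n)) hab
      simpa using this
    · intro σ _
      exact ⟨σ, Finset.mem_filter.2 ⟨Finset.mem_univ _, σ.bijective⟩, by ext; rfl⟩
    · intro a ha; rfl
  · intro a _ ha
    apply hg
    intro hinj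
    exact ha (Finset.mem_filter.2 ⟨Finset.mem_univ _, Finite.injective_iff_bijective.1 hinj⟩)

theorem evR_prod (y : Fin n → Fin n → R) :
    evR (List.ofFn fun k => Yv (y k)).prod = colDet y := by
  have h1 : (List.ofFn fun k => Yv (y k)).prod =
      ∑ a : Fin n → Fin n, (List.ofFn fun k => (y k (a k) ⊗ₜ[ℂ]
        (eb (a k) : ExteriorAlgebra ℂ (Fin n → ℂ)))).prod := by
    have := (MultilinearMap.mkPiAlgebraFin ℂ n (R ⊗[ℂ] ExteriorAlgebra ℂ (Fin n → ℂ))).map_sum
      (fun k (a : Fin n) => (y k a ⊗ₜ[ℂ] (eb a : ExteriorAlgebra ℂ (Fin n → ℂ))))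
    simpa only [MultilinearMap.mkPiAlgebraFin_apply, Yv] using this
  rw [h1, map_sum]
  have h2 : ∀ a : Fin n → Fin n, evR (List.ofFn fun k => (y k (a k) ⊗ₜ[ℂ]
        (eb (a k) : ExteriorAlgebra ℂ (Fin n → ℂ)))).prod =
      (Matrix.detRowAlternating (n := Fin n) (R := ℂ) (fun k => ee n (a k))) •
        (List.ofFn fun k => y k (a k)).prod := by
    intro a
    rw [prod_ofFn_tmul, evR_tmul]
    congr 1
    have := topc_multi (n := n) (fun k => ee n (a k))
    rw [ExteriorAlgebra.ιMulti_apply] at this
    exact this
  rw [Finset.sum_congr rfl fun a _ => h2 a, sum_fun_eq_sum_perm]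
  · unfold colDet
    refine Finset.sum_congr rfl fun σ _ => ?_
    have h3 : (Matrix.detRowAlternating (n := Fin n) (R := ℂ) (fun k => ee n (σ k))) =
        ((Equiv.Perm.sign σ : ℤˣ) : ℤ) := by
      have := (Matrix.detRowAlternating (n := Fin n) (R := ℂ)).map_perm (ee n) σ
      have h4 : (Matrix.detRowAlternating (n := Fin n) (R := ℂ)) (ee n) = 1 := by
        have : (Matrix.of (ee n)) = 1 := by
          ext i j
          simp [ee, Matrix.one_apply, Pi.single_apply, eq_comm]
        change Matrix.det (Matrix.of (ee n)) = 1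
        rw [this, Matrix.det_one]
      rw [h4] at this
      have h5 : (fun k => ee n (σ k)) = ee n ∘ σ := rfl
      rw [h5, this]
      simp [Units.smul_def]
    rw [h3]
    exact Int.cast_smul_eq_zsmul ℂ _ _
  · intro a ha
    have : (Matrix.detRowAlternating (n := Fin n) (R := ℂ) (fun k => ee n (a k))) = 0 := by
      apply AlternatingMap.map_eq_zero_of_not_injective
      intro hinj
      apply ha
      intro i j hij
      exact hinj (by simp [hij])
    rw [this, zero_smul]

variable {κ : ℂ} {E : Matrix (Fin n) (Fin n) R} {v : Fin m → Fin n → R}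

/-- Column determinants of minimal degree are central. -/
theorem colDet_central (h : VRel κ E v) (hκ : (n : ℂ) * κ = 1) (L : Fin n → ℕ × Fin m)
    (hL : ∑ k, (L k).1 = Dmin m n) :
    (∀ a b, E a b * colDet (fun k => lett E v (L k)) = colDet (fun k => lett E v (L k)) * E a b) ∧
    (∀ j b, v j b * colDet (fun k => lett E v (L k)) = colDet (fun k => lett E v (L k)) * v j b) := by
  constructor
  · intro a b
    apply colDet_inv hκ _ _ a b
    intro k c
    exact lett_vec h _ _ a b c
  · intro j b
    have hw : word E v (List.ofFn L) = (List.ofFn fun k => Yv (lett E v (L k))).prod := by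
      unfold word
      rw [List.map_ofFn]
      rfl
    have hdeg : deg (List.ofFn L) = Dmin m (List.ofFn L).length := by
      rw [List.length_ofFn, ← hL]
      unfold deg
      rw [List.map_ofFn, List.sum_ofFn]
      rfl
    have h1 := v_word_comm h hdeg j b
    have h2 := congrArg evR h1
    rw [evR_left, evR_right, hw, evR_prod] at h2
    exact h2

end Central2

end Pool.Agent.Helper49.SLnm
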