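import Mathlib
import Pool.Agent.Helper49.SLnm.Central2

namespace Pool.Agent.Helper49.SLnm

open Matrix MvPolynomial

section Pbw

attribute [local instance 100] LieRing.ofAssociativeRing

variable {n m : ℕ}

theorem G.coe_smul_fst (c : ℂ) (x : G n m) :
    ((c • x).1 : Matrix (Fin n) (Fin n) ℂ) = c • (x.1 : Matrix (Fin n) (Fin n) ℂ) := rfl

/-- variables: coordinates on `n × n` and `n × m` matrices -/
abbrev Vars (n m : ℕ) := (Fin n × Fin n) ⊕ (Fin n × Fin m)

/-- the polynomial ring of functions -/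
abbrev OO (n m : ℕ) := MvPolynomial (Vars n m) ℂ

/-- the left invariant vector field on generators -/
noncomputable def Dgen (x : G n m) : Vars n m → OO n m
  | .inl (i, j) => ∑ k, X (.inl (i, k)) * C ((x.1 : Matrix (Fin n) (Fin n) ℂ) k j)
  | .inr (i, j) => ∑ k, X (.inl (i, k)) * C (x.2 j k)

/-- the left invariant vector field -/
noncomputable def DD (x : G n m) : Derivation ℂ (OO n m) (OO n m) :=
  MvPolynomial.mkDerivation ℂ (Dgen x)

theorem DD_X (x : G n m) (s : Vars n m) : DD x (X s) = Dgen x s := by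
  simp [DD]

theorem DD_C (x : G n m) (c : ℂ) : DD x (C c) = 0 := by
  rw [← MvPolynomial.algebraMap_eq]
  exact (DD x).map_algebraMap c

theorem DD_add (x y : G n m) : DD (x + y) = DD x + DD y := by
  apply MvPolynomial.derivation_ext
  rintro (⟨i, j⟩ | ⟨i, j⟩)
  · simp [DD_X, Dgen, mul_add, Finset.sum_add_distrib]
  · simp [DD_X, Dgen, mul_add, Finset.sum_add_distrib]

theorem DD_smul (c : ℂ) (x : G n m) : DD (c • x) = c • DD x := by
  apply MvPolynomial.derivation_ext
  rintro (⟨i, j⟩ | ⟨i, j⟩)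
  · simp only [DD_X, Dgen, Derivation.smul_apply, G.coe_smul_fst,
      Matrix.smul_apply, smul_eq_mul, C_mul, Finset.smul_sum, MvPolynomial.smul_eq_C_mul]
    exact Finset.sum_congr rfl fun k _ => by ring
  · simp only [DD_X, Dgen, Derivation.smul_apply, G.smul_snd,
      Matrix.smul_apply, smul_eq_mul, C_mul, Finset.smul_sum, MvPolynomial.smul_eq_C_mul]
    exact Finset.sum_congr rfl fun k _ => by ring

theorem DD_mulC (x : G n m) (p : OO n m) (c : ℂ) : DD x (p * C c) = DD x p * C c := by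
  rw [Derivation.leibniz, DD_C, smul_zero, zero_add, smul_eq_mul, mul_comm]

theorem DD_Dgen_inl (x y : G n m) (i j : Fin n) : DD x (Dgen y (.inl (i, j))) =
    ∑ l, X (.inl (i, l)) * C (((x.1 : Matrix (Fin n) (Fin n) ℂ) * y.1) l j) := by
  unfold Dgen
  rw [map_sum]
  have h1 : ∀ k, DD x (X (.inl (i, k)) * C ((y.1 : Matrix (Fin n) (Fin n) ℂ) k j)) =
      ∑ l, X (.inl (i, l)) * (C ((x.1 : Matrix (Fin n) (Fin n) ℂ) l k) *
        C ((y.1 : Matrix (Fin n) (Fin n) ℂ) k j)) := by
    intro k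
    rw [DD_mulC, DD_X, Dgen, Finset.sum_mul]
    exact Finset.sum_congr rfl fun l _ => mul_assoc _ _ _
  rw [Finset.sum_congr rfl fun k _ => h1 k, Finset.sum_comm]
  refine Finset.sum_congr rfl fun l _ => ?_
  rw [← Finset.mul_sum, Matrix.mul_apply, map_sum]
  congr 1
  exact Finset.sum_congr rfl fun k _ => (C_mul).symm

theorem DD_Dgen_inr (x y : G n m) (i : Fin n) (j : Fin m) : DD x (Dgen y (.inr (i, j))) =
    ∑ l, X (.inl (i, l)) * C ((y.2 * (x.1 : Matrix (Fin n) (Fin n) ℂ)ᵀ) j l) := by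
  unfold Dgen
  rw [map_sum]
  have h1 : ∀ k, DD x (X (.inl (i, k)) * C (y.2 j k)) =
      ∑ l, X (.inl (i, l)) * (C (y.2 j k) * C ((x.1 : Matrix (Fin n) (Fin n) ℂ) l k)) := by
    intro k
    rw [DD_mulC, DD_X, Dgen, Finset.sum_mul]
    refine Finset.sum_congr rfl fun l _ => ?_
    rw [mul_assoc]
    congr 1
    exact mul_comm _ _
  rw [Finset.sum_congr rfl fun k _ => h1 k, Finset.sum_comm]
  refine Finset.sum_congr rfl fun l _ => ?_
  rw [← Finset.mul_sum, Matrix.mul_apply, map_sum]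
  congr 1
  exact Finset.sum_congr rfl fun k _ => (C_mul).symm

theorem DD_lie (x y : G n m) : DD ⁅x, y⁆ = ⁅DD x, DD y⁆ := by
  apply MvPolynomial.derivation_ext
  rintro (⟨i, j⟩ | ⟨i, j⟩)
  · rw [Derivation.commutator_apply, DD_X, DD_X, DD_X, DD_Dgen_inl, DD_Dgen_inl,
      ← Finset.sum_sub_distrib]
    unfold Dgen
    refine Finset.sum_congr rfl fun l _ => ?_
    rw [← mul_sub, ← C_sub]
    rfl
  · rw [Derivation.commutator_apply, DD_X, DD_X, DD_X, DD_Dgen_inr, DD_Dgen_inr,
      ← Finset.sum_sub_distrib]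
    unfold Dgen
    refine Finset.sum_congr rfl fun l _ => ?_
    rw [← mul_sub, ← C_sub]
    rfl

/-- The action of `g` by left invariant vector fields. -/
noncomputable def rhoL (n m : ℕ) : G n m →ₗ⁅ℂ⁆ Module.End ℂ (OO n m) where
  toFun x := (DD x : OO n m →ₗ[ℂ] OO n m)
  map_add' x y := by rw [DD_add]; rfl
  map_smul' c x := by rw [DD_smul]; rfl
  map_lie' {x y} := by
    rw [DD_lie]
    exact Derivation.commutator_coe_linear_map

/-- The action of `U(g)`. -/
noncomputable def rho (n m : ℕ) : U n m →ₐ[ℂ] Module.End ℂ (OO n m) :=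
  UniversalEnvelopingAlgebra.lift ℂ (rhoL n m)

/-- shorthand for the map `g → U(g)` -/
noncomputable abbrev io (x : G n m) : U n m := UniversalEnvelopingAlgebra.ι ℂ x

theorem rho_io (x : G n m) (p : OO n m) : rho n m (io x) p = DD x p := by
  unfold rho io
  rw [UniversalEnvelopingAlgebra.lift_ι_apply]
  rfl

end Pbw

end Pool.Agent.Helper49.SLnm
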