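import Mathlib
import Pool.Agent.Helper49.SLnm.Pbw

namespace Pool.Agent.Helper49.SLnm

open Matrix MvPolynomial

section Sym

variable {n m : ℕ}

/-- the identity point -/
def pt (n m : ℕ) : Vars n m → ℂ
  | .inl (i, j) => if i = j then 1 else 0
  | .inr _ => 0

/-- linear function with differential `c` at the identity, vanishing there -/
noncomputable def lin (c : Vars n m → ℂ) : OO n m := ∑ s, C (c s) * (X s - C (pt n m s))

/-- the linear functional on `g` attached to `c` -/
noncomputable def phi (c : Vars n m → ℂ) (x : G n m) : ℂ :=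
  (∑ i, ∑ j, c (.inl (i, j)) * (x.1 : Matrix (Fin n) (Fin n) ℂ) i j) +
    ∑ i, ∑ j, c (.inr (i, j)) * x.2 j i

theorem phi_add (c : Vars n m → ℂ) (x y : G n m) : phi c (x + y) = phi c x + phi c y := by
  simp [phi, mul_add, Finset.sum_add_distrib]
  ring

theorem phi_smul (c : Vars n m → ℂ) (a : ℂ) (x : G n m) : phi c (a • x) = a * phi c x := by
  simp only [phi, G.coe_smul_fst, G.smul_snd, Matrix.smul_apply, smul_eq_mul, mul_add,
    Finset.mul_sum]
  congr 1
  · refine Finset.sum_congr rfl fun i _ => Finset.sum_congr rfl fun j _ => by ring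
  · refine Finset.sum_congr rfl fun i _ => Finset.sum_congr rfl fun j _ => by ring

theorem eval_pt_lin (c : Vars n m → ℂ) : eval (pt n m) (lin c) = 0 := by
  simp [lin]

theorem eval_pt_Dgen_inl (x : G n m) (i j : Fin n) :
    eval (pt n m) (Dgen x (.inl (i, j))) = (x.1 : Matrix (Fin n) (Fin n) ℂ) i j := by
  simp [Dgen, pt]

theorem eval_pt_Dgen_inr (x : G n m) (i : Fin n) (j : Fin m) :
    eval (pt n m) (Dgen x (.inr (i, j))) = x.2 j i := by
  simp [Dgen, pt]

theorem DD_lin (c : Vars n m → ℂ) (x : G n m) :
    DD x (lin c) = ∑ s, C (c s) * Dgen x s := by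
  unfold lin
  rw [map_sum]
  refine Finset.sum_congr rfl fun s _ => ?_
  rw [mul_comm, DD_mulC, map_sub, DD_X, DD_C, sub_zero, mul_comm]

theorem eval_DD_lin (c : Vars n m → ℂ) (x : G n m) :
    eval (pt n m) (DD x (lin c)) = phi c x := by
  rw [DD_lin, map_sum, Fintype.sum_sum_type, Fintype.sum_prod_type, Fintype.sum_prod_type]
  simp only [map_mul, eval_C, eval_pt_Dgen_inl, eval_pt_Dgen_inr]
  rfl

/-- the ideal of functions vanishing at the identity -/
noncomputable def mm (n m : ℕ) : Ideal (OO n m) := RingHom.ker (eval (pt n m))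

theorem der_pow {A : Type*} [CommRing A] [Algebra ℂ A] (D : Derivation ℂ A A) (I : Ideal A) :
    ∀ (k : ℕ) (r : A), r ∈ I ^ (k + 1) → D r ∈ I ^ k := by
  intro k
  induction k with
  | zero => intro r _; simp
  | succ k ih =>
    intro r hr
    rw [pow_succ] at hr
    induction hr using Submodule.mul_induction_on' with
    | mem_mul_mem a ha b hb =>
      rw [Derivation.leibniz]
      refine Ideal.add_mem _ ?_ ?_
      · exact Ideal.mul_mem_right _ _ ha
      · rw [smul_eq_mul, mul_comm b, pow_succ]
        exact Ideal.mul_mem_mul (ih a ha) hb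
    | add x _ y _ hx hy =>
      rw [map_add]
      exact Ideal.add_mem _ hx hy

theorem rho_prod_pow (c : Vars n m → ℂ) (d : ℕ) : ∀ (l : List (G n m)), l.length ≤ d →
    ∃ r ∈ mm n m ^ (d - l.length + 1), rho n m ((l.map io).prod) (lin c ^ d) =
      (d.descFactorial l.length : ℂ) • (lin c ^ (d - l.length) *
        (l.map fun x => DD x (lin c)).prod) + r := by
  intro l
  induction l with
  | nil => intro _; exact ⟨0, Submodule.zero_mem _, by simp⟩
  | cons x l ih =>
    intro hl
    rw [List.length_cons] at hl
    obtain ⟨r, hr, h⟩ := ih (by omega)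
    obtain ⟨k, hk⟩ : ∃ k, d = l.length + k + 1 := ⟨d - l.length - 1, by omega⟩
    have e1 : d - l.length = k + 1 := by omega
    have e2 : d - (x :: l).length = k := by rw [List.length_cons]; omega
    rw [e1] at hr h
    set Q := (l.map fun x => DD x (lin c)).prod with hQ
    refine ⟨(d.descFactorial l.length : ℂ) • (lin c ^ (k + 1) * DD x Q) + DD x r, ?_, ?_⟩
    · rw [e2]
      have hlin : lin c ^ (k + 1) ∈ mm n m ^ (k + 1) := by
        apply Ideal.pow_mem_pow
        exact eval_pt_lin c
      refine Ideal.add_mem _ ?_ (der_pow _ _ _ _ hr)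
      rw [← MvPolynomial.C_mul']
      exact Ideal.mul_mem_left _ _ (Ideal.mul_mem_right _ _ hlin)
    · rw [List.map_cons, List.prod_cons, map_mul, Module.End.mul_apply, h, rho_io, map_add,
        e2, List.map_cons, List.prod_cons, ← hQ]
      have h2 : DD x ((d.descFactorial l.length : ℂ) • (lin c ^ (k + 1) * Q)) =
          ((d.descFactorial (x :: l).length : ℂ)) • (lin c ^ k * (DD x (lin c) * Q)) +
            (d.descFactorial l.length : ℂ) • (lin c ^ (k + 1) * DD x Q) := by
        rw [Derivation.map_smul, Derivation.leibniz, Derivation.leibniz_pow, List.length_cons,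
          Nat.descFactorial_succ, e1]
        simp only [smul_eq_mul, Nat.add_sub_cancel, nsmul_eq_mul, ← MvPolynomial.C_mul']
        push_cast
        simp only [C_mul, C_add, C_1, map_natCast]
        ring
      rw [h2]
      abel

/-- the degree `d` symbol functional at `c` -/
noncomputable def sym (d : ℕ) (c : Vars n m → ℂ) (u : U n m) : ℂ :=
  (d.factorial : ℂ)⁻¹ * eval (pt n m) (rho n m u (lin c ^ d))

theorem sym_add (d : ℕ) (c : Vars n m → ℂ) (u w : U n m) :
    sym d c (u + w) = sym d c u + sym d c w := by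
  simp [sym, mul_add]

theorem sym_smul (d : ℕ) (c : Vars n m → ℂ) (a : ℂ) (u : U n m) :
    sym d c (a • u) = a * sym d c u := by
  simp [sym]
  ring

theorem sym_zero (d : ℕ) (c : Vars n m → ℂ) : sym d c (0 : U n m) = 0 := by
  simp [sym]

theorem sym_sub (d : ℕ) (c : Vars n m → ℂ) (u w : U n m) :
    sym d c (u - w) = sym d c u - sym d c w := by
  simp [sym, mul_sub]

theorem sym_prod_lt (d : ℕ) (c : Vars n m → ℂ) (l : List (G n m)) (hl : l.length < d) :
    sym d c ((l.map io).prod) = 0 := by
  obtain ⟨r, hr, h⟩ := rho_prod_pow c d l hl.le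
  have hr0 : eval (pt n m) r = 0 := by
    have : r ∈ mm n m := Ideal.pow_le_self (by omega) hr
    exact this
  unfold sym
  rw [h, map_add, hr0, add_zero, ← MvPolynomial.C_mul', map_mul, map_mul, map_pow, eval_pt_lin,
    zero_pow (by omega)]
  ring

theorem sym_prod_eq (c : Vars n m → ℂ) (l : List (G n m)) :
    sym l.length c ((l.map io).prod) = (l.map (phi c)).prod := by
  obtain ⟨r, hr, h⟩ := rho_prod_pow c l.length l le_rfl
  have hr0 : eval (pt n m) r = 0 := by
    have : r ∈ mm n m := Ideal.pow_le_self (by omega) hr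
    exact this
  unfold sym
  rw [h, map_add, hr0, add_zero, ← MvPolynomial.C_mul', map_mul, map_mul, map_pow,
    Nat.sub_self, pow_zero, one_mul, Nat.descFactorial_self, eval_C, map_list_prod,
    List.map_map, ← mul_assoc, inv_mul_cancel₀ (by exact_mod_cast l.length.factorial_ne_zero),
    one_mul]
  congr 1
  apply List.map_congr_left
  intro x _
  exact eval_DD_lin c x

/-- span of products of fewer than `d` elements of `g` -/
noncomputable def FF (n m d : ℕ) : Submodule ℂ (U n m) :=
  Submodule.span ℂ {u | ∃ l : List (G n m), l.length < d ∧ u = (l.map io).prod}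

theorem FF_mono {d d' : ℕ} (h : d ≤ d') : FF n m d ≤ FF n m d' := by
  apply Submodule.span_mono
  rintro u ⟨l, hl, rfl⟩
  exact ⟨l, by omega, rfl⟩

theorem prod_mem_FF {d : ℕ} (l : List (G n m)) (hl : l.length < d) :
    (l.map io).prod ∈ FF n m d := Submodule.subset_span ⟨l, hl, rfl⟩

theorem FF_zero : FF n m 0 = ⊥ := by
  rw [eq_bot_iff]
  apply Submodule.span_le.2
  rintro u ⟨l, hl, rfl⟩
  omega

theorem mul_mem_FF {a b : ℕ} {u w : U n m} (hu : u ∈ FF n m (a + 1)) (hw : w ∈ FF n m (b + 1)) :
    u * w ∈ FF n m (a + b + 1) := by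
  induction hu using Submodule.span_induction with
  | mem u hu =>
    obtain ⟨l, hl, rfl⟩ := hu
    induction hw using Submodule.span_induction with
    | mem w hw =>
      obtain ⟨l', hl', rfl⟩ := hw
      rw [← List.prod_append, ← List.map_append]
      exact prod_mem_FF _ (by rw [List.length_append]; omega)
    | zero => rw [mul_zero]; exact Submodule.zero_mem _
    | add x y _ _ hx hy => rw [mul_add]; exact Submodule.add_mem _ hx hy
    | smul c x _ hx => rw [mul_smul_comm]; exact Submodule.smul_mem _ _ hx
  | zero => rw [zero_mul]; exact Submodule.zero_mem _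
  | add x y _ _ hx hy => rw [add_mul]; exact Submodule.add_mem _ hx hy
  | smul c x _ hx => rw [smul_mul_assoc]; exact Submodule.smul_mem _ _ hx

theorem sym_lt {d : ℕ} (c : Vars n m → ℂ) {u : U n m} (hu : u ∈ FF n m d) : sym d c u = 0 := by
  induction hu using Submodule.span_induction with
  | mem u hu =>
    obtain ⟨l, hl, rfl⟩ := hu
    exact sym_prod_lt d c l hl
  | zero => exact sym_zero _ _
  | add x y _ _ hx hy => rw [sym_add, hx, hy, add_zero]
  | smul a x _ hx => rw [sym_smul, hx, mul_zero]

theorem sym_mul {a b : ℕ} (c : Vars n m → ℂ) {u w : U n m} (hu : u ∈ FF n m (a + 1))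
    (hw : w ∈ FF n m (b + 1)) : sym (a + b) c (u * w) = sym a c u * sym b c w := by
  induction hu using Submodule.span_induction with
  | mem u hu =>
    obtain ⟨l, hl, rfl⟩ := hu
    induction hw using Submodule.span_induction with
    | mem w hw =>
      obtain ⟨l', hl', rfl⟩ := hw
      rcases Nat.lt_succ_iff_lt_or_eq.1 hl with h1 | h1
      · rw [sym_prod_lt a c l h1, zero_mul, ← List.prod_append, ← List.map_append]
        exact sym_prod_lt _ _ _ (by rw [List.length_append]; omega)
      · rcases Nat.lt_succ_iff_lt_or_eq.1 hl' with h2 | h2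
        · rw [sym_prod_lt b c l' h2, mul_zero, ← List.prod_append, ← List.map_append]
          exact sym_prod_lt _ _ _ (by rw [List.length_append]; omega)
        · subst h1 h2
          rw [sym_prod_eq, sym_prod_eq, ← List.prod_append, ← List.map_append,
            ← List.length_append, sym_prod_eq, List.map_append, List.prod_append]
    | zero => rw [mul_zero, sym_zero, sym_zero, mul_zero]
    | add x y _ _ hx hy => rw [mul_add, sym_add, hx, hy, sym_add]; ring
    | smul s x _ hx => rw [mul_smul_comm, sym_smul, hx, sym_smul]; ring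
  | zero => rw [zero_mul, sym_zero, sym_zero, zero_mul]
  | add x y _ _ hx hy => rw [add_mul, sym_add, hx, hy, sym_add]; ring
  | smul s x _ hx => rw [smul_mul_assoc, sym_smul, hx, sym_smul]; ring

theorem sym_io (c : Vars n m → ℂ) (x : G n m) : sym 1 c (io x) = phi c x := by
  have := sym_prod_eq c [x]
  simpa using this

theorem sym_one (c : Vars n m → ℂ) : sym 0 c (1 : U n m) = 1 := by
  have := sym_prod_eq c ([] : List (G n m))
  simpa using this

theorem io_mem (x : G n m) : io x ∈ FF n m 2 := by
  have := prod_mem_FF (d := 2) [x] (by simp)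
  simpa using this

theorem one_mem_FF : (1 : U n m) ∈ FF n m 1 := by
  have := prod_mem_FF (d := 1) ([] : List (G n m)) (by simp)
  simpa using this

end Sym

end Pool.Agent.Helper49.SLnm
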