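import Mathlib
import Pool.Agent.Helper49.SLnm.Sym

namespace Pool.Agent.Helper49.SLnm

open Matrix MvPolynomial

section Inj

variable {n m : ℕ}

attribute [local instance 100] LieRing.ofAssociativeRing

theorem io_lie (x y : G n m) : io ⁅x, y⁆ = io x * io y - io y * io x := by
  unfold io
  rw [LieHom.map_lie, Ring.lie_def]

theorem io_mul_mem {d : ℕ} (x : G n m) {u : U n m} (hu : u ∈ FF n m d) :
    io x * u ∈ FF n m (d + 1) := by
  induction hu using Submodule.span_induction with
  | mem u hu =>
    obtain ⟨l, hl, rfl⟩ := hu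
    have := prod_mem_FF (d := d + 1) (x :: l) (by rw [List.length_cons]; omega)
    simpa using this
  | zero => rw [mul_zero]; exact Submodule.zero_mem _
  | add x y _ _ hx hy => rw [mul_add]; exact Submodule.add_mem _ hx hy
  | smul c x _ hx => rw [mul_smul_comm]; exact Submodule.smul_mem _ _ hx

theorem perm_prod {l1 l2 : List (G n m)} (h : l1.Perm l2) :
    (l1.map io).prod - (l2.map io).prod ∈ FF n m l1.length := by
  induction h with
  | nil => simp
  | @cons x l1 l2 _ ih =>
    rw [List.map_cons, List.map_cons, List.prod_cons, List.prod_cons, ← mul_sub, List.length_cons]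
    exact io_mul_mem x ih
  | swap x y l =>
    have e : ((y :: x :: l).map io).prod - ((x :: y :: l).map io).prod =
        ((⁅y, x⁆ :: l).map io).prod := by
      simp only [List.map_cons, List.prod_cons, io_lie]
      noncomm_ring
    rw [e]
    exact prod_mem_FF _ (by simp)
  | @trans l1 l2 l3 h12 _ ih1 ih2 =>
    have : (l1.map io).prod - (l3.map io).prod =
        ((l1.map io).prod - (l2.map io).prod) + ((l2.map io).prod - (l3.map io).prod) := by abel
    rw [this]
    refine Submodule.add_mem _ ih1 ?_
    rw [h12.length_eq]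
    exact ih2

theorem exists_phi (l : G n m →ₗ[ℂ] ℂ) : ∃ c : Vars n m → ℂ, ∀ x, phi c x = l x := by
  let inl' : (LieAlgebra.SpecialLinear.sl (Fin n) ℂ).toSubmodule →ₗ[ℂ] G n m :=
    { toFun := fun X => ((X, 0) : G n m)
      map_add' := fun X Y => by
        apply G.ext'
        · rfl
        · simp
      map_smul' := fun a X => by
        apply G.ext'
        · rfl
        · simp }
  obtain ⟨g, hg⟩ := LinearMap.exists_extend (l ∘ₗ inl')
  refine ⟨fun s => match s with
    | .inl (i, j) => g (Matrix.single i j 1)
    | .inr (i, j) => l ((0, Matrix.single j i 1) : G n m), ?_⟩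
  intro x
  have h1 : l x = l ((x.1, 0) : G n m) + l ((0, x.2) : G n m) := by
    rw [← map_add]
    congr 1
    apply G.ext'
    · simp
    · simp
  have h2 : l ((x.1, 0) : G n m) = g (x.1 : Matrix (Fin n) (Fin n) ℂ) := by
    have := congrArg (fun f => f x.1) hg
    exact this.symm
  have h3 : g (x.1 : Matrix (Fin n) (Fin n) ℂ) =
      ∑ i, ∑ j, g (Matrix.single i j 1) * (x.1 : Matrix (Fin n) (Fin n) ℂ) i j := by
    conv_lhs => rw [Matrix.matrix_eq_sum_single (x.1 : Matrix (Fin n) (Fin n) ℂ)]
    rw [map_sum]
    refine Finset.sum_congr rfl fun i _ => ?_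
    rw [map_sum]
    refine Finset.sum_congr rfl fun j _ => ?_
    have : Matrix.single i j ((x.1 : Matrix (Fin n) (Fin n) ℂ) i j) =
        ((x.1 : Matrix (Fin n) (Fin n) ℂ) i j) • Matrix.single i j (1 : ℂ) := by
      rw [Matrix.smul_single, smul_eq_mul, mul_one]
    rw [this, map_smul, smul_eq_mul, mul_comm]
  let inr' : Matrix (Fin m) (Fin n) ℂ →ₗ[ℂ] G n m :=
    { toFun := fun w => ((0, w) : G n m)
      map_add' := fun X Y => by
        apply G.ext'
        · simp
        · rfl
      map_smul' := fun a X => by
        apply G.ext'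
        · simp
        · rfl }
  have h4 : l ((0, x.2) : G n m) =
      ∑ i, ∑ j, l ((0, Matrix.single j i 1) : G n m) * x.2 j i := by
    have e : l ((0, x.2) : G n m) = (l ∘ₗ inr') x.2 := rfl
    rw [e]
    conv_lhs => rw [Matrix.matrix_eq_sum_single x.2]
    rw [map_sum, Finset.sum_comm]
    refine Finset.sum_congr rfl fun j _ => ?_
    rw [map_sum]
    refine Finset.sum_congr rfl fun i _ => ?_
    have : Matrix.single j i (x.2 j i) = (x.2 j i) • Matrix.single j i (1 : ℂ) := by
      rw [Matrix.smul_single, smul_eq_mul, mul_one]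
    rw [this, map_smul, smul_eq_mul, mul_comm]
    rfl
  rw [h1, h2, h3, h4]
  rfl

instance : Module.Finite ℂ (G n m) := by
  let f : G n m →ₗ[ℂ] (Matrix (Fin n) (Fin n) ℂ × Matrix (Fin m) (Fin n) ℂ) :=
    { toFun := fun x => ((x.1 : Matrix (Fin n) (Fin n) ℂ), x.2)
      map_add' := fun x y => rfl
      map_smul' := fun a x => rfl }
  apply Module.Finite.of_injective f
  intro x y h
  have h1 : (f x).1 = (f y).1 := by rw [h]
  have h2 : (f x).2 = (f y).2 := by rw [h]
  exact G.ext' (Subtype.ext h1) h2

/-- a basis of `g` -/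
noncomputable def gb (n m : ℕ) : Module.Basis (Fin (Module.finrank ℂ (G n m))) ℂ (G n m) :=
  Module.finBasis ℂ (G n m)

/-- ordered monomial -/
noncomputable def Mon (s : Multiset (Fin (Module.finrank ℂ (G n m)))) : U n m :=
  ((s.toList.map (gb n m)).map io).prod

theorem prod_mem_span_basis (l : List (G n m)) :
    (l.map io).prod ∈ Submodule.span ℂ {u | ∃ k : List (Fin (Module.finrank ℂ (G n m))),
      k.length = l.length ∧ u = ((k.map (gb n m)).map io).prod} := by
  induction l with
  | nil => exact Submodule.subset_span ⟨[], rfl, rfl⟩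
  | cons x l ih =>
    rw [List.map_cons, List.prod_cons]
    have hx : io x = ∑ i, (gb n m).repr x i • io (gb n m i) := by
      conv_lhs => rw [← (gb n m).sum_repr x]
      unfold io
      rw [map_sum]
      refine Finset.sum_congr rfl fun i _ => ?_
      exact (LieHom.toLinearMap (UniversalEnvelopingAlgebra.ι ℂ (L := G n m))).map_smul _ _
    rw [hx, Finset.sum_mul]
    refine Submodule.sum_mem _ fun i _ => ?_
    rw [smul_mul_assoc]
    refine Submodule.smul_mem _ _ ?_
    generalize (l.map io).prod = P at ih
    induction ih using Submodule.span_induction with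
    | mem u hu =>
      obtain ⟨k, hk, rfl⟩ := hu
      exact Submodule.subset_span ⟨i :: k, by simp [hk], by simp⟩
    | zero => rw [mul_zero]; exact Submodule.zero_mem _
    | add x y _ _ hx hy => rw [mul_add]; exact Submodule.add_mem _ hx hy
    | smul c x _ hx => rw [mul_smul_comm]; exact Submodule.smul_mem _ _ hx

theorem FF_succ_le (d : ℕ) : FF n m (d + 1) ≤
    Submodule.span ℂ (Set.range fun s : Sym (Fin (Module.finrank ℂ (G n m))) d =>
      Mon (s : Multiset (Fin (Module.finrank ℂ (G n m))))) ⊔ FF n m d := by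
  apply Submodule.span_le.2
  rintro u ⟨l, hl, rfl⟩
  rcases Nat.lt_succ_iff_lt_or_eq.1 hl with h1 | h1
  · exact Submodule.mem_sup_right (prod_mem_FF l h1)
  · have h2 := prod_mem_span_basis l
    refine (Submodule.span_le.2 ?_ : Submodule.span ℂ _ ≤ _) h2
    rintro u ⟨k, hk, rfl⟩
    have hk' : Multiset.card (k : Multiset (Fin (Module.finrank ℂ (G n m)))) = d := by
      rw [Multiset.coe_card, hk, h1]
    have hperm : (k : List _).Perm (Multiset.toList (k : Multiset _)) := by
      apply Multiset.coe_eq_coe.1
      rw [Multiset.coe_toList]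
    have h3 := perm_prod (hperm.map (gb n m))
    rw [List.length_map, hk, h1] at h3
    have h4 : ((k.map (gb n m)).map io).prod =
        Mon (k : Multiset _) + (((k.map (gb n m)).map io).prod - Mon (k : Multiset _)) := by abel
    rw [h4]
    refine Submodule.add_mem _ (Submodule.mem_sup_left (Submodule.subset_span
      ⟨⟨(k : Multiset _), hk'⟩, rfl⟩)) (Submodule.mem_sup_right ?_)
    exact h3

theorem sym_Mon (c : Vars n m → ℂ) (d : ℕ) (s : Multiset (Fin (Module.finrank ℂ (G n m))))
    (hs : Multiset.card s = d) :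
    sym d c (Mon s) = (s.map fun i => phi c (gb n m i)).prod := by
  unfold Mon
  have h1 : (s.toList.map (gb n m)).length = d := by simp [hs]
  rw [← h1, sym_prod_eq, List.map_map]
  conv_rhs => rw [← Multiset.coe_toList s, Multiset.map_coe, Multiset.prod_coe]
  rfl

theorem prod_X_eq {σ : Type*} (s : Multiset σ) [DecidableEq σ] :
    (s.map (X : σ → MvPolynomial σ ℂ)).prod = monomial (Multiset.toFinsupp s) 1 := by
  induction s using Multiset.induction with
  | empty => simp
  | cons a s ih =>
    rw [Multiset.map_cons, Multiset.prod_cons, ih, X, monomial_mul, one_mul,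
      ← Multiset.singleton_add, map_add, Multiset.toFinsupp_singleton]

theorem sym_inj {d : ℕ} {u : U n m} (hu : u ∈ FF n m (d + 1)) (h : ∀ c, sym d c u = 0) :
    u ∈ FF n m d := by
  obtain ⟨x, hx, r, hr, rfl⟩ := Submodule.mem_sup.1 (FF_succ_le d hu)
  obtain ⟨a, ha⟩ := (Submodule.mem_span_range_iff_exists_fun ℂ).1 hx
  have h1 : ∀ t : Fin (Module.finrank ℂ (G n m)) → ℂ,
      ∑ s : Sym (Fin (Module.finrank ℂ (G n m))) d, a s * ((s : Multiset _).map t).prod = 0 := by
    intro t
    obtain ⟨c, hc⟩ := exists_phi ((gb n m).constr ℂ t)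
    have h2 := h c
    rw [sym_add, sym_lt c hr, add_zero, ← ha] at h2
    have h3 : sym d c (∑ s, a s • Mon (s : Multiset (Fin (Module.finrank ℂ (G n m))))) =
        ∑ s, a s * sym d c (Mon (s : Multiset (Fin (Module.finrank ℂ (G n m))))) := by
      have : ∀ (F : Finset (Sym (Fin (Module.finrank ℂ (G n m))) d)),
          sym d c (∑ s ∈ F, a s • Mon (s : Multiset (Fin (Module.finrank ℂ (G n m))))) =
            ∑ s ∈ F, a s * sym d c (Mon (s : Multiset (Fin (Module.finrank ℂ (G n m))))) := by
        classical
        intro F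
        induction F using Finset.induction_on with
        | empty => simp [sym_zero]
        | insert x F hx ih => rw [Finset.sum_insert hx, Finset.sum_insert hx, sym_add, ih,
            sym_smul]
      exact this _
    rw [h3] at h2
    rw [← h2]
    refine Finset.sum_congr rfl fun s _ => ?_
    rw [sym_Mon c d s s.2]
    congr 2
    apply Multiset.map_congr rfl
    intro i _
    rw [hc, Module.Basis.constr_basis]
  set p : MvPolynomial (Fin (Module.finrank ℂ (G n m))) ℂ :=
    ∑ s : Sym (Fin (Module.finrank ℂ (G n m))) d, C (a s) * ((s : Multiset _).map X).prod with hp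
  have hp0 : p = 0 := by
    apply MvPolynomial.funext
    intro t
    rw [hp, map_sum, map_zero, ← h1 t]
    refine Finset.sum_congr rfl fun s _ => ?_
    rw [map_mul, eval_C, map_multiset_prod, Multiset.map_map]
    congr 3
    funext i
    simp
  have ha0 : ∀ s, a s = 0 := by
    intro s
    have h4 := congrArg (coeff (Multiset.toFinsupp (s : Multiset _))) hp0
    rw [hp, coeff_sum, coeff_zero, Finset.sum_eq_single s] at h4
    · rw [prod_X_eq, coeff_C_mul, coeff_monomial, if_pos rfl, mul_one] at h4
      exact h4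
    · intro t _ hts
      rw [prod_X_eq, coeff_C_mul, coeff_monomial, if_neg, mul_zero]
      intro heq
      exact hts (Subtype.ext (Multiset.toFinsupp.injective heq))
    · intro h'; exact absurd (Finset.mem_univ _) h'
  have hx0 : x = 0 := by
    rw [← ha]
    apply Finset.sum_eq_zero
    intro s _
    rw [ha0, zero_smul]
  rw [hx0, zero_add]
  exact hr

/-- every element of `U(g)` lies in some filtration step -/
theorem exists_mem_FF (u : U n m) : ∃ d, u ∈ FF n m d := by
  obtain ⟨t, rfl⟩ : ∃ t, UniversalEnvelopingAlgebra.mkAlgHom ℂ (G n m) t = u :=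
    RingCon.mk'_surjective _ u
  induction t using TensorAlgebra.induction with
  | algebraMap r =>
    refine ⟨1, ?_⟩
    rw [AlgHom.commutes, Algebra.algebraMap_eq_smul_one]
    exact Submodule.smul_mem _ _ one_mem_FF
  | ι x =>
    exact ⟨2, io_mem x⟩
  | mul a b ha hb =>
    obtain ⟨d, hd⟩ := ha
    obtain ⟨e, he⟩ := hb
    refine ⟨d + e + 1, ?_⟩
    rw [map_mul]
    exact mul_mem_FF (FF_mono (by omega) hd) (FF_mono (by omega) he)
  | add a b ha hb =>
    obtain ⟨d, hd⟩ := ha
    obtain ⟨e, he⟩ := hb
    refine ⟨max d e, ?_⟩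
    rw [map_add]
    exact Submodule.add_mem _ (FF_mono (le_max_left _ _) hd) (FF_mono (le_max_right _ _) he)

end Inj

end Pool.Agent.Helper49.SLnm
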