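import Mathlib
import Pool.Agent.Helper49.SLnm.Inj

namespace Pool.Agent.Helper49.SLnm

open Matrix MvPolynomial

section Inv

variable {n m : ℕ}

theorem comm_list_mem (x : G n m) : ∀ l : List (G n m),
    io x * (l.map io).prod - (l.map io).prod * io x ∈ FF n m (l.length + 1) := by
  intro l
  induction l with
  | nil => simp
  | cons y l ih =>
    have e : io x * ((y :: l).map io).prod - ((y :: l).map io).prod * io x =
        ((⁅x, y⁆ :: l).map io).prod +
          io y * (io x * (l.map io).prod - (l.map io).prod * io x) := by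
      simp only [List.map_cons, List.prod_cons, io_lie]
      noncomm_ring
    rw [e]
    refine Submodule.add_mem _ (prod_mem_FF _ (by simp)) ?_
    rw [List.length_cons]
    exact io_mul_mem y ih

theorem list_hasDeriv (x : G n m) (cc : ℂ → (Vars n m → ℂ)) (t0 : ℂ)
    (hc : ∀ y, HasDerivAt (fun t => phi (cc t) y) (phi (cc t0) ⁅x, y⁆) t0) :
    ∀ l : List (G n m), HasDerivAt (fun t => (l.map (phi (cc t))).prod)
      (sym l.length (cc t0) (io x * (l.map io).prod - (l.map io).prod * io x)) t0 := by
  intro l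
  induction l with
  | nil => simpa [sym_zero] using hasDerivAt_const t0 (1 : ℂ)
  | cons y l ih =>
    have e : io x * ((y :: l).map io).prod - ((y :: l).map io).prod * io x =
        ((⁅x, y⁆ :: l).map io).prod +
          io y * (io x * (l.map io).prod - (l.map io).prod * io x) := by
      simp only [List.map_cons, List.prod_cons, io_lie]
      noncomm_ring
    rw [e, sym_add]
    have h1 : sym (y :: l).length (cc t0) ((⁅x, y⁆ :: l).map io).prod =
        phi (cc t0) ⁅x, y⁆ * (l.map (phi (cc t0))).prod := by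
      have : (y :: l).length = (⁅x, y⁆ :: l).length := by simp
      rw [this, sym_prod_eq, List.map_cons, List.prod_cons]
    have h2 : sym (y :: l).length (cc t0)
        (io y * (io x * (l.map io).prod - (l.map io).prod * io x)) =
        phi (cc t0) y * sym l.length (cc t0)
          (io x * (l.map io).prod - (l.map io).prod * io x) := by
      rw [List.length_cons, add_comm l.length 1, sym_mul (cc t0) (a := 1) (io_mem y)
        (comm_list_mem x l), sym_io]
    rw [h1, h2]
    simp only [List.map_cons, List.prod_cons]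
    exact (hc y).mul ih

theorem sym_hasDeriv (x : G n m) (cc : ℂ → (Vars n m → ℂ)) (t0 : ℂ)
    (hc : ∀ y, HasDerivAt (fun t => phi (cc t) y) (phi (cc t0) ⁅x, y⁆) t0) (d : ℕ)
    {u : U n m} (hu : u ∈ FF n m (d + 1)) :
    HasDerivAt (fun t => sym d (cc t) u) (sym d (cc t0) (io x * u - u * io x)) t0 := by
  induction hu using Submodule.span_induction with
  | mem u hu =>
    obtain ⟨l, hl, rfl⟩ := hu
    rcases Nat.lt_succ_iff_lt_or_eq.1 hl with h1 | h1
    · have h2 : (fun t => sym d (cc t) (l.map io).prod) = fun _ => 0 := by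
        funext t
        exact sym_prod_lt d _ l h1
      have h3 : sym d (cc t0) (io x * (l.map io).prod - (l.map io).prod * io x) = 0 :=
        sym_lt _ (FF_mono (by omega) (comm_list_mem x l))
      rw [h2, h3]
      exact hasDerivAt_const t0 0
    · subst h1
      have h2 : (fun t => sym l.length (cc t) (l.map io).prod) =
          fun t => (l.map (phi (cc t))).prod := by
        funext t
        exact sym_prod_eq _ l
      rw [h2]
      exact list_hasDeriv x cc t0 hc l
  | zero => simpa [sym_zero] using hasDerivAt_const t0 (0 : ℂ)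
  | add u w _ _ hu hw =>
    have e : io x * (u + w) - (u + w) * io x = (io x * u - u * io x) + (io x * w - w * io x) := by
      noncomm_ring
    rw [e, sym_add]
    simp only [sym_add]
    exact hu.add hw
  | smul a u _ hu =>
    have e : io x * (a • u) - (a • u) * io x = a • (io x * u - u * io x) := by
      rw [mul_smul_comm, smul_mul_assoc, smul_sub]
    rw [e, sym_smul]
    simp only [sym_smul]
    exact hu.const_mul a

/-- invariance along a curve, for central elements -/
theorem sym_const (x : G n m) (cc : ℂ → (Vars n m → ℂ))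
    (hc : ∀ t y, HasDerivAt (fun t => phi (cc t) y) (phi (cc t) ⁅x, y⁆) t) (d : ℕ)
    {u : U n m} (hu : u ∈ FF n m (d + 1)) (hx : io x * u = u * io x) (t : ℂ) :
    sym d (cc t) u = sym d (cc 0) u := by
  have h1 : ∀ t, HasDerivAt (fun t => sym d (cc t) u) 0 t := by
    intro t
    have := sym_hasDeriv x cc t (hc t) d hu
    rwa [hx, sub_self, sym_zero] at this
  exact is_const_of_deriv_eq_zero (fun t => (h1 t).differentiableAt) (fun t => (h1 t).deriv) t 0

/-- coordinates of a pair of matrices -/
def cAv (A : Matrix (Fin n) (Fin n) ℂ) (v : Matrix (Fin n) (Fin m) ℂ) : Vars n m → ℂ :=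
  Sum.elim (fun p => A p.1 p.2) (fun p => v p.1 p.2)

theorem phi_cAv (A : Matrix (Fin n) (Fin n) ℂ) (v : Matrix (Fin n) (Fin m) ℂ) (x : G n m) :
    phi (cAv A v) x = (Aᵀ * (x.1 : Matrix (Fin n) (Fin n) ℂ)).trace + (v * x.2).trace := by
  simp only [phi, cAv, Sum.elim_inl, Sum.elim_inr, Matrix.trace, Matrix.diag, Matrix.mul_apply,
    Matrix.transpose_apply]
  congr 1
  rw [Finset.sum_comm]

theorem phi_hasDeriv (cc : ℂ → (Vars n m → ℂ)) (dc : Vars n m → ℂ) (t0 : ℂ)
    (h : ∀ s, HasDerivAt (fun t => cc t s) (dc s) t0) (y : G n m) :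
    HasDerivAt (fun t => phi (cc t) y) (phi dc y) t0 := by
  unfold phi
  refine HasDerivAt.add ?_ ?_
  · refine HasDerivAt.fun_sum fun i _ => HasDerivAt.fun_sum fun j _ => ?_
    exact (h _).mul_const _
  · refine HasDerivAt.fun_sum fun i _ => HasDerivAt.fun_sum fun j _ => ?_
    exact (h _).mul_const _

theorem cAv_hasDeriv {A : ℂ → Matrix (Fin n) (Fin n) ℂ} {v : ℂ → Matrix (Fin n) (Fin m) ℂ}
    {dA : Matrix (Fin n) (Fin n) ℂ} {dv : Matrix (Fin n) (Fin m) ℂ} {t0 : ℂ}
    (hA : ∀ i j, HasDerivAt (fun t => A t i j) (dA i j) t0)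
    (hv : ∀ i j, HasDerivAt (fun t => v t i j) (dv i j) t0) (s : Vars n m) :
    HasDerivAt (fun t => cAv (A t) (v t) s) (cAv dA dv s) t0 := by
  rcases s with ⟨i, j⟩ | ⟨i, j⟩
  · exact hA i j
  · exact hv i j

/-- Invariance under translations. -/
theorem sym_transl (d : ℕ) {u : U n m} (hu : u ∈ FF n m (d + 1))
    (hx : ∀ x : G n m, io x * u = u * io x) (A : Matrix (Fin n) (Fin n) ℂ)
    (v : Matrix (Fin n) (Fin m) ℂ) (w : Matrix (Fin m) (Fin n) ℂ) :
    sym d (cAv (A + v * w) v) u = sym d (cAv A v) u := by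
  set x : G n m := (0, -w) with hxdef
  have h := sym_const x (fun t => cAv (A + t • (v * w)) v) ?_ d hu (hx x) 1
  · simpa using h
  · intro t y
    have h1 := phi_hasDeriv (fun t => cAv (A + t • (v * w)) v) (cAv (v * w) 0) t
      (cAv_hasDeriv (fun i j => by
        simpa using ((hasDerivAt_id t).mul_const ((v * w) i j)).const_add (A i j))
        (fun i j => by simpa using hasDerivAt_const t (v i j))) y
    convert h1 using 1
    rw [phi_cAv, phi_cAv]
    have e1 : ((⁅x, y⁆).1 : Matrix (Fin n) (Fin n) ℂ) = 0 := by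
      rw [G.lie_fst, hxdef]
      simp
    have e2 : (⁅x, y⁆).2 = w * (y.1 : Matrix (Fin n) (Fin n) ℂ)ᵀ := by
      rw [G.lie_snd, hxdef]
      simp
    rw [e1, e2, Matrix.mul_zero, Matrix.trace_zero, zero_add, Matrix.zero_mul, Matrix.trace_zero,
      add_zero, ← Matrix.mul_assoc, ← Matrix.trace_transpose, Matrix.transpose_mul,
      Matrix.transpose_transpose, Matrix.trace_mul_comm]

/-- Invariance along the flow of an element of `sl_n`. -/
theorem sym_flow (d : ℕ) {u : U n m} (hu : u ∈ FF n m (d + 1))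
    (hx : ∀ x : G n m, io x * u = u * io x) (Z : Matrix (Fin n) (Fin n) ℂ) (hZ : Z.trace = 0)
    (A : ℂ → Matrix (Fin n) (Fin n) ℂ) (v : ℂ → Matrix (Fin n) (Fin m) ℂ)
    (hA : ∀ t i j, HasDerivAt (fun t => A t i j) ((Z * A t - A t * Z) i j) t)
    (hv : ∀ t i j, HasDerivAt (fun t => v t i j) ((Z * v t) i j) t) (t : ℂ) :
    sym d (cAv (A t) (v t)) u = sym d (cAv (A 0) (v 0)) u := by
  set x : G n m := (⟨Zᵀ, by
    change Matrix.trace Zᵀ = 0
    rw [Matrix.trace_transpose, hZ]⟩, 0) with hxdef
  refine sym_const x (fun t => cAv (A t) (v t)) ?_ d hu (hx x) t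
  intro t y
  have h1 := phi_hasDeriv (fun t => cAv (A t) (v t)) (cAv (Z * A t - A t * Z) (Z * v t)) t
      (cAv_hasDeriv (hA t) (hv t)) y
  convert h1 using 1
  rw [phi_cAv, phi_cAv]
  have e1 : ((⁅x, y⁆).1 : Matrix (Fin n) (Fin n) ℂ) =
      Zᵀ * (y.1 : Matrix (Fin n) (Fin n) ℂ) - (y.1 : Matrix (Fin n) (Fin n) ℂ) * Zᵀ := by
    rw [G.lie_fst, hxdef]
    rfl
  have e2 : (⁅x, y⁆).2 = y.2 * Z := by
    rw [G.lie_snd, hxdef]
    simp
  rw [e1, e2]
  have e3 : (v t * (y.2 * Z)).trace = (Z * v t * y.2).trace := by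
    rw [← Matrix.mul_assoc, Matrix.trace_mul_comm, ← Matrix.mul_assoc]
  have e4 : ((A t)ᵀ * (Zᵀ * (y.1 : Matrix (Fin n) (Fin n) ℂ) - (y.1 : Matrix (Fin n) (Fin n) ℂ) *
      Zᵀ)).trace = ((Z * A t - A t * Z)ᵀ * (y.1 : Matrix (Fin n) (Fin n) ℂ)).trace := by
    rw [Matrix.mul_sub, Matrix.trace_sub, Matrix.transpose_sub, Matrix.transpose_mul,
      Matrix.transpose_mul, Matrix.sub_mul, Matrix.trace_sub, Matrix.mul_assoc]
    congr 1
    rw [← Matrix.mul_assoc, Matrix.trace_mul_comm, ← Matrix.mul_assoc]
  rw [e3, e4]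

/-- Invariance under `SL_n`. -/
theorem sym_SL (d : ℕ) {u : U n m} (hu : u ∈ FF n m (d + 1))
    (hx : ∀ x : G n m, io x * u = u * io x) (g : Matrix (Fin n) (Fin n) ℂ) (hg : g.det = 1)
    (A : Matrix (Fin n) (Fin n) ℂ) (v : Matrix (Fin n) (Fin m) ℂ) :
    sym d (cAv (g * A * g⁻¹) (g * v)) u = sym d (cAv A v) u := by
  suffices H : ∀ (A : Matrix (Fin n) (Fin n) ℂ) (v : Matrix (Fin n) (Fin m) ℂ),
      sym d (cAv (g * A * g⁻¹) (g * v)) u = sym d (cAv A v) u from H A v
  apply Matrix.diagonal_transvection_induction (fun g => ∀ (A : Matrix (Fin n) (Fin n) ℂ)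
    (v : Matrix (Fin n) (Fin m) ℂ), sym d (cAv (g * A * g⁻¹) (g * v)) u = sym d (cAv A v) u)
  · -- diagonal
    intro D hD A v
    rw [hg, Matrix.det_diagonal] at hD
    rcases isEmpty_or_nonempty (Fin n) with hn | ⟨⟨i0⟩⟩
    · congr 2 <;> ext i <;> exact hn.elim i
    have hD0 : ∀ i, D i ≠ 0 := by
      intro i h0
      rw [Finset.prod_eq_zero (Finset.mem_univ i) h0] at hD
      exact zero_ne_one hD
    obtain ⟨h, hh1, hh2⟩ : ∃ h : Fin n → ℂ, (∀ i, Complex.exp (h i) = D i) ∧ ∑ i, h i = 0 := by
      have h1 : Complex.exp (∑ i, Complex.log (D i)) = 1 := by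
        rw [Complex.exp_sum, ← hD]
        exact Finset.prod_congr rfl fun i _ => Complex.exp_log (hD0 i)
      refine ⟨fun i => Complex.log (D i) - (if i = i0 then ∑ i, Complex.log (D i) else 0), ?_, ?_⟩
      · intro i
        by_cases hi : i = i0
        · simp only [hi, if_true]
          rw [Complex.exp_sub, h1, div_one, Complex.exp_log (hD0 i0)]
        · simp only [hi, if_false, sub_zero]
          exact Complex.exp_log (hD0 i)
      · rw [Finset.sum_sub_distrib]
        simp
    have key := sym_flow d hu hx (Matrix.diagonal h) (by rw [Matrix.trace_diagonal, hh2])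
      (fun t => Matrix.of fun i j => Complex.exp (t * (h i - h j)) * A i j)
      (fun t => Matrix.of fun i j => Complex.exp (t * h i) * v i j) ?_ ?_ 1
    · have e1 : (Matrix.of fun i j => Complex.exp (1 * (h i - h j)) * A i j) =
          Matrix.diagonal D * A * (Matrix.diagonal D)⁻¹ := by
        have hinv : (Matrix.diagonal D)⁻¹ = Matrix.diagonal (fun i => (D i)⁻¹) := by
          apply Matrix.inv_eq_right_inv
          rw [Matrix.diagonal_mul_diagonal, ← Matrix.diagonal_one]
          congr 1
          funext i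
          exact mul_inv_cancel₀ (hD0 i)
        rw [hinv]
        ext i j
        rw [Matrix.mul_diagonal, Matrix.diagonal_mul, Matrix.of_apply, one_mul, Complex.exp_sub,
          hh1, hh1]
        field_simp
      have e2 : (Matrix.of fun i j => Complex.exp (1 * h i) * v i j) = Matrix.diagonal D * v := by
        ext i j
        rw [Matrix.diagonal_mul, Matrix.of_apply, one_mul, hh1]
      have e3 : (Matrix.of fun i j => Complex.exp (0 * (h i - h j)) * A i j) = A := by
        ext i j; simp
      have e4 : (Matrix.of fun i j => Complex.exp (0 * h i) * v i j) = v := by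
        ext i j; simp
      rw [e1, e2, e3, e4] at key
      exact key
    · intro t i j
      simp only [Matrix.of_apply, Matrix.sub_apply, Matrix.diagonal_mul, Matrix.mul_diagonal]
      have h1 : HasDerivAt (fun t : ℂ => Complex.exp (t * (h i - h j)) * A i j)
          (Complex.exp (t * (h i - h j)) * (1 * (h i - h j)) * A i j) t :=
        (((hasDerivAt_id t).mul_const (h i - h j)).cexp).mul_const _
      convert h1 using 1
      ring
    · intro t i j
      simp only [Matrix.of_apply, Matrix.diagonal_mul]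
      have h1 : HasDerivAt (fun t : ℂ => Complex.exp (t * h i) * v i j)
          (Complex.exp (t * h i) * (1 * h i) * v i j) t :=
        (((hasDerivAt_id t).mul_const (h i)).cexp).mul_const _
      convert h1 using 1
      ring
  · -- transvections
    rintro ⟨i, j, hij, c⟩ A v
    rw [Matrix.TransvectionStruct.toMatrix_mk, Matrix.transvection]
    set Z : Matrix (Fin n) (Fin n) ℂ := Matrix.single i j c with hZdef
    have hZZ : Z * Z = 0 := by
      rw [hZdef]
      exact Matrix.single_mul_single_of_ne _ _ _ _ hij.symm _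
    have key := sym_flow d hu hx Z (by rw [hZdef, Matrix.trace_single_eq_of_ne _ _ _ hij])
      (fun t => A + t • (Z * A - A * Z) - t ^ 2 • (Z * A * Z))
      (fun t => v + t • (Z * v)) ?_ ?_ 1
    · have hinv : (1 + Z)⁻¹ = 1 - Z := by
        apply Matrix.inv_eq_right_inv
        have : (1 + Z) * (1 - Z) = 1 - Z * Z := by noncomm_ring
        rw [this, hZZ, sub_zero]
      rw [hinv]
      have e1 : A + (1 : ℂ) • (Z * A - A * Z) - (1 : ℂ) ^ 2 • (Z * A * Z) =
          (1 + Z) * A * (1 - Z) := by
        rw [one_pow, one_smul, one_smul]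
        noncomm_ring
      have e2 : v + (1 : ℂ) • (Z * v) = (1 + Z) * v := by
        rw [one_smul, Matrix.add_mul, Matrix.one_mul]
      rw [e1, e2] at key
      rw [key]
      simp
    · intro t a b
      have e1 : Z * (A + t • (Z * A - A * Z) - t ^ 2 • (Z * A * Z)) -
          (A + t • (Z * A - A * Z) - t ^ 2 • (Z * A * Z)) * Z =
          (Z * A - A * Z) - (2 * t) • (Z * A * Z) := by
        have h1 : Z * (A + t • (Z * A - A * Z) - t ^ 2 • (Z * A * Z)) =
            Z * A + t • (Z * Z * A - Z * A * Z) - t ^ 2 • (Z * Z * A * Z) := by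
          simp only [Matrix.mul_add, Matrix.mul_sub, Matrix.mul_smul, Matrix.mul_assoc]
        have h2 : (A + t • (Z * A - A * Z) - t ^ 2 • (Z * A * Z)) * Z =
            A * Z + t • (Z * A * Z - A * (Z * Z)) - t ^ 2 • (Z * A * (Z * Z)) := by
          simp only [Matrix.add_mul, Matrix.sub_mul, Matrix.smul_mul, Matrix.mul_assoc]
        rw [h1, h2, hZZ]
        simp only [Matrix.zero_mul, Matrix.mul_zero, zero_sub, sub_zero, smul_zero, smul_neg,
          mul_smul, two_smul]
        abel
      rw [e1]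
      simp only [Matrix.add_apply, Matrix.sub_apply, Matrix.smul_apply, smul_eq_mul]
      have h1 : HasDerivAt (fun t : ℂ => A a b + t * ((Z * A) a b - (A * Z) a b) -
          t ^ 2 * (Z * A * Z) a b) (0 + 1 * ((Z * A) a b - (A * Z) a b) -
            (((2 : ℕ) : ℂ) * t ^ (2 - 1)) * (Z * A * Z) a b) t :=
        ((hasDerivAt_const t (A a b)).add ((hasDerivAt_id t).mul_const _)).sub
          ((hasDerivAt_pow 2 t).mul_const _)
      convert h1 using 1
      simp
    · intro t a b
      have e1 : Z * (v + t • (Z * v)) = Z * v := by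
        rw [Matrix.mul_add, Matrix.mul_smul, ← Matrix.mul_assoc, hZZ]
        simp
      rw [e1]
      simp only [Matrix.add_apply, Matrix.smul_apply, smul_eq_mul]
      have h1 : HasDerivAt (fun t : ℂ => v a b + t * (Z * v) a b) (0 + 1 * (Z * v) a b) t :=
        (hasDerivAt_const t (v a b)).add ((hasDerivAt_id t).mul_const _)
      convert h1 using 1
      simp
  · intro g h hg hh A v
    rw [Matrix.mul_inv_rev]
    have e1 : g * h * A * (h⁻¹ * g⁻¹) = g * (h * A * h⁻¹) * g⁻¹ := by
      simp only [Matrix.mul_assoc]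
    rw [e1, Matrix.mul_assoc g h v, hg, hh]

/-- The symbol is given by a homogeneous polynomial. -/
theorem sym_poly (d : ℕ) {u : U n m} (hu : u ∈ FF n m (d + 1)) :
    ∃ p : OO n m, p.IsHomogeneous d ∧ ∀ c, sym d c u = eval c p := by
  induction hu using Submodule.span_induction with
  | mem u hu =>
    obtain ⟨l, hl, rfl⟩ := hu
    rcases Nat.lt_succ_iff_lt_or_eq.1 hl with h1 | h1
    · exact ⟨0, isHomogeneous_zero _ _ _, fun c => by rw [sym_prod_lt d c l h1, map_zero]⟩
    · subst h1
      clear hl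
      induction l with
      | nil => exact ⟨1, isHomogeneous_one _ _, fun c => by
          rw [sym_prod_eq]; simp⟩
      | cons y l ih =>
        obtain ⟨p, hp, hp'⟩ := ih
        have hlin : (∑ i, ∑ j, C ((y.1 : Matrix (Fin n) (Fin n) ℂ) i j) * X (Sum.inl (i, j)) +
            ∑ i, ∑ j, C (y.2 j i) * X (Sum.inr (i, j)) : OO n m).IsHomogeneous 1 := by
          refine IsHomogeneous.add ?_ ?_
          · refine IsHomogeneous.sum _ _ _ fun i _ => IsHomogeneous.sum _ _ _ fun j _ => ?_
            simpa using (isHomogeneous_C _ _).mul (isHomogeneous_X ℂ _)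
          · refine IsHomogeneous.sum _ _ _ fun i _ => IsHomogeneous.sum _ _ _ fun j _ => ?_
            simpa using (isHomogeneous_C _ _).mul (isHomogeneous_X ℂ _)
        refine ⟨_ * p, by rw [List.length_cons, add_comm]; exact hlin.mul hp, fun c => ?_⟩
        rw [sym_prod_eq, List.map_cons, List.prod_cons, map_mul, ← hp' c, sym_prod_eq]
        congr 1
        simp [phi, mul_comm]
  | zero => exact ⟨0, isHomogeneous_zero _ _ _, fun c => by rw [sym_zero, map_zero]⟩
  | add u w _ _ hu hw =>
    obtain ⟨p, hp, hp'⟩ := hu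
    obtain ⟨q, hq, hq'⟩ := hw
    exact ⟨p + q, hp.add hq, fun c => by rw [sym_add, hp', hq', map_add]⟩
  | smul a u _ hu =>
    obtain ⟨p, hp, hp'⟩ := hu
    refine ⟨C a * p, by simpa using (isHomogeneous_C _ a).mul hp, fun c => ?_⟩
    rw [sym_smul, hp', map_mul, eval_C]

end Inv

end Pool.Agent.Helper49.SLnm
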