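import Mathlib
import Pool.Agent.Helper49.SLnm.Inv
import Pool.Agent.Helper49.SLnm.Base

set_option linter.unusedSimpArgs false

namespace Pool.Agent.Helper49.SLnm

open Matrix MvPolynomial

section Zel

attribute [local instance 100] LieRing.ofAssociativeRing

variable {n m : ℕ}

@[simp] theorem G.neg_fst (x : G n m) : (-x).1 = -x.1 := rfl
@[simp] theorem G.neg_snd (x : G n m) : (-x).2 = -x.2 := rfl

theorem gX_fst (X : LieAlgebra.SpecialLinear.sl (Fin n) ℂ) : (gX X : G n m).1 = X := rfl
theorem gX_snd (X : LieAlgebra.SpecialLinear.sl (Fin n) ℂ) : (gX X : G n m).2 = 0 := rfl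
theorem gw_fst (w : Matrix (Fin m) (Fin n) ℂ) : (gw w : G n m).1 = 0 := rfl
theorem gw_snd (w : Matrix (Fin m) (Fin n) ℂ) : (gw w : G n m).2 = w := rfl

theorem E_apply (a b : Fin n) : E n m a b = io (gX (e0 n a b)) := rfl
theorem V_apply (j : Fin m) (c : Fin n) : V n m j c = io (gw (Matrix.single j c 1)) := rfl

theorem io_add (x y : G n m) : io (x + y) = io x + io y := by
  unfold io
  rw [map_add]

theorem io_smul (a : ℂ) (x : G n m) : io (a • x) = a • io x := by
  unfold io
  exact (LieHom.toLinearMap (UniversalEnvelopingAlgebra.ι ℂ (L := G n m))).map_smul _ _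

theorem io_zero : io (0 : G n m) = 0 := by
  unfold io
  rw [map_zero]

theorem io_sub (x y : G n m) : io (x - y) = io x - io y := by
  unfold io
  rw [map_sub]

theorem e0_coe (a b : Fin n) : ((e0 n a b : LieAlgebra.SpecialLinear.sl (Fin n) ℂ) :
    Matrix (Fin n) (Fin n) ℂ) = Matrix.single a b (1 : ℂ) -
      (if a = b then (1 / n : ℂ) else 0) • (1 : Matrix (Fin n) (Fin n) ℂ) := rfl

theorem single_mul (a b c d : Fin n) : Matrix.single a b (1 : ℂ) * Matrix.single c d 1 =
    if b = c then Matrix.single a d 1 else 0 := by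
  by_cases h : b = c
  · subst h; simp
  · rw [Matrix.single_mul_single_of_ne _ _ _ _ h, if_neg h]

theorem comm_sub_smul (S T : Matrix (Fin n) (Fin n) ℂ) (k l : ℂ) :
    (S - k • (1 : Matrix (Fin n) (Fin n) ℂ)) * (T - l • (1 : Matrix (Fin n) (Fin n) ℂ)) -
      (T - l • (1 : Matrix (Fin n) (Fin n) ℂ)) * (S - k • (1 : Matrix (Fin n) (Fin n) ℂ)) =
      S * T - T * S := by
  simp only [Matrix.sub_mul, Matrix.mul_sub, Matrix.smul_mul, Matrix.mul_smul, Matrix.one_mul,
    Matrix.mul_one, smul_sub, smul_smul, mul_comm l k]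
  abel

theorem vrel (n m : ℕ) : VRel (1 / n : ℂ) (E n m) (V n m) where
  ee a b c d := by
    have h : (⁅(gX (e0 n a b) : G n m), (gX (e0 n c d) : G n m)⁆) =
        (if b = c then (gX (e0 n a d) : G n m) else 0) -
          (if a = d then (gX (e0 n c b) : G n m) else 0) := by
      apply G.ext'
      · apply Subtype.ext
        have e1 : ((⁅(gX (e0 n a b) : G n m), (gX (e0 n c d) : G n m)⁆).1 :
            Matrix (Fin n) (Fin n) ℂ) = (e0 n a b : Matrix (Fin n) (Fin n) ℂ) *
              (e0 n c d : Matrix (Fin n) (Fin n) ℂ) - (e0 n c d : Matrix (Fin n) (Fin n) ℂ) *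
              (e0 n a b : Matrix (Fin n) (Fin n) ℂ) := rfl
        have e2 : (((if b = c then (gX (e0 n a d) : G n m) else 0) -
          (if a = d then (gX (e0 n c b) : G n m) else 0)).1 : Matrix (Fin n) (Fin n) ℂ) =
          (if b = c then (e0 n a d : Matrix (Fin n) (Fin n) ℂ) else 0) -
            (if a = d then (e0 n c b : Matrix (Fin n) (Fin n) ℂ) else 0) := by
          split_ifs <;> rfl
        rw [e1, e2, e0_coe, e0_coe, e0_coe, e0_coe]
        rw [comm_sub_smul]
        rw [single_mul, single_mul]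
        by_cases h1 : b = c
        · by_cases h2 : a = d
          · subst h1 h2
            simp [eq_comm]
          · have : ¬ d = a := fun h => h2 h.symm
            simp [h1, h2, this]
        · by_cases h2 : a = d
          · have : ¬ c = b := fun h => h1 h.symm
            simp [h1, h2, this]
          · have : ¬ d = a := fun h => h2 h.symm
            simp [h1, h2, this]
      · have e1 : (⁅(gX (e0 n a b) : G n m), (gX (e0 n c d) : G n m)⁆).2 = 0 := by
          rw [G.lie_snd]; simp [gX_snd, gw_snd, gX_fst, gw_fst]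
        rw [e1]
        split_ifs <;> simp [gX_snd]
    have h1 := io_lie (gX (e0 n a b) : G n m) (gX (e0 n c d) : G n m)
    rw [h, io_sub] at h1
    simp only [E_apply]
    rw [← h1]
    split_ifs <;> simp [io_zero]
  ev a b j c := by
    have h : (⁅(gX (e0 n a b) : G n m), (gw (Matrix.single j c 1) : G n m)⁆) =
        (if b = c then (gw (Matrix.single j a 1) : G n m) else 0) -
          (1 / n : ℂ) • (if a = b then (gw (Matrix.single j c 1) : G n m) else 0) := by
      apply G.ext'
      · have e1 : (⁅(gX (e0 n a b) : G n m), (gw (Matrix.single j c 1) : G n m)⁆).1 = 0 := by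
          rw [G.lie_fst]; simp [gX_snd, gw_snd, gX_fst, gw_fst]
        rw [e1]
        split_ifs <;> simp [gw_fst]
      · have e1 : (⁅(gX (e0 n a b) : G n m), (gw (Matrix.single j c 1) : G n m)⁆).2 =
            Matrix.single j c (1 : ℂ) * ((e0 n a b : Matrix (Fin n) (Fin n) ℂ))ᵀ := by
          rw [G.lie_snd]; simp [gX_snd, gw_snd, gX_fst, gw_fst]
        have e2 : ((if b = c then (gw (Matrix.single j a 1) : G n m) else 0) -
          (1 / n : ℂ) • (if a = b then (gw (Matrix.single j c 1) : G n m) else 0)).2 =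
          (if b = c then Matrix.single j a 1 else 0) -
          (1 / n : ℂ) • (if a = b then Matrix.single j c (1 : ℂ) else 0) := by
          split_ifs <;> rfl
        rw [e1, e2, e0_coe, Matrix.transpose_sub, Matrix.transpose_smul, Matrix.transpose_one,
          Matrix.transpose_single, Matrix.mul_sub, Matrix.mul_smul, Matrix.mul_one]
        congr 1
        · by_cases h : b = c
          · subst h; simp
          · have h' : c ≠ b := fun h' => h h'.symm
            rw [if_neg h, Matrix.single_mul_single_of_ne _ _ _ _ h']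
        · split_ifs <;> simp
    have h1 := io_lie (gX (e0 n a b) : G n m) (gw (Matrix.single j c 1) : G n m)
    rw [h, io_sub, io_smul] at h1
    simp only [E_apply, V_apply]
    rw [← h1]
    split_ifs <;> simp [io_zero]
  vv i a j b := by
    have h : (⁅(gw (Matrix.single i a 1) : G n m), (gw (Matrix.single j b 1) : G n m)⁆) = 0 := by
      apply G.ext'
      · rw [G.lie_fst]; simp [gX_snd, gw_snd, gX_fst, gw_fst]
      · rw [G.lie_snd]; simp [gX_snd, gw_snd, gX_fst, gw_fst]
    have h1 := io_lie (gw (Matrix.single i a 1) : G n m) (gw (Matrix.single j b 1) : G n m)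
    rw [h, io_zero] at h1
    simp only [V_apply]
    exact (sub_eq_zero.1 h1.symm)

theorem G.sum_fst {ι : Type*} (s : Finset ι) (f : ι → G n m) :
    (∑ i ∈ s, f i).1 = ∑ i ∈ s, (f i).1 := by
  classical
  induction s using Finset.induction_on with
  | empty => simp
  | insert a s ha ih => rw [Finset.sum_insert ha, Finset.sum_insert ha, G.add_fst, ih]

theorem G.sum_snd {ι : Type*} (s : Finset ι) (f : ι → G n m) :
    (∑ i ∈ s, f i).2 = ∑ i ∈ s, (f i).2 := by
  classical
  induction s using Finset.induction_on with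
  | empty => simp
  | insert a s ha ih => rw [Finset.sum_insert ha, Finset.sum_insert ha, G.add_snd, ih]

theorem G.decomp (x : G n m) : x = (∑ a, ∑ b, (x.1 : Matrix (Fin n) (Fin n) ℂ) a b •
    gX (e0 n a b)) + ∑ j, ∑ c, x.2 j c • gw (Matrix.single j c 1) := by
  apply G.ext'
  · apply Subtype.ext
    simp only [G.add_fst, G.sum_fst, G.smul_fst, gX_fst, gw_fst, smul_zero,
      Finset.sum_const_zero, add_zero]
    have h1 : ((∑ a, ∑ b, (x.1 : Matrix (Fin n) (Fin n) ℂ) a b • e0 n a b :
        LieAlgebra.SpecialLinear.sl (Fin n) ℂ) : Matrix (Fin n) (Fin n) ℂ) =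
        ∑ a, ∑ b, (x.1 : Matrix (Fin n) (Fin n) ℂ) a b •
          (e0 n a b : Matrix (Fin n) (Fin n) ℂ) := by
      rw [AddSubmonoidClass.coe_finsetSum]
      refine Finset.sum_congr rfl fun a _ => ?_
      rw [AddSubmonoidClass.coe_finsetSum]
      rfl
    rw [h1]
    have h2 : ∑ a, ∑ b, (x.1 : Matrix (Fin n) (Fin n) ℂ) a b •
          (e0 n a b : Matrix (Fin n) (Fin n) ℂ) =
        (∑ a, ∑ b, Matrix.single a b ((x.1 : Matrix (Fin n) (Fin n) ℂ) a b)) -
          ((1 / n : ℂ) * Matrix.trace (x.1 : Matrix (Fin n) (Fin n) ℂ)) •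
            (1 : Matrix (Fin n) (Fin n) ℂ) := by
      have h3 : ((1 / n : ℂ) * Matrix.trace (x.1 : Matrix (Fin n) (Fin n) ℂ)) •
            (1 : Matrix (Fin n) (Fin n) ℂ) = ∑ a, ∑ b,
            ((x.1 : Matrix (Fin n) (Fin n) ℂ) a b * (if a = b then (1 / n : ℂ) else 0)) •
              (1 : Matrix (Fin n) (Fin n) ℂ) := by
        simp only [mul_ite, mul_zero, ite_smul, zero_smul, Finset.sum_ite_eq, Finset.mem_univ,
          if_true]
        rw [← Finset.sum_smul, ← Finset.sum_mul, mul_comm]
        rfl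
      rw [h3, ← Finset.sum_sub_distrib]
      refine Finset.sum_congr rfl fun a _ => ?_
      rw [← Finset.sum_sub_distrib]
      refine Finset.sum_congr rfl fun b _ => ?_
      rw [e0_coe, smul_sub, smul_smul, Matrix.smul_single, smul_eq_mul, mul_one]
    have h4 : Matrix.trace (x.1 : Matrix (Fin n) (Fin n) ℂ) = 0 := x.1.2
    rw [h2, h4, mul_zero, zero_smul, sub_zero]
    exact Matrix.matrix_eq_sum_single _
  · simp only [G.add_snd, G.sum_snd, G.smul_snd, gX_snd, gw_snd, smul_zero,
      Finset.sum_const_zero, zero_add]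
    conv_lhs => rw [Matrix.matrix_eq_sum_single x.2]
    refine Finset.sum_congr rfl fun a _ => Finset.sum_congr rfl fun b _ => ?_
    rw [Matrix.smul_single, smul_eq_mul, mul_one]

theorem io_sum {ι : Type*} (s : Finset ι) (f : ι → G n m) :
    io (∑ i ∈ s, f i) = ∑ i ∈ s, io (f i) := by
  classical
  induction s using Finset.induction_on with
  | empty => simp
  | insert a s ha ih => rw [Finset.sum_insert ha, Finset.sum_insert ha, io_add, ih]

theorem io_decomp (x : G n m) : io x = (∑ a, ∑ b, (x.1 : Matrix (Fin n) (Fin n) ℂ) a b •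
    E n m a b) + ∑ j, ∑ c, x.2 j c • V n m j c := by
  conv_lhs => rw [G.decomp x]
  rw [io_add, io_sum, io_sum]
  simp only [io_sum, io_smul]
  rfl

theorem io_comm_of {u : U n m} (hE : ∀ a b, E n m a b * u = u * E n m a b)
    (hV : ∀ j c, V n m j c * u = u * V n m j c) (x : G n m) : io x * u = u * io x := by
  rw [io_decomp, add_mul, mul_add, Finset.sum_mul, Finset.mul_sum, Finset.sum_mul, Finset.mul_sum]
  congr 1
  · refine Finset.sum_congr rfl fun a _ => ?_
    rw [Finset.sum_mul, Finset.mul_sum]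
    refine Finset.sum_congr rfl fun b _ => ?_
    rw [smul_mul_assoc, mul_smul_comm, hE]
  · refine Finset.sum_congr rfl fun a _ => ?_
    rw [Finset.sum_mul, Finset.mul_sum]
    refine Finset.sum_congr rfl fun b _ => ?_
    rw [smul_mul_assoc, mul_smul_comm, hV]

theorem mem_center_iff' {u : U n m} : u ∈ Subalgebra.center ℂ (U n m) ↔
    ∀ x : G n m, io x * u = u * io x := by
  rw [Subalgebra.mem_center_iff]
  constructor
  · intro h x
    exact h _
  · intro h b
    obtain ⟨d, hd⟩ := exists_mem_FF b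
    induction hd using Submodule.span_induction with
    | mem b hb =>
      obtain ⟨l, hl, rfl⟩ := hb
      clear hl
      induction l with
      | nil => simp
      | cons x l ih =>
        rw [List.map_cons, List.prod_cons, mul_assoc, ih, ← mul_assoc, h x, mul_assoc]
    | zero => rw [zero_mul, mul_zero]
    | add x y _ _ hx hy => rw [add_mul, mul_add, hx, hy]
    | smul c x _ hx => rw [smul_mul_assoc, mul_smul_comm, hx]

/-- traceless part, transported -/
noncomputable def tl (A : Matrix (Fin n) (Fin n) ℂ) : Matrix (Fin n) (Fin n) ℂ :=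
  A - ((1 / n : ℂ) * A.trace) • 1

theorem phi_E (A : Matrix (Fin n) (Fin n) ℂ) (v : Matrix (Fin n) (Fin m) ℂ) (a b : Fin n) :
    phi (cAv A v) (gX (e0 n a b)) = tl A a b := by
  rw [phi_cAv, gX_fst, gX_snd, Matrix.mul_zero, Matrix.trace_zero, add_zero, e0_coe,
    Matrix.mul_sub, Matrix.trace_sub, Matrix.mul_smul, Matrix.mul_one, Matrix.trace_smul,
    Matrix.trace_transpose, tl, Matrix.sub_apply, Matrix.smul_apply]
  congr 1
  · rw [Matrix.trace_mul_single]
    simp
  · rw [smul_eq_mul, smul_eq_mul]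
    by_cases h : a = b
    · subst h; simp
    · simp [h]

theorem phi_V (A : Matrix (Fin n) (Fin n) ℂ) (v : Matrix (Fin n) (Fin m) ℂ) (j : Fin m)
    (c : Fin n) : phi (cAv A v) (gw (Matrix.single j c 1)) = v c j := by
  rw [phi_cAv, gw_fst, gw_snd]
  simp [Matrix.trace_mul_single]

theorem EV_mem (s : ℕ) (j : Fin m) (a : Fin n) :
    ((E n m ^ s) *ᵥ V n m j) a ∈ FF n m (s + 1 + 1) := by
  have h : (E n m ^ s) *ᵥ V n m j = lett (E n m) (V n m) (s, j) := rfl
  rw [h]
  induction s generalizing a with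
  | zero => rw [lett_zero]; exact io_mem _
  | succ s ih =>
    rw [lett_succ]
    refine Submodule.sum_mem _ fun b _ => ?_
    rw [E_apply]
    exact io_mul_mem _ (ih b rfl)

theorem sym_EV (s : ℕ) (j : Fin m) (a : Fin n) (A : Matrix (Fin n) (Fin n) ℂ)
    (v : Matrix (Fin n) (Fin m) ℂ) :
    sym (s + 1) (cAv A v) (((E n m ^ s) *ᵥ V n m j) a) = (tl A ^ s * v) a j := by
  have h : (E n m ^ s) *ᵥ V n m j = lett (E n m) (V n m) (s, j) := rfl
  rw [h]
  induction s generalizing a with
  | zero => rw [lett_zero, V_apply, zero_add, sym_io, phi_V, pow_zero, Matrix.one_mul]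
  | succ s ih =>
    rw [lett_succ, pow_succ', Matrix.mul_assoc, Matrix.mul_apply]
    have h2 : ∀ (F : Finset (Fin n)) (f : Fin n → U n m), sym (s + 1 + 1) (cAv A v)
        (∑ b ∈ F, f b) = ∑ b ∈ F, sym (s + 1 + 1) (cAv A v) (f b) := by
      classical
      intro F f
      induction F using Finset.induction_on with
      | empty => simp [sym_zero]
      | insert x F hx ih => rw [Finset.sum_insert hx, Finset.sum_insert hx, sym_add, ih]
    rw [h2]
    refine Finset.sum_congr rfl fun b _ => ?_
    have h3 : lett (E n m) (V n m) (s, j) b ∈ FF n m (s + 1 + 1) := EV_mem s j b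
    rw [E_apply, add_comm (s + 1) 1, sym_mul (cAv A v) (a := 1) (io_mem _) h3,
      sym_io, phi_E, ih b rfl]

theorem ofFn_prod_mem : ∀ (N : ℕ) (y : Fin N → U n m) (d : Fin N → ℕ),
    (∀ k, y k ∈ FF n m (d k + 1)) → (List.ofFn y).prod ∈ FF n m ((∑ k, d k) + 1) := by
  intro N
  induction N with
  | zero => intro y d _; simpa using one_mem_FF
  | succ N ih =>
    intro y d hy
    rw [List.ofFn_succ, List.prod_cons, Fin.sum_univ_succ]
    exact mul_mem_FF (hy 0) (ih _ _ fun k => hy k.succ)

theorem sym_ofFn_prod (c : Vars n m → ℂ) : ∀ (N : ℕ) (y : Fin N → U n m) (d : Fin N → ℕ),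
    (∀ k, y k ∈ FF n m (d k + 1)) →
    sym (∑ k, d k) c (List.ofFn y).prod = ∏ k, sym (d k) c (y k) := by
  intro N
  induction N with
  | zero => intro y d _; simpa using sym_one c
  | succ N ih =>
    intro y d hy
    rw [List.ofFn_succ, List.prod_cons, Fin.sum_univ_succ, Fin.prod_univ_succ,
      sym_mul c (hy 0) (ofFn_prod_mem N _ _ fun k => hy k.succ), ih _ _ fun k => hy k.succ]

theorem sym_finset_sum (d : ℕ) (c : Vars n m → ℂ) {ι : Type*} (F : Finset ι) (f : ι → U n m) :
    sym d c (∑ b ∈ F, f b) = ∑ b ∈ F, sym d c (f b) := by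
  classical
  induction F using Finset.induction_on with
  | empty => simp [sym_zero]
  | insert x F hx ih => rw [Finset.sum_insert hx, Finset.sum_insert hx, sym_add, ih]

theorem sym_zsmul (d : ℕ) (c : Vars n m → ℂ) (a : ℤ) (u : U n m) :
    sym d c (a • u) = a * sym d c u := by
  rw [← Int.cast_smul_eq_zsmul ℂ, sym_smul]

end Zel

section Zdef

variable {m q r : ℕ}

/-- the total degree of `z_J` -/
def NN (m q r : ℕ) : ℕ := ∑ k : Fin (q * m + r), ((Fin.addCases (fun k : Fin (q * m) =>
  (k.divNat : ℕ)) (fun _ : Fin r => q) k : ℕ) + 1)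

theorem letter_fst (J : Fin r → Fin m) (k : Fin (q * m + r)) : (letter J k).1 =
    Fin.addCases (fun k : Fin (q * m) => (k.divNat : ℕ)) (fun _ : Fin r => q) k := by
  unfold letter
  refine Fin.addCases (fun k => ?_) (fun k => ?_) k
  · simp
  · simp

theorem sum_letter (J : Fin r → Fin m) : ∑ k, ((letter (q := q) J k).1 + 1) = NN m q r := by
  unfold NN
  refine Finset.sum_congr rfl fun k _ => ?_
  rw [letter_fst]

theorem z_mem (J : Fin r → Fin m) : z (q := q) J ∈ FF (q * m + r) m (NN m q r + 1) := by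
  unfold z colDet
  refine Submodule.sum_mem _ fun σ _ => ?_
  have h := ofFn_prod_mem (q * m + r) (fun k => ((E (q * m + r) m ^ (letter J k).1) *ᵥ
    V (q * m + r) m (letter J k).2) (σ k)) (fun k => (letter J k).1 + 1)
    (fun k => EV_mem _ _ _)
  rw [sum_letter] at h
  exact zsmul_mem h _

/-- the index equivalence -/
def ex (m q r : ℕ) : Kx q r m ≃ Fin (q * m + r) :=
  (finProdFinEquiv.sumCongr (Equiv.refl (Fin r))).trans finSumFinEquiv

theorem letter_ex_inl (J : Fin r → Fin m) (s : Fin q) (l : Fin m) :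
    letter J (ex m q r (Sum.inl (s, l))) = ((s : ℕ), l) := by
  unfold ex letter
  simp only [Equiv.trans_apply, Equiv.sumCongr_apply, Sum.map_inl, finSumFinEquiv_apply_left,
    Fin.addCases_left]
  have h := finProdFinEquiv.symm_apply_apply (s, l)
  have h1 : (finProdFinEquiv (s, l)).divNat = s := congrArg Prod.fst h
  have h2 : (finProdFinEquiv (s, l)).modNat = l := congrArg Prod.snd h
  rw [h1, h2]

theorem letter_ex_inr (J : Fin r → Fin m) (i : Fin r) :
    letter J (ex m q r (Sum.inr i)) = (q, J i) := by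
  unfold ex letter
  simp

theorem sym_z (J : Fin r → Fin m) (A : Matrix (Fin (q * m + r)) (Fin (q * m + r)) ℂ)
    (v : Matrix (Fin (q * m + r)) (Fin m) ℂ) :
    sym (NN m q r) (cAv A v) (z (q := q) J) = PJ q (ex m q r) J (tl A) v := by
  unfold z colDet
  rw [sym_finset_sum]
  have h1 : ∀ σ : Equiv.Perm (Fin (q * m + r)), sym (NN m q r) (cAv A v)
      (((Equiv.Perm.sign σ : ℤˣ) : ℤ) • (List.ofFn fun k => ((E (q * m + r) m ^ (letter J k).1) *ᵥ
        V (q * m + r) m (letter J k).2) (σ k)).prod) =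
      ((Equiv.Perm.sign σ : ℤˣ) : ℤ) •
        ∏ k, (tl A ^ (letter J k).1 * v) (σ k) (letter J k).2 := by
    intro σ
    rw [sym_zsmul, ← sum_letter (q := q) J, sym_ofFn_prod (cAv A v) (q * m + r) _
      (fun k => (letter J k).1 + 1) (fun k => EV_mem _ _ _), zsmul_eq_mul]
    congr 1
    exact Finset.prod_congr rfl fun k _ => sym_EV _ _ _ _ _
  rw [Finset.sum_congr rfl fun σ _ => h1 σ]
  unfold PJ
  rw [← Matrix.det_submatrix_equiv_self (ex m q r).symm, Matrix.det_apply]
  refine Finset.sum_congr rfl fun σ _ => ?_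
  rw [Units.smul_def]
  congr 1
  refine Finset.prod_congr rfl fun k _ => ?_
  rw [Matrix.submatrix_apply, Matrix.submatrix_apply, Equiv.apply_symm_apply]
  obtain ⟨c, rfl⟩ := (ex m q r).surjective k
  rw [Equiv.symm_apply_apply]
  rcases c with ⟨s, l⟩ | i
  · rw [letter_ex_inl]
    simp [Kry]
  · rw [letter_ex_inr]
    simp [Kry]

theorem sum_letter_Dmin (hrm : r ≤ m) (J : Fin r → Fin m) :
    ∑ k, (letter (q := q) J k).1 = Dmin m (q * m + r) := by
  rw [Fin.sum_univ_add]
  unfold Dmin
  rw [Finset.sum_range_add, Finset.sum_range, Finset.sum_range]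
  congr 1
  · refine Finset.sum_congr rfl fun k _ => ?_
    simp [letter]
  · refine Finset.sum_congr rfl fun k _ => ?_
    have hm : 0 < m := lt_of_lt_of_le k.pos hrm
    simp only [letter, Fin.addCases_right]
    rw [mul_comm q m, Nat.mul_add_div hm, Nat.div_eq_of_lt (lt_of_lt_of_le k.2 hrm), add_zero]

theorem z_central (hn : 0 < q * m + r) (hrm : r ≤ m) (J : Fin r → Fin m) :
    z (q := q) J ∈ Subalgebra.center ℂ (U (q * m + r) m) := by
  rw [mem_center_iff']
  have hκ : ((q * m + r : ℕ) : ℂ) * (1 / ((q * m + r : ℕ) : ℂ)) = 1 := by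
    rw [mul_one_div_cancel]
    exact_mod_cast hn.ne'
  have h := colDet_central (vrel (q * m + r) m) hκ (letter J) (sum_letter_Dmin hrm J)
  exact io_comm_of h.1 h.2

end Zdef

end Pool.Agent.Helper49.SLnm
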