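import Mathlib
import Pool.Agent.Helper49.SLnm.Zel

namespace Pool.Agent.Helper49.SLnm

open Matrix MvPolynomial

section Scale

attribute [local instance 100] LieRing.ofAssociativeRing

variable {n m : ℕ}

/-- the grading endomorphism `(X, w) ↦ (X, t w)` -/
noncomputable def tau (n m : ℕ) (t : ℂ) : G n m →ₗ⁅ℂ⁆ G n m where
  toFun x := (x.1, t • x.2)
  map_add' x y := by
    apply G.ext'
    · rfl
    · exact smul_add _ _ _
  map_smul' a x := by
    apply G.ext'
    · rfl
    · exact smul_comm _ _ _
  map_lie' {x y} := by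
    apply G.ext'
    · rfl
    · change t • (y.2 * (x.1 : Matrix (Fin n) (Fin n) ℂ)ᵀ - x.2 * (y.1 : Matrix (Fin n) (Fin n) ℂ)ᵀ)
        = (t • y.2) * (x.1 : Matrix (Fin n) (Fin n) ℂ)ᵀ -
          (t • x.2) * (y.1 : Matrix (Fin n) (Fin n) ℂ)ᵀ
      rw [smul_sub, Matrix.smul_mul, Matrix.smul_mul]

/-- the induced endomorphism of `U(g)` -/
noncomputable def Tt (n m : ℕ) (t : ℂ) : U n m →ₐ[ℂ] U n m :=
  UniversalEnvelopingAlgebra.lift ℂ ((UniversalEnvelopingAlgebra.ι ℂ).comp (tau n m t))

theorem Tt_io (t : ℂ) (x : G n m) : Tt n m t (io x) = io (tau n m t x) := by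
  unfold Tt io
  rw [UniversalEnvelopingAlgebra.lift_ι_apply]
  rfl

/-- scaling of the second coordinates -/
def scV (t : ℂ) (c : Vars n m → ℂ) : Vars n m → ℂ
  | .inl s => c (.inl s)
  | .inr s => t * c (.inr s)

theorem phi_scV (t : ℂ) (c : Vars n m → ℂ) (x : G n m) :
    phi (scV t c) x = phi c (tau n m t x) := by
  unfold phi
  congr 1
  refine Finset.sum_congr rfl fun i _ => Finset.sum_congr rfl fun j _ => ?_
  change t * c (.inr (i, j)) * x.2 j i = c (.inr (i, j)) * (t * x.2 j i)
  ring

theorem sym_Tt (t : ℂ) (c : Vars n m → ℂ) (d : ℕ) {u : U n m} (hu : u ∈ FF n m (d + 1)) :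
    sym d c (Tt n m t u) = sym d (scV t c) u := by
  induction hu using Submodule.span_induction with
  | mem u hu =>
    obtain ⟨l, hl, rfl⟩ := hu
    have h1 : Tt n m t (l.map io).prod = ((l.map (tau n m t)).map io).prod := by
      rw [map_list_prod, List.map_map, List.map_map]
      congr 1
      apply List.map_congr_left
      intro x _
      exact Tt_io t x
    rw [h1]
    rcases Nat.lt_succ_iff_lt_or_eq.1 hl with h2 | h2
    · rw [sym_prod_lt d c _ (by rw [List.length_map]; exact h2), sym_prod_lt d _ _ h2]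
    · have h3 : (l.map (tau n m t)).length = d := by rw [List.length_map, h2]
      conv_lhs => rw [← h3]
      conv_rhs => rw [← h2]
      rw [sym_prod_eq, sym_prod_eq, List.map_map]
      congr 1
      apply List.map_congr_left
      intro x _
      exact (phi_scV t c x).symm
  | zero => rw [map_zero, sym_zero, sym_zero]
  | add x y _ _ hx hy => rw [map_add, sym_add, sym_add, hx, hy]
  | smul a x _ hx => rw [map_smul, sym_smul, sym_smul, hx]

theorem Tt_lett (t : ℂ) (s : ℕ) (j : Fin m) (a : Fin n) :
    Tt n m t (((E n m ^ s) *ᵥ V n m j) a) = t • (((E n m ^ s) *ᵥ V n m j) a) := by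
  change Tt n m t (lett (E n m) (V n m) (s, j) a) = t • (lett (E n m) (V n m) (s, j) a)
  induction s generalizing a with
  | zero =>
    rw [lett_zero, V_apply, Tt_io, ← io_smul]
    congr 1
    apply G.ext'
    · rw [G.smul_fst, gw_fst, smul_zero]
      rfl
    · rfl
  | succ s ih =>
    rw [lett_succ, map_sum, Finset.smul_sum]
    refine Finset.sum_congr rfl fun b _ => ?_
    rw [map_mul, ih, mul_smul_comm, E_apply, Tt_io]
    congr 3
    apply G.ext'
    · rfl
    · change t • (gX (e0 n a b) : G n m).2 = (gX (e0 n a b) : G n m).2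
      rw [gX_snd, smul_zero]

theorem ofFn_smul_prod (t : ℂ) : ∀ (N : ℕ) (y : Fin N → U n m),
    (List.ofFn fun k => t • y k).prod = t ^ N • (List.ofFn y).prod := by
  intro N
  induction N with
  | zero => intro y; simp
  | succ N ih =>
    intro y
    rw [List.ofFn_succ, List.prod_cons, ih, List.ofFn_succ, List.prod_cons, pow_succ',
      smul_mul_smul_comm]

end Scale

section Main

variable {m q r : ℕ}

theorem Tt_z (t : ℂ) (J : Fin r → Fin m) : Tt (q * m + r) m t (z (q := q) J) =
    t ^ (q * m + r) • z (q := q) J := by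
  unfold z colDet
  rw [map_sum, Finset.smul_sum]
  refine Finset.sum_congr rfl fun σ _ => ?_
  rw [map_zsmul, smul_comm]
  congr 1
  rw [map_list_prod, List.map_ofFn, ← ofFn_smul_prod]
  congr 2
  funext k
  exact Tt_lett _ _ _ _

/-- `z_J` as an element of the center -/
noncomputable def zc (hr : 0 < r) (hrm : r ≤ m) (J : Fin r ↪o Fin m) :
    Subalgebra.center ℂ (U (q * m + r) m) :=
  ⟨z (q := q) J, z_central (by omega) hrm J⟩

/-- polynomials in the `z_J` -/
noncomputable def evU (q : ℕ) (hr : 0 < r) (hrm : r ≤ m) (Q : MvPolynomial (Fin r ↪o Fin m) ℂ) :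
    U (q * m + r) m :=
  ((aeval (zc (q := q) hr hrm) Q : Subalgebra.center ℂ (U (q * m + r) m)) : U (q * m + r) m)

variable (hr : 0 < r) (hrm : r ≤ m)

theorem evU_add (Q Q' : MvPolynomial (Fin r ↪o Fin m) ℂ) :
    evU q hr hrm (Q + Q') = evU q hr hrm Q + evU q hr hrm Q' := by
  simp [evU]

theorem evU_mul (Q Q' : MvPolynomial (Fin r ↪o Fin m) ℂ) :
    evU q hr hrm (Q * Q') = evU q hr hrm Q * evU q hr hrm Q' := by
  simp [evU]

theorem evU_C (a : ℂ) : evU q hr hrm (C a) = a • 1 := by
  unfold evU
  rw [aeval_C, Algebra.algebraMap_eq_smul_one]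
  rfl

theorem evU_C_mul (a : ℂ) (Q : MvPolynomial (Fin r ↪o Fin m) ℂ) :
    evU q hr hrm (C a * Q) = a • evU q hr hrm Q := by
  rw [evU_mul, evU_C, smul_mul_assoc, one_mul]

theorem evU_X (J : Fin r ↪o Fin m) : evU q hr hrm (X J) = z (q := q) J := by
  unfold evU
  rw [aeval_X]
  rfl

theorem evU_sum {ι : Type*} (s : Finset ι) (Q : ι → MvPolynomial (Fin r ↪o Fin m) ℂ) :
    evU q hr hrm (∑ i ∈ s, Q i) = ∑ i ∈ s, evU q hr hrm (Q i) := by
  classical
  induction s using Finset.induction_on with
  | empty => simp [evU]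
  | insert a s ha ih => rw [Finset.sum_insert ha, Finset.sum_insert ha, evU_add, ih]

theorem evU_center (Q : MvPolynomial (Fin r ↪o Fin m) ℂ) :
    evU q hr hrm Q ∈ Subalgebra.center ℂ (U (q * m + r) m) :=
  (aeval (zc (q := q) hr hrm) Q).2

/-- the values of the symbols of the `z_J` -/
noncomputable def pJ (q : ℕ) (c : Vars (q * m + r) m → ℂ) (J : Fin r ↪o Fin m) : ℂ :=
  sym (NN m q r) c (z (q := q) J)

theorem evU_monomial (α : (Fin r ↪o Fin m) →₀ ℕ) :
    evU q hr hrm (monomial α 1) ∈
      FF (q * m + r) m (Finsupp.weight (1 : (Fin r ↪o Fin m) → ℕ) α * NN m q r + 1) ∧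
    ∀ c, sym (Finsupp.weight (1 : (Fin r ↪o Fin m) → ℕ) α * NN m q r) c
      (evU q hr hrm (monomial α 1)) = eval (pJ q c) (monomial α 1) := by
  induction α using Finsupp.induction_linear with
  | zero =>
    have h : (monomial (0 : (Fin r ↪o Fin m) →₀ ℕ)) (1 : ℂ) = C 1 := rfl
    rw [h, evU_C, one_smul, map_zero, zero_mul]
    exact ⟨one_mem_FF, fun c => by rw [sym_one, eval_C]⟩
  | add α β hα hβ =>
    have h : (monomial (α + β)) (1 : ℂ) = monomial α 1 * monomial β 1 := by
      rw [monomial_mul, one_mul]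
    rw [h, evU_mul, map_add, add_mul]
    refine ⟨mul_mem_FF hα.1 hβ.1, fun c => ?_⟩
    rw [sym_mul c hα.1 hβ.1, hα.2, hβ.2, map_mul]
  | single J k =>
    induction k with
    | zero =>
      have h : (monomial (Finsupp.single J 0)) (1 : ℂ) = C 1 := by simp
      rw [h, evU_C, one_smul, Finsupp.single_zero, map_zero, zero_mul]
      exact ⟨one_mem_FF, fun c => by rw [sym_one, eval_C]⟩
    | succ k ih =>
      have h : (monomial (Finsupp.single J (k + 1))) (1 : ℂ) =
          monomial (Finsupp.single J k) 1 * X J := by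
        rw [X, monomial_mul, one_mul, ← Finsupp.single_add]
      have hw : Finsupp.weight (1 : (Fin r ↪o Fin m) → ℕ) (Finsupp.single J (k + 1)) * NN m q r =
          Finsupp.weight (1 : (Fin r ↪o Fin m) → ℕ) (Finsupp.single J k) * NN m q r +
            NN m q r := by
        rw [Finsupp.weight_single, Finsupp.weight_single]
        simp
        ring
      rw [h, evU_mul, evU_X, hw]
      refine ⟨mul_mem_FF ih.1 (z_mem _), fun c => ?_⟩
      rw [sym_mul c ih.1 (z_mem _), ih.2, map_mul, eval_X]
      rfl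

theorem evU_hom {k : ℕ} {Q : MvPolynomial (Fin r ↪o Fin m) ℂ} (hQ : Q.IsHomogeneous k) :
    evU q hr hrm Q ∈ FF (q * m + r) m (k * NN m q r + 1) ∧
    ∀ c, sym (k * NN m q r) c (evU q hr hrm Q) = eval (pJ q c) Q := by
  have h1 : ∀ α ∈ Q.support, monomial α (coeff α Q) = C (coeff α Q) * monomial α 1 := by
    intro α _
    rw [C_mul_monomial, mul_one]
  have h2 : evU q hr hrm Q = ∑ α ∈ Q.support, coeff α Q • evU q hr hrm (monomial α 1) := by
    conv_lhs => rw [← support_sum_monomial_coeff Q]
    rw [evU_sum]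
    refine Finset.sum_congr rfl fun α hα => ?_
    rw [h1 α hα, evU_C_mul]
  have h3 : ∀ α ∈ Q.support, Finsupp.weight (1 : (Fin r ↪o Fin m) → ℕ) α = k := fun α hα =>
    hQ (mem_support_iff.1 hα)
  constructor
  · rw [h2]
    refine Submodule.sum_mem _ fun α hα => Submodule.smul_mem _ _ ?_
    have := (evU_monomial (q := q) hr hrm α).1
    rwa [h3 α hα] at this
  · intro c
    rw [h2, sym_finset_sum]
    conv_rhs => rw [← support_sum_monomial_coeff Q]
    rw [map_sum]
    refine Finset.sum_congr rfl fun α hα => ?_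
    have := (evU_monomial (q := q) hr hrm α).2 c
    rw [h3 α hα] at this
    rw [sym_smul, this, h1 α hα, map_mul, eval_C]

theorem cAv_surj (c : Vars (q * m + r) m → ℂ) : ∃ A v, c = cAv A v := by
  refine ⟨Matrix.of fun i j => c (Sum.inl (i, j)), Matrix.of fun i j => c (Sum.inr (i, j)), ?_⟩
  funext s
  rcases s with s | s <;> rfl

theorem pJ_eq (A : Matrix (Fin (q * m + r)) (Fin (q * m + r)) ℂ)
    (v : Matrix (Fin (q * m + r)) (Fin m) ℂ) (J : Fin r ↪o Fin m) :
    pJ q (cAv A v) J = PJ q (ex m q r) J (tl A) v := sym_z _ _ _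

theorem sym_smulc {n : ℕ} (d : ℕ) {u : U n m} (hu : u ∈ FF n m (d + 1)) (t : ℂ)
    (c : Vars n m → ℂ) : sym d (fun s => t * c s) u = t ^ d * sym d c u := by
  obtain ⟨p, hp, hp'⟩ := sym_poly d hu
  rw [hp', hp', eval_smul_hom' hp]

theorem pJ_smul (t : ℂ) (c : Vars (q * m + r) m → ℂ) (J : Fin r ↪o Fin m) :
    pJ q (fun s => t * c s) J = t ^ NN m q r * pJ q c J := sym_smulc _ (z_mem _) t c

theorem sym_tl {n : ℕ} (d : ℕ) {u : U n m} (hu : u ∈ FF n m (d + 1))
    (A : Matrix (Fin n) (Fin n) ℂ) (v : Matrix (Fin n) (Fin m) ℂ) :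
    sym d (cAv (tl A) v) u = sym d (cAv A v) u := by
  have hphi : ∀ x : G n m, phi (cAv (tl A) v) x = phi (cAv A v) x := by
    intro x
    rw [phi_cAv, phi_cAv, tl, Matrix.transpose_sub, Matrix.sub_mul, Matrix.trace_sub,
      Matrix.transpose_smul, Matrix.transpose_one, Matrix.smul_mul, Matrix.one_mul,
      Matrix.trace_smul]
    have : Matrix.trace (x.1 : Matrix (Fin n) (Fin n) ℂ) = 0 := x.1.2
    rw [this, smul_zero, sub_zero]
  induction hu using Submodule.span_induction with
  | mem u hu =>
    obtain ⟨l, hl, rfl⟩ := hu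
    rcases Nat.lt_succ_iff_lt_or_eq.1 hl with h2 | h2
    · rw [sym_prod_lt d _ _ h2, sym_prod_lt d _ _ h2]
    · subst h2
      rw [sym_prod_eq, sym_prod_eq]
      congr 1
      apply List.map_congr_left
      intro x _
      exact hphi x
  | zero => rw [sym_zero, sym_zero]
  | add x y _ _ hx hy => rw [sym_add, sym_add, hx, hy]
  | smul a x _ hx => rw [sym_smul, sym_smul, hx]

theorem NN_pos (hr : 0 < r) : 0 < NN m q r := by
  unfold NN
  apply Finset.sum_pos
  · intro k _; omega
  · exact ⟨⟨0, by omega⟩, Finset.mem_univ _⟩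

include hr hrm in
/-- Symbols of central elements are polynomials in the symbols of the `z_J`. -/
theorem central_symbol {d : ℕ} {u : U (q * m + r) m} (hu : u ∈ FF (q * m + r) m (d + 1))
    (hc : u ∈ Subalgebra.center ℂ (U (q * m + r) m)) :
    ∃ Q : MvPolynomial (Fin r ↪o Fin m) ℂ, (∀ c, sym d c u = eval (pJ q c) Q) ∧
      (Q = 0 ∨ ∃ k, d = k * NN m q r ∧ Q.IsHomogeneous k) := by
  have hx := mem_center_iff'.1 hc
  have hpoly : IsPoly (fun (A : Matrix (Fin (q * m + r)) (Fin (q * m + r)) ℂ)
      (v : Matrix (Fin (q * m + r)) (Fin m) ℂ) => sym d (cAv A v) u) := by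
    obtain ⟨p, _, hp'⟩ := sym_poly d hu
    exact ⟨p, fun A v => hp' _⟩
  have hinv : IsInv (fun (A : Matrix (Fin (q * m + r)) (Fin (q * m + r)) ℂ)
      (v : Matrix (Fin (q * m + r)) (Fin m) ℂ) => sym d (cAv A v) u) :=
    ⟨fun A v w => sym_transl d hu hx A v w, fun g hg A v => sym_SL d hu hx g hg A v⟩
  obtain ⟨Q, hQ⟩ := concl hr hrm q (ex m q r) _ hpoly hinv
  have h1 : ∀ c, sym d c u = eval (pJ q c) Q := by
    intro c
    obtain ⟨A, v, rfl⟩ := cAv_surj c
    have h2 := hQ (tl A) v
    rw [sym_tl d hu] at h2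
    rw [h2]
    unfold evQ
    congr 2
    funext J
    rw [pJ_eq]
  -- homogeneity
  have h2 : ∀ c (t : ℂ), ∑ k ∈ Finset.range (Q.totalDegree + 1),
      (t ^ NN m q r) ^ k * eval (pJ q c) (homogeneousComponent k Q) = t ^ d * sym d c u := by
    intro c t
    rw [← eval_smul_eq, ← sym_smulc d hu, h1]
    congr 2
    funext J
    exact (pJ_smul t c J).symm
  have hN := NN_pos (m := m) (q := q) hr
  have h3 : ∀ c, sym d c u = ∑ k ∈ Finset.range (Q.totalDegree + 1),
      if d = NN m q r * k then eval (pJ q c) (homogeneousComponent k Q) else 0 := by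
    intro c
    have h4 : ∑ k ∈ Finset.range (Q.totalDegree + 1), Polynomial.C (eval (pJ q c)
        (homogeneousComponent k Q)) * Polynomial.X ^ (NN m q r * k) =
        Polynomial.C (sym d c u) * Polynomial.X ^ d := by
      apply Polynomial.funext
      intro t
      simp only [Polynomial.eval_finsetSum, Polynomial.eval_mul, Polynomial.eval_C,
        Polynomial.eval_pow, Polynomial.eval_X]
      rw [mul_comm (sym d c u), ← h2 c t]
      refine Finset.sum_congr rfl fun k _ => ?_
      rw [pow_mul, mul_comm]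
    have h5 := congrArg (fun p => Polynomial.coeff p d) h4
    simp only [Polynomial.finsetSum_coeff, Polynomial.coeff_C_mul, Polynomial.coeff_X_pow,
      if_true, mul_one, mul_ite, mul_zero] at h5
    exact h5.symm
  by_cases hd : NN m q r ∣ d
  · obtain ⟨k, rfl⟩ := hd
    refine ⟨homogeneousComponent k Q, fun c => ?_, Or.inr ⟨k, mul_comm _ _,
      homogeneousComponent_isHomogeneous k Q⟩⟩
    rw [h3 c]
    have h6 : ∀ k' ∈ Finset.range (Q.totalDegree + 1), (if NN m q r * k = NN m q r * k' then
        eval (pJ q c) (homogeneousComponent k' Q) else 0) =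
        if k = k' then eval (pJ q c) (homogeneousComponent k' Q) else 0 := by
      intro k' _
      by_cases hk : k = k'
      · subst hk; simp
      · rw [if_neg hk, if_neg]
        intro h
        exact hk (Nat.eq_of_mul_eq_mul_left hN h)
    rw [Finset.sum_congr rfl h6, Finset.sum_ite_eq]
    split_ifs with hk
    · rfl
    · rw [homogeneousComponent_eq_zero, map_zero]
      rw [Finset.mem_range] at hk
      omega
  · refine ⟨0, fun c => ?_, Or.inl rfl⟩
    rw [h3 c, map_zero]
    apply Finset.sum_eq_zero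
    intro k _
    rw [if_neg]
    intro h
    exact hd ⟨k, h⟩

theorem surj_aux : ∀ (d : ℕ) (u : U (q * m + r) m), u ∈ FF (q * m + r) m d →
    u ∈ Subalgebra.center ℂ (U (q * m + r) m) → ∃ Q, evU q hr hrm Q = u := by
  intro d
  induction d with
  | zero =>
    intro u hu _
    rw [FF_zero, Submodule.mem_bot] at hu
    exact ⟨0, by rw [hu]; simp [evU]⟩
  | succ d ih =>
    intro u hu hc
    obtain ⟨Q, hQ, hQ'⟩ := central_symbol hr hrm hu hc
    have h1 : evU q hr hrm Q ∈ FF (q * m + r) m (d + 1) ∧
        ∀ c, sym d c (evU q hr hrm Q) = eval (pJ q c) Q := by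
      rcases hQ' with rfl | ⟨k, rfl, hk⟩
      · have : evU q hr hrm (0 : MvPolynomial (Fin r ↪o Fin m) ℂ) = 0 := by simp [evU]
        rw [this]
        exact ⟨Submodule.zero_mem _, fun c => by rw [sym_zero, map_zero]⟩
      · exact evU_hom hr hrm hk
    have h2 : u - evU q hr hrm Q ∈ FF (q * m + r) m d := by
      apply sym_inj (Submodule.sub_mem _ hu h1.1)
      intro c
      rw [sym_sub, hQ, h1.2, sub_self]
    obtain ⟨Q', hQ'⟩ := ih _ h2 (Subalgebra.sub_mem _ hc (evU_center hr hrm Q))
    exact ⟨Q' + Q, by rw [evU_add, hQ']; abel⟩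

/-- generation -/
theorem surj : Function.Surjective (aeval (R := ℂ) (zc (q := q) hr hrm)) := by
  intro u
  obtain ⟨d, hd⟩ := exists_mem_FF (u : U (q * m + r) m)
  obtain ⟨Q, hQ⟩ := surj_aux (q := q) hr hrm d (u : U (q * m + r) m) hd u.2
  exact ⟨Q, Subtype.ext hQ⟩

theorem Tt_evU_hom (t : ℂ) {k : ℕ} {Q : MvPolynomial (Fin r ↪o Fin m) ℂ}
    (hQ : Q.IsHomogeneous k) : Tt (q * m + r) m t (evU q hr hrm Q) =
      (t ^ (q * m + r)) ^ k • evU q hr hrm Q := by
  have hmon : ∀ α : (Fin r ↪o Fin m) →₀ ℕ, Tt (q * m + r) m t (evU q hr hrm (monomial α 1)) =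
      (t ^ (q * m + r)) ^ (Finsupp.weight (1 : (Fin r ↪o Fin m) → ℕ) α) •
        evU q hr hrm (monomial α 1) := by
    intro α
    induction α using Finsupp.induction_linear with
    | zero =>
      have h : (monomial (0 : (Fin r ↪o Fin m) →₀ ℕ)) (1 : ℂ) = C 1 := rfl
      rw [h, evU_C, one_smul, map_zero, pow_zero, one_smul, map_one]
    | add α β hα hβ =>
      have h : (monomial (α + β)) (1 : ℂ) = monomial α 1 * monomial β 1 := by
        rw [monomial_mul, one_mul]
      rw [h, evU_mul, map_mul, hα, hβ, map_add, pow_add (t ^ (q * m + r)), smul_mul_smul_comm]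
    | single J k =>
      induction k with
      | zero =>
        have h : (monomial (Finsupp.single J 0)) (1 : ℂ) = C 1 := by simp
        rw [h, evU_C, one_smul, Finsupp.single_zero, map_zero, pow_zero, one_smul, map_one]
      | succ k ih =>
        have h : (monomial (Finsupp.single J (k + 1))) (1 : ℂ) =
            monomial (Finsupp.single J k) 1 * X J := by
          rw [X, monomial_mul, one_mul, ← Finsupp.single_add]
        have hw : Finsupp.weight (1 : (Fin r ↪o Fin m) → ℕ) (Finsupp.single J (k + 1)) =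
            Finsupp.weight (1 : (Fin r ↪o Fin m) → ℕ) (Finsupp.single J k) + 1 := by
          rw [Finsupp.weight_single, Finsupp.weight_single]
          simp
        rw [h, evU_mul, map_mul, ih, evU_X, Tt_z, hw, pow_add (t ^ (q * m + r)),
          pow_one (t ^ (q * m + r)), smul_mul_smul_comm]
  have h1 : ∀ α ∈ Q.support, monomial α (coeff α Q) = C (coeff α Q) * monomial α 1 := by
    intro α _
    rw [C_mul_monomial, mul_one]
  have h2 : evU q hr hrm Q = ∑ α ∈ Q.support, coeff α Q • evU q hr hrm (monomial α 1) := by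
    conv_lhs => rw [← support_sum_monomial_coeff Q]
    rw [evU_sum]
    refine Finset.sum_congr rfl fun α hα => ?_
    rw [h1 α hα, evU_C_mul]
  rw [h2, map_sum, Finset.smul_sum]
  refine Finset.sum_congr rfl fun α hα => ?_
  rw [map_smul, hmon α, smul_comm, hQ (mem_support_iff.1 hα)]

theorem evU_sum_comp (Q : MvPolynomial (Fin r ↪o Fin m) ℂ) : evU q hr hrm Q =
    ∑ k ∈ Finset.range (Q.totalDegree + 1), evU q hr hrm (homogeneousComponent k Q) := by
  conv_lhs => rw [← sum_homogeneousComponent Q]
  rw [evU_sum]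

/-- components of relations are relations -/
theorem evU_comp_zero {Q : MvPolynomial (Fin r ↪o Fin m) ℂ} (h : evU q hr hrm Q = 0) (k : ℕ) :
    evU q hr hrm (homogeneousComponent k Q) = 0 := by
  by_cases hk : k < Q.totalDegree + 1
  · rw [← Module.forall_dual_apply_eq_zero_iff ℂ]
    intro f
    have h1 : ∀ T : ℂ, ∑ k ∈ Finset.range (Q.totalDegree + 1),
        T ^ k * f (evU q hr hrm (homogeneousComponent k Q)) =
        ∑ k ∈ Finset.range (Q.totalDegree + 1), T ^ k * (fun _ => (0 : ℂ)) k := by
      intro T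
      obtain ⟨t, ht⟩ := IsAlgClosed.exists_pow_nat_eq T (n := q * m + r) (by omega)
      have h2 := congrArg (Tt (q * m + r) m t) (evU_sum_comp hr hrm Q)
      rw [h, map_zero, map_sum] at h2
      have h3 := congrArg f h2
      rw [map_zero, map_sum] at h3
      simp only [mul_zero, Finset.sum_const_zero]
      rw [h3]
      refine Finset.sum_congr rfl fun k _ => ?_
      rw [Tt_evU_hom hr hrm t (homogeneousComponent_isHomogeneous k Q), map_smul, ht, smul_eq_mul]
    exact coeffs_eq h1 k hk
  · rw [homogeneousComponent_eq_zero _ _ (by omega)]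
    simp [evU]

theorem evMin_aeval (Q : MvPolynomial (Fin r ↪o Fin m) ℂ) (y : Matrix (Fin r) (Fin m) ℂ) :
    evM y (aeval (fun J : Fin r ↪o Fin m => minor (J : Fin r → Fin m)) Q) = evMin Q y := by
  unfold evMin evM
  induction Q using MvPolynomial.induction_on with
  | C a => simp
  | add p q hp hq => rw [map_add, map_add, map_add, hp, hq]
  | mul_X p J hp =>
    rw [map_mul, map_mul, map_mul, hp, aeval_X, eval_X]
    congr 1
    exact evM_minor y J

theorem pJ_iff (hr : 0 < r) (Q : MvPolynomial (Fin r ↪o Fin m) ℂ) :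
    (∀ c, eval (pJ q c) Q = 0) ↔ ∀ y, evMin Q y = 0 := by
  rw [← ker_iff' hr q (ex m q r)]
  constructor
  · intro h A v
    -- reduce to traceless A
    have h0 : ∀ (A : Matrix (Fin (q * m + r)) (Fin (q * m + r)) ℂ)
        (v : Matrix (Fin (q * m + r)) (Fin m) ℂ), A.trace = 0 → evQ q (ex m q r) Q A v = 0 := by
      intro A v hA
      have h1 := h (cAv A v)
      have h2 : tl A = A := by rw [tl, hA, mul_zero, zero_smul, sub_zero]
      have h3 : (pJ q (cAv A v) : (Fin r ↪o Fin m) → ℂ) =
          fun J : Fin r ↪o Fin m => PJ q (ex m q r) J A v := by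
        funext J
        rw [pJ_eq, h2]
      rw [h3] at h1
      exact h1
    by_cases hv : v = 0
    · subst hv
      have h1 := h0 0 0 (by simp)
      rw [← h1]
      unfold evQ
      congr 2
      funext J
      unfold PJ
      congr 2
      ext a c
      rcases c with ⟨s, l⟩ | i <;> simp [Kry]
    · obtain ⟨a, j, haj⟩ : ∃ a j, v a j ≠ 0 := by
        by_contra hcon
        push Not at hcon
        exact hv (by ext a j; exact hcon a j)
      set w : Matrix (Fin m) (Fin (q * m + r)) ℂ := Matrix.single j a (-(A.trace) / v a j) with hw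
      have htr : (A + v * w).trace = 0 := by
        rw [Matrix.trace_add, hw, Matrix.trace_mul_single]
        simp
        field_simp
        ring
      have h1 := h0 (A + v * w) v htr
      rw [(evQ_inv q (ex m q r) Q).1] at h1
      exact h1
  · intro h c
    obtain ⟨A, v, rfl⟩ := cAv_surj c
    have h1 := h (tl A) v
    rw [← h1]
    unfold evQ
    congr 2
    funext J
    rw [pJ_eq]

/-- The relations among the `z_J` are the relations among the maximal minors. -/
theorem ker_eq : RingHom.ker (aeval (R := ℂ) (zc (q := q) hr hrm)) =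
    RingHom.ker (aeval (R := ℂ) (fun J : Fin r ↪o Fin m => minor (J : Fin r → Fin m))) := by
  ext Q
  rw [RingHom.mem_ker, RingHom.mem_ker]
  have e1 : aeval (zc (q := q) hr hrm) Q = 0 ↔ evU q hr hrm Q = 0 := by
    unfold evU
    exact ⟨fun h => by rw [h]; rfl, fun h => Subtype.ext h⟩
  have e2 : aeval (R := ℂ) (fun J : Fin r ↪o Fin m => minor (J : Fin r → Fin m)) Q = 0 ↔
      ∀ c, eval (pJ q c) Q = 0 := by
    rw [pJ_iff hr]
    constructor
    · intro h y
      rw [← evMin_aeval, h]
      simp [evM]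
    · intro h
      apply MvPolynomial.funext
      intro y
      have h1 := h (Matrix.of fun i j => y (i, j))
      rw [← evMin_aeval] at h1
      rw [map_zero]
      exact h1
  rw [e1, e2]
  constructor
  · intro h c
    have h1 := evU_comp_zero hr hrm h
    rw [← sum_homogeneousComponent Q, map_sum]
    apply Finset.sum_eq_zero
    intro k _
    rw [← (evU_hom (q := q) hr hrm (homogeneousComponent_isHomogeneous k Q)).2 c, h1 k, sym_zero]
  · intro h
    rw [evU_sum_comp]
    apply Finset.sum_eq_zero
    intro k hk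
    have hN := NN_pos (m := m) (q := q) hr
    have hhom := homogeneousComponent_isHomogeneous k Q
    -- the component also vanishes on symbols
    have h1 : ∀ c, eval (pJ q c) (homogeneousComponent k Q) = 0 := by
      intro c
      have h2 : ∀ T : ℂ, ∑ k ∈ Finset.range (Q.totalDegree + 1),
          T ^ k * eval (pJ q c) (homogeneousComponent k Q) =
          ∑ k ∈ Finset.range (Q.totalDegree + 1), T ^ k * (fun _ => (0 : ℂ)) k := by
        intro T
        obtain ⟨t, ht⟩ := IsAlgClosed.exists_pow_nat_eq T hN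
        simp only [mul_zero, Finset.sum_const_zero]
        rw [← eval_smul_eq, ← h (fun s => t * c s)]
        congr 2
        funext J
        rw [pJ_smul, ht]
      exact coeffs_eq h2 k (Finset.mem_range.1 hk)
    set w := evU q hr hrm (homogeneousComponent k Q) with hw
    have hwc : w ∈ Subalgebra.center ℂ (U (q * m + r) m) := evU_center hr hrm _
    have hw1 := evU_hom (q := q) hr hrm hhom
    rw [← hw] at hw1
    have key : ∀ j, j ≤ k * NN m q r → w ∈ FF (q * m + r) m (k * NN m q r - j) := by
      intro j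
      induction j with
      | zero =>
        intro _
        rw [Nat.sub_zero]
        apply sym_inj hw1.1
        intro c
        rw [hw1.2, h1]
      | succ j ih =>
        intro hj
        have h2 := ih (by omega)
        obtain ⟨d, hd⟩ : ∃ d, k * NN m q r - j = d + 1 := ⟨k * NN m q r - j - 1, by omega⟩
        have hd' : k * NN m q r - (j + 1) = d := by omega
        rw [hd] at h2
        rw [hd']
        apply sym_inj h2
        intro c
        obtain ⟨Q', hQ', hQ''⟩ := central_symbol hr hrm h2 hwc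
        rcases hQ'' with rfl | ⟨k', hk', hk''⟩
        · rw [hQ', map_zero]
        · have hkk : k' < k := by
            by_contra hcon
            push Not at hcon
            have : k * NN m q r ≤ k' * NN m q r := Nat.mul_le_mul_right _ hcon
            omega
          -- scaling by 2 in the second coordinates
          have h3 := sym_Tt 2 c d h2
          rw [Tt_evU_hom hr hrm 2 hhom, sym_smul, ← hw] at h3
          have h4 : sym d (scV 2 c) w = ((2 : ℂ) ^ (q * m + r)) ^ k' * sym d c w := by
            rw [hQ', hQ', ← eval_smul_hom' hk'']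
            congr 2
            funext J
            unfold pJ
            rw [← sym_Tt 2 c _ (z_mem _), Tt_z, sym_smul]
          rw [h4] at h3
          have h5 : (((2 : ℂ) ^ (q * m + r)) ^ k - ((2 : ℂ) ^ (q * m + r)) ^ k') * sym d c w = 0 := by
            rw [sub_mul, h3, sub_self]
          rcases mul_eq_zero.1 h5 with h6 | h6
          · exfalso
            have h7 : ((2 : ℂ) ^ (q * m + r)) ^ k = ((2 : ℂ) ^ (q * m + r)) ^ k' :=
              sub_eq_zero.1 h6
            have h8 : ((2 : ℕ) ^ (q * m + r)) ^ k = ((2 : ℕ) ^ (q * m + r)) ^ k' := by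
              exact_mod_cast h7
            have h9 : 1 < 2 ^ (q * m + r) := Nat.one_lt_two_pow (by omega)
            have := Nat.pow_right_injective h9 h8
            omega
          · exact h6
    have h2 := key (k * NN m q r) le_rfl
    rw [Nat.sub_self, FF_zero, Submodule.mem_bot] at h2
    exact h2

end Main

end Pool.Agent.Helper49.SLnm
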