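import Mathlib
import Pool.Agent.Helper49.SLnm.Defs

/-!
The center of `U(g)`, as an algebra, and polynomials in central elements.
-/

namespace Pool.Agent.Helper49.SLnm

/-- The center of `U(g)`. -/
abbrev ZU (n m : ℕ) : Type := Subalgebra.center ℂ (U n m)

/-- The homomorphism `C[X_i] → Z(U(g))` which substitutes the central element `Z i` for the
variable `X_i`. -/
noncomputable def subst {n m : ℕ} {ι : Type} (Z : ι → ZU n m) : MvPolynomial ι ℂ →+* ZU n m :=
  (MvPolynomial.aeval (R := ℂ) Z).toRingHom

/-- The central elements `Z i` generate the algebra `Z(U(g))`, and the ideal of all polynomial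
relations among them is generated by the set `S`. -/
def IsPresentation {n m : ℕ} {ι : Type} (Z : ι → ZU n m) (S : Set (MvPolynomial ι ℂ)) : Prop :=
  Function.Surjective (subst Z) ∧ RingHom.ker (subst Z) = Ideal.span S

end Pool.Agent.Helper49.SLnm
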